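import Pool.Agent.T2h91.TI.Count

/-!
# The size of the discriminant against the square of the conductor
-/

set_option autoImplicit false

namespace Pool.Agent.T2h91.TI

open Finset Filter Topology
open Pool.Agent.H328R2.ABC (rad rad_pos)
open Pool.Agent.T2h82 (cond ht card_split)

/-- the deviation of a pair by the factor `K` -/
def Dev (K : ℝ) (q : ℤ × ℤ) (N : ℝ) : Prop :=
  (q.2.natAbs : ℝ) < N ^ (1 / 2 : ℝ) / K ∨ ((gg q).natAbs : ℝ) < N ^ (1 / 2 : ℝ) / K ∨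
    K * N ^ (1 / 2 : ℝ) < HH q

theorem Dev.mono {K K' : ℝ} {q : ℤ × ℤ} {N : ℝ} (hN : 1 ≤ N) (hK : 0 < K) (hKK : K ≤ K')
    (h : Dev K' q N) : Dev K q N := by
  have h0 : 0 ≤ N ^ (1 / 2 : ℝ) := by positivity
  have h1 : N ^ (1 / 2 : ℝ) / K' ≤ N ^ (1 / 2 : ℝ) / K := by gcongr
  have h2 : K * N ^ (1 / 2 : ℝ) ≤ K' * N ^ (1 / 2 : ℝ) := by gcongr
  rcases h with h | h | h
  · exact Or.inl (h.trans_le h1)
  · exact Or.inr (Or.inl (h.trans_le h1))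
  · exact Or.inr (Or.inr (h2.trans_lt h))

theorem pairs_law0 (τ θ : ℝ) (hτ0 : 0 < τ) (hτ : τ < 2 / 3) (hθ0 : 0 < θ) (hθ : θ < 4 / 9) :
    ∃ μ η C : ℝ, 0 < μ ∧ μ < 1 ∧ 0 < η ∧ 0 < C ∧ ∀ X K : ℝ, 1 ≤ X → 1 ≤ K → K ≤ X ^ μ →
      ∀ S : Finset (ℤ × ℤ), (∀ q ∈ S, Bd τ X q ∧ ∃ N : ℝ, 1 ≤ N ∧ N ≤ X ∧ Ad N q ∧ Dev K q N) →
      (S.card : ℝ) ≤ C * (K ^ (-θ) * X ^ (2 / 3 : ℝ) + X ^ (2 / 3 - η)) := by
  classical
  set μ : ℝ := (2 / 3 - τ) / 2 with hμ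
  have hμ0 : 0 < μ := by rw [hμ]; linarith
  have hμ1 : μ < 1 := by rw [hμ]; linarith
  have hμ2 : 0 < 1 - μ := by linarith
  set τ' : ℝ := τ / (1 - μ) with hτ'
  have hτ'1 : τ' < 2 / 3 := by
    rw [hτ', div_lt_iff₀ hμ2]
    linarith
  have hτ'0 : 0 < τ' := by positivity
  obtain ⟨C1, hC1, h1⟩ := pairs_total τ' hτ'1
  obtain ⟨η2, C2, hη2, hC2, h2⟩ := pairs_tail τ (3 / 2 * θ) hτ (by linarith) (by linarith)
  set η : ℝ := min η2 (1 / 3) with hη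
  have hη0 : 0 < η := lt_min hη2 (by norm_num)
  refine ⟨μ, η, C1 + 18 + C2, hμ0, hμ1, hη0, by positivity, ?_⟩
  intro X K hX hK hKX S hS
  have hX0 : 0 < X := by linarith
  have hK0 : 0 < K := by linarith
  have hKX1 : K ≤ X := by
    calc K ≤ X ^ μ := hKX
      _ ≤ X ^ (1 : ℝ) := Real.rpow_le_rpow_of_exponent_le hX hμ1.le
      _ = X := Real.rpow_one X
  set Z : ℝ := X / K ^ (2 / 3 : ℝ) with hZ
  have hKa : K ^ (2 / 3 : ℝ) ≤ K := by
    calc K ^ (2 / 3 : ℝ) ≤ K ^ (1 : ℝ) := Real.rpow_le_rpow_of_exponent_le hK (by norm_num)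
      _ = K := Real.rpow_one K
  have hKa0 : 0 < K ^ (2 / 3 : ℝ) := by positivity
  have hZ0 : 0 < Z := by positivity
  have hZX : X ^ (1 - μ) ≤ Z := by
    rw [hZ, le_div_iff₀ hKa0]
    calc X ^ (1 - μ) * K ^ (2 / 3 : ℝ) ≤ X ^ (1 - μ) * X ^ μ := by
          gcongr
          linarith
      _ = X := by
          rw [← Real.rpow_add hX0]
          simp
  have hZ1 : 1 ≤ Z := (Real.one_le_rpow hX hμ2.le).trans hZX
  set p1 : ℤ × ℤ → Prop := fun q => Ad Z q with hp1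
  set T : ℝ := K ^ (2 / 3 : ℝ) * X ^ (1 / 2 : ℝ) with hT
  set p2 : ℤ × ℤ → Prop := fun q => ((HH q : ℤ) : ℝ) ≤ T with hp2
  have s1 := card_split S p1
  have s2 := card_split (S.filter (fun q => ¬ p1 q)) p2
  have hKθ : K ^ (-(4 / 9) : ℝ) ≤ K ^ (-θ) := Real.rpow_le_rpow_of_exponent_le hK (by linarith)
  have hKp : 0 < K ^ (-θ) := by positivity
  have hXp : 0 < X ^ (2 / 3 : ℝ) := by positivity
  have c1 : ((S.filter p1).card : ℝ) ≤ C1 * (K ^ (-θ) * X ^ (2 / 3 : ℝ)) := by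
    have e1 := h1 Z hZ1 (S.filter p1) (fun q hq => by
      rw [mem_filter] at hq
      obtain ⟨⟨a1, a2, a3⟩, -⟩ := hS q hq.1
      have e : X ^ τ ≤ Z ^ τ' := by
        calc X ^ τ = (X ^ (1 - μ)) ^ τ' := by
              rw [← Real.rpow_mul hX0.le, hτ', mul_div_cancel₀ _ hμ2.ne']
          _ ≤ Z ^ τ' := Real.rpow_le_rpow (by positivity) hZX hτ'0.le
      exact ⟨hq.2, by linarith, by linarith⟩)
    have e2 : Z ^ (2 / 3 : ℝ) = K ^ (-(4 / 9) : ℝ) * X ^ (2 / 3 : ℝ) := by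
      rw [hZ, Real.div_rpow hX0.le hKa0.le, ← Real.rpow_mul hK0.le, Real.rpow_neg hK0.le]
      have : (2 / 3 * (2 / 3) : ℝ) = 4 / 9 := by norm_num
      rw [this]
      ring
    rw [e2] at e1
    refine e1.trans ?_
    gcongr
  have big : ∀ q ∈ S.filter (fun q => ¬ p1 q), Bd τ X q ∧
      ((q.2.natAbs : ℝ) ≤ X ^ (1 / 2 : ℝ) / K ∨ ((gg q).natAbs : ℝ) ≤ X ^ (1 / 2 : ℝ) / K ∨
        T < HH q) := by
    intro q hq
    rw [mem_filter] at hq
    obtain ⟨hb, N, hN1, hNX, haN, hor⟩ := hS q hq.1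
    have hN0 : 0 < N := by linarith
    have hNb : Z < N := by
      by_contra hcon
      push Not at hcon
      exact hq.2 ⟨haN.n3, haN.n0, haN.g0, haN.cop, haN.rad_le.trans hcon⟩
    refine ⟨hb, ?_⟩
    have g1 : N ^ (1 / 2 : ℝ) / K ≤ X ^ (1 / 2 : ℝ) / K := by gcongr
    rcases hor with h | h | h
    · left; linarith
    · right; left; linarith
    · right; right
      have g2 : T ≤ K * N ^ (1 / 2 : ℝ) := by
        calc T = K * Z ^ (1 / 2 : ℝ) := by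
              rw [hT, hZ, Real.div_rpow hX0.le hKa0.le, ← Real.rpow_mul hK0.le,
                mul_div_assoc', eq_div_iff (by positivity)]
              have e1 : K = K ^ (2 / 3 : ℝ) * K ^ (1 / 3 : ℝ) := by
                rw [← Real.rpow_add hK0]
                norm_num
              have e2 : (2 / 3 * (1 / 2) : ℝ) = 1 / 3 := by norm_num
              rw [e2]
              conv_rhs => rw [e1]
              ring
          _ ≤ K * N ^ (1 / 2 : ℝ) := by gcongr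
      linarith
  have hT1 : 1 ≤ T := by
    have e1 : 1 ≤ K ^ (2 / 3 : ℝ) := Real.one_le_rpow hK (by norm_num)
    have e2 : 1 ≤ X ^ (1 / 2 : ℝ) := Real.one_le_rpow hX (by norm_num)
    rw [hT]
    nlinarith
  have c2 : (((S.filter (fun q => ¬ p1 q)).filter p2).card : ℝ) ≤
      18 * (K ^ (-θ) * X ^ (2 / 3 : ℝ) + X ^ (2 / 3 - η)) := by
    have e1 := small ((S.filter (fun q => ¬ p1 q)).filter p2) T (X ^ (1 / 2 : ℝ) / K) hT1
      (by positivity) (fun q hq => by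
        rw [mem_filter] at hq
        obtain ⟨-, hor⟩ := big q hq.1
        refine ⟨hq.2, ?_⟩
        rcases hor with h | h | h
        · exact Or.inl h
        · exact Or.inr h
        · exact absurd h (not_lt.2 hq.2))
    have e2 : T ^ (1 / 3 : ℝ) = K ^ (2 / 9 : ℝ) * X ^ (1 / 6 : ℝ) := by
      rw [hT, Real.mul_rpow (by positivity) (by positivity), ← Real.rpow_mul hK0.le,
        ← Real.rpow_mul hX0.le]
      norm_num
    rw [e2] at e1
    have e3 : K ^ (2 / 9 : ℝ) * X ^ (1 / 6 : ℝ) * (X ^ (1 / 2 : ℝ) / K) ≤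
        K ^ (-θ) * X ^ (2 / 3 : ℝ) := by
      have f1 : K ^ (2 / 9 : ℝ) * X ^ (1 / 6 : ℝ) * (X ^ (1 / 2 : ℝ) / K) =
          K ^ (2 / 9 - 1 : ℝ) * (X ^ (1 / 6 : ℝ) * X ^ (1 / 2 : ℝ)) := by
        rw [Real.rpow_sub_one hK0.ne']
        ring
      rw [f1, ← Real.rpow_add hX0]
      have f2 : (1 / 6 + 1 / 2 : ℝ) = 2 / 3 := by norm_num
      rw [f2]
      have f3 : K ^ (2 / 9 - 1 : ℝ) ≤ K ^ (-θ) :=
        Real.rpow_le_rpow_of_exponent_le hK (by linarith)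
      gcongr
    have e4 : K ^ (2 / 9 : ℝ) * X ^ (1 / 6 : ℝ) ≤ X ^ (2 / 3 - η) := by
      have f1 : K ^ (2 / 9 : ℝ) ≤ X ^ (1 / 6 : ℝ) := by
        have hμ3 : μ ≤ 1 / 3 := by rw [hμ]; linarith
        calc K ^ (2 / 9 : ℝ) ≤ (X ^ μ) ^ (2 / 9 : ℝ) := by gcongr
          _ = X ^ (μ * (2 / 9)) := by rw [← Real.rpow_mul hX0.le]
          _ ≤ X ^ (1 / 6 : ℝ) := Real.rpow_le_rpow_of_exponent_le hX (by linarith)
      calc K ^ (2 / 9 : ℝ) * X ^ (1 / 6 : ℝ) ≤ X ^ (1 / 6 : ℝ) * X ^ (1 / 6 : ℝ) := by gcongr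
        _ = X ^ (1 / 6 + 1 / 6 : ℝ) := by rw [← Real.rpow_add hX0]
        _ ≤ X ^ (2 / 3 - η) := by
            have : η ≤ 1 / 3 := min_le_right _ _
            exact Real.rpow_le_rpow_of_exponent_le hX (by linarith)
    have e5 : 3 * (K ^ (2 / 9 : ℝ) * X ^ (1 / 6 : ℝ)) * (4 * (X ^ (1 / 2 : ℝ) / K) + 2) =
        12 * (K ^ (2 / 9 : ℝ) * X ^ (1 / 6 : ℝ) * (X ^ (1 / 2 : ℝ) / K)) +
          6 * (K ^ (2 / 9 : ℝ) * X ^ (1 / 6 : ℝ)) := by ring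
    rw [e5] at e1
    have p1' : 0 ≤ K ^ (-θ) * X ^ (2 / 3 : ℝ) := by positivity
    have p2' : 0 ≤ X ^ (2 / 3 - η) := by positivity
    linarith
  have c3 : (((S.filter (fun q => ¬ p1 q)).filter (fun q => ¬ p2 q)).card : ℝ) ≤
      C2 * (K ^ (-θ) * X ^ (2 / 3 : ℝ) + X ^ (2 / 3 - η)) := by
    have e1 := h2 X (K ^ (2 / 3 : ℝ)) hX (Real.one_le_rpow hK (by norm_num))
      ((S.filter (fun q => ¬ p1 q)).filter (fun q => ¬ p2 q)) (fun q hq => by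
        rw [mem_filter] at hq
        refine ⟨(big q hq.1).1, ?_⟩
        exact not_le.1 hq.2)
    have e2 : (K ^ (2 / 3 : ℝ)) ^ (-(3 / 2 * θ)) = K ^ (-θ) := by
      rw [← Real.rpow_mul hK0.le]
      congr 1
      ring
    rw [e2] at e1
    have e3 : X ^ (2 / 3 - η2) ≤ X ^ (2 / 3 - η) :=
      Real.rpow_le_rpow_of_exponent_le hX (by linarith [min_le_left η2 (1 / 3)])
    refine e1.trans ?_
    gcongr
  have p3 : 0 ≤ C1 * X ^ (2 / 3 - η) := by positivity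
  rw [s1, s2]
  linarith

theorem pairs_law (τ θ : ℝ) (hτ0 : 0 < τ) (hτ : τ < 2 / 3) (hθ0 : 0 < θ) (hθ : θ < 4 / 9) :
    ∃ η C : ℝ, 0 < η ∧ 0 < C ∧ ∀ X K : ℝ, 1 ≤ X → 1 ≤ K →
      ∀ S : Finset (ℤ × ℤ), (∀ q ∈ S, Bd τ X q ∧ ∃ N : ℝ, 1 ≤ N ∧ N ≤ X ∧ Ad N q ∧ Dev K q N) →
      (S.card : ℝ) ≤ C * (K ^ (-θ) * X ^ (2 / 3 : ℝ) + X ^ (2 / 3 - η)) := by
  obtain ⟨μ, η1, C, hμ0, hμ1, hη1, hC, h⟩ := pairs_law0 τ θ hτ0 hτ hθ0 hθ
  set η : ℝ := min η1 (μ * θ) with hη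
  have hη0 : 0 < η := lt_min hη1 (by positivity)
  refine ⟨η, 2 * C, hη0, by positivity, ?_⟩
  intro X K hX hK S hS
  have hX0 : 0 < X := by linarith
  have hK0 : 0 < K := by linarith
  have e1 : X ^ (2 / 3 - η1) ≤ X ^ (2 / 3 - η) :=
    Real.rpow_le_rpow_of_exponent_le hX (by linarith [min_le_left η1 (μ * θ)])
  have p1 : 0 ≤ K ^ (-θ) * X ^ (2 / 3 : ℝ) := by positivity
  have p2 : 0 ≤ X ^ (2 / 3 - η) := by positivity
  rcases le_total K (X ^ μ) with hle | hle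
  · have h1 := h X K hX hK hle S hS
    nlinarith
  · have h1 := h X (X ^ μ) hX (Real.one_le_rpow hX hμ0.le) le_rfl S (fun q hq => by
      obtain ⟨a1, N, a2, a3, a4, a5⟩ := hS q hq
      exact ⟨a1, N, a2, a3, a4, a5.mono a2 (by positivity) hle⟩)
    have e2 : (X ^ μ) ^ (-θ) * X ^ (2 / 3 : ℝ) ≤ X ^ (2 / 3 - η) := by
      rw [← Real.rpow_mul hX0.le, ← Real.rpow_add hX0]
      refine Real.rpow_le_rpow_of_exponent_le hX ?_
      linarith [min_le_right η1 (μ * θ)]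
    nlinarith

/-- the deviation of a curve by the factor `K` -/
def DevW (K : ℝ) (W : WeierstrassCurve ℤ) : Prop :=
  |(W.Δ : ℝ)| < (cond W : ℝ) ^ 2 / K ∨ K * (cond W : ℝ) ^ 2 < ((ht W : ℤ) : ℝ)

theorem law (κ θ : ℝ) (hκ0 : 0 < κ) (hκ : κ < 8 / 3) (hθ0 : 0 < θ) (hθ : θ < 1 / 9) :
    ∃ η C : ℝ, 0 < η ∧ 0 < C ∧ ∀ X K : ℝ, 1 ≤ X → 1 ≤ K →
      (Cl κ X (DevW K)).Finite ∧
      ((Cl κ X (DevW K)).ncard : ℝ) ≤ C * (K ^ (-θ) + X ^ (-η)) * X ^ (2 / 3 : ℝ) := by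
  obtain ⟨η, C, hη, hC, h⟩ := pairs_law (κ / 4) (4 * θ) (by linarith) (by linarith) (by linarith)
    (by linarith)
  obtain ⟨C', hC', hu⟩ := upper κ hκ
  set C'' : ℝ := C' * (80 : ℝ) ^ (4 * θ) + 2 * C * (80 : ℝ) ^ (4 * θ) with hC''
  have h80 : 1 ≤ (80 : ℝ) ^ (4 * θ) := Real.one_le_rpow (by norm_num) (by linarith)
  refine ⟨η, C'', hη, by positivity, ?_⟩
  intro X K hX hK
  have hX0 : 0 < X := by linarith
  have hK0 : 0 < K := by linarith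
  have hX23 : 0 < X ^ (2 / 3 : ℝ) := by positivity
  have hXη : 0 < X ^ (-η) := by positivity
  have hKθ : 0 < K ^ (-θ) := by positivity
  rcases lt_or_ge K (80 ^ 4) with hlt | hge
  · obtain ⟨k1, k2⟩ := hu X hX
    have hsub : Cl κ X (DevW K) ⊆ Cl κ X (fun _ => True) := by
      rintro q ⟨W, a1, a2, a3, a4, a5, -, a6⟩
      exact ⟨W, a1, a2, a3, a4, a5, trivial, a6⟩
    refine ⟨k1.subset hsub, ?_⟩
    have e1 : ((Cl κ X (DevW K)).ncard : ℝ) ≤ ((Cl κ X (fun _ => True)).ncard : ℝ) := by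
      exact_mod_cast Set.ncard_le_ncard hsub k1
    have e2 : 1 ≤ (80 : ℝ) ^ (4 * θ) * K ^ (-θ) := by
      have f1 : K ^ θ ≤ (80 : ℝ) ^ (4 * θ) := by
        calc K ^ θ ≤ (80 ^ 4 : ℝ) ^ θ := by gcongr
          _ = (80 : ℝ) ^ (4 * θ) := by
              rw [← Real.rpow_natCast, ← Real.rpow_mul (by norm_num)]
              norm_num
      rw [Real.rpow_neg hK0.le, ← div_eq_mul_inv, le_div_iff₀ (by positivity), one_mul]
      exact f1
    calc ((Cl κ X (DevW K)).ncard : ℝ) ≤ C' * 1 * X ^ (2 / 3 : ℝ) := by linarith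
      _ ≤ C' * ((80 : ℝ) ^ (4 * θ) * K ^ (-θ)) * X ^ (2 / 3 : ℝ) := by gcongr
      _ ≤ _ := by
          have f1 : 0 ≤ C' * (80 : ℝ) ^ (4 * θ) := by positivity
          have f2 : 0 ≤ 2 * C * (80 : ℝ) ^ (4 * θ) := by positivity
          have f3 : C' * ((80 : ℝ) ^ (4 * θ) * K ^ (-θ)) ≤ C'' * (K ^ (-θ) + X ^ (-η)) := by
            rw [hC'']
            nlinarith [mul_nonneg f1 hXη.le, mul_nonneg f2 hKθ.le, mul_nonneg f2 hXη.le]
          gcongr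
  · set L : ℝ := K ^ (1 / 4 : ℝ) / 80 with hL
    have hK4 : 80 ≤ K ^ (1 / 4 : ℝ) := by
      refine le_of_pow_le_pow_left₀ (n := 4) (by norm_num) (by positivity) ?_
      rw [← Real.rpow_natCast, ← Real.rpow_natCast (K ^ (1 / 4 : ℝ)), ← Real.rpow_mul hK0.le]
      norm_num
      norm_num at hge
      exact hge
    have hL1 : 1 ≤ L := by
      rw [hL, le_div_iff₀ (by norm_num)]
      linarith
    have hK44 : (K ^ (1 / 4 : ℝ)) ^ 4 = K := by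
      rw [← Real.rpow_natCast, ← Real.rpow_mul hK0.le]
      norm_num
    have := cl_bound κ X hX (DevW K)
      (fun q => ∃ N : ℝ, 1 ≤ N ∧ N ≤ X ∧ Ad N q ∧ Dev L q N)
      (C * (L ^ (-(4 * θ)) * X ^ (2 / 3 : ℝ) + X ^ (2 / 3 - η))) ?_
      (fun S hS => h X L hX hL1 S hS)
    · refine ⟨this.1, this.2.trans ?_⟩
      have e1 : L ^ (-(4 * θ)) = (80 : ℝ) ^ (4 * θ) * K ^ (-θ) := by
        rw [hL, Real.div_rpow (by positivity) (by norm_num), ← Real.rpow_mul hK0.le,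
          Real.rpow_neg (by norm_num : (0 : ℝ) ≤ 80), div_inv_eq_mul, mul_comm]
        congr 2
        ring
      have e2 : X ^ (2 / 3 - η) = X ^ (-η) * X ^ (2 / 3 : ℝ) := by
        rw [← Real.rpow_add hX0]
        congr 1
        ring
      rw [e1, e2]
      have f3 : 2 * (C * ((80 : ℝ) ^ (4 * θ) * K ^ (-θ) + X ^ (-η))) ≤
          C'' * (K ^ (-θ) + X ^ (-η)) := by
        have f1 : 0 ≤ C' * (80 : ℝ) ^ (4 * θ) := by positivity
        have f4 : 0 ≤ C * X ^ (-η) := by positivity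
        rw [hC'']
        nlinarith [mul_nonneg f1 hXη.le, mul_nonneg f1 hKθ.le, mul_le_mul_of_nonneg_right h80 f4]
      calc 2 * (C * ((80 : ℝ) ^ (4 * θ) * K ^ (-θ) * X ^ (2 / 3 : ℝ) +
            X ^ (-η) * X ^ (2 / 3 : ℝ)))
          = 2 * (C * ((80 : ℝ) ^ (4 * θ) * K ^ (-θ) + X ^ (-η))) * X ^ (2 / 3 : ℝ) := by ring
        _ ≤ _ := by gcongr
    · intro W hN hP q hadm hht hD
      have hN1 : (1 : ℝ) ≤ (cond W : ℝ) := by
        have : 0 < cond W := prod_pos (fun p hp => (Nat.prime_of_mem_primeFactors hp).pos)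
        exact_mod_cast this
      have hN0 : (0 : ℝ) < (cond W : ℝ) := by linarith
      refine ⟨cond W, hN1, hN, hadm, ?_⟩
      have hNh : ((cond W : ℝ) ^ (1 / 2 : ℝ)) ^ 4 = (cond W : ℝ) ^ 2 := by
        rw [← Real.rpow_natCast, ← Real.rpow_mul hN0.le, ← Real.rpow_natCast (cond W : ℝ) 2]
        norm_num
      rcases hP with hP | hP
      · have e1 : (cond W : ℝ) ^ 2 / K =
            ((cond W : ℝ) ^ (1 / 2 : ℝ) / K ^ (1 / 4 : ℝ)) ^ 4 := by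
          rw [div_pow, hNh, hK44]
        rw [e1] at hP
        have e2 : (cond W : ℝ) ^ (1 / 2 : ℝ) / K ^ (1 / 4 : ℝ) ≤
            (cond W : ℝ) ^ (1 / 2 : ℝ) / L := by
          have : L ≤ K ^ (1 / 4 : ℝ) := by
            rw [hL]
            exact div_le_self (by positivity) (by norm_num)
          gcongr
        rcases hD _ (by positivity) hP with h1 | h1
        · exact Or.inl (h1.trans_le e2)
        · exact Or.inr (Or.inl (h1.trans_le e2))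
      · right; right
        have hH0 : (0 : ℝ) ≤ 80 * HH q := by
          have := (Nat.cast_nonneg (α := ℝ) q.2.natAbs).trans (n_le_HH q)
          linarith
        have e1 : K * (cond W : ℝ) ^ 2 = (K ^ (1 / 4 : ℝ) * (cond W : ℝ) ^ (1 / 2 : ℝ)) ^ 4 := by
          rw [mul_pow, hNh, hK44]
        rw [e1] at hP
        have e2 := lt_of_pow_lt_pow_left₀ 4 hH0 (hP.trans_le hht)
        rw [hL]
        have e3 : K ^ (1 / 4 : ℝ) / 80 * (cond W : ℝ) ^ (1 / 2 : ℝ) =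
            K ^ (1 / 4 : ℝ) * (cond W : ℝ) ^ (1 / 2 : ℝ) / 80 := by ring
        rw [e3, div_lt_iff₀ (by norm_num)]
        linarith

end Pool.Agent.T2h91.TI
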