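import Pool.Agent.T2h91.TI.Power

/-!
# The invariants of a semistable curve with a rational subgroup of order three
-/

set_option autoImplicit false

namespace Pool.Agent.T2h91.TI

open Finset

/-- a rational subgroup of order three -/
def Three (W : WeierstrassCurve ℤ) : Prop :=
  ∃ r : ℚ, 3 * r ^ 4 + W.b₂ * r ^ 3 + 3 * W.b₄ * r ^ 2 + 3 * W.b₆ * r + W.b₈ = 0

theorem int_root4 (b c d e : ℤ) (r : ℚ) (h : r ^ 4 + b * r ^ 3 + c * r ^ 2 + d * r + e = 0) :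
    ∃ z : ℤ, (z : ℚ) = r := by
  have hm : (Polynomial.X ^ 4 + Polynomial.C b * Polynomial.X ^ 3 + Polynomial.C c * Polynomial.X ^ 2
      + Polynomial.C d * Polynomial.X + Polynomial.C e : Polynomial ℤ).Monic := by
    monicity!
  have := isInteger_of_is_root_of_monic hm (r := r) (by simpa using h)
  obtain ⟨z, hz⟩ := this
  exact ⟨z, by simpa using hz⟩

/-- the integral root of the division polynomial -/
theorem exists_t (W : WeierstrassCurve ℤ) (h : Three W) : ∃ t : ℤ,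
    (4 * t + W.b₂) ^ 4 - 6 * W.c₄ * (4 * t + W.b₂) ^ 2 - 8 * W.c₆ * (4 * t + W.b₂) -
      3 * W.c₄ ^ 2 = 0 := by
  obtain ⟨r, hr⟩ := h
  obtain ⟨t, ht⟩ : ∃ z : ℤ, (z : ℚ) = 3 * r := by
    refine int_root4 W.b₂ (9 * W.b₄) (27 * W.b₆) (27 * W.b₈) (3 * r) ?_
    push_cast
    linear_combination 27 * hr
  have htz : t ^ 4 + W.b₂ * t ^ 3 + 9 * W.b₄ * t ^ 2 + 27 * W.b₆ * t + 27 * W.b₈ = 0 := by
    have : (t : ℚ) ^ 4 + W.b₂ * t ^ 3 + 9 * W.b₄ * t ^ 2 + 27 * W.b₆ * t + 27 * W.b₈ = 0 := by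
      rw [ht]
      linear_combination 27 * hr
    exact_mod_cast this
  refine ⟨t, ?_⟩
  have h8 := W.b_relation
  unfold WeierstrassCurve.c₄ WeierstrassCurve.c₆
  linear_combination 256 * htz - 1728 * h8

theorem odd_pow_dvd_sq {p : ℤ} (hp : Prime p) (k : ℕ) : ∀ C : ℤ, p ^ (2 * k + 1) ∣ C ^ 2 →
    p ^ (k + 1) ∣ C := by
  induction k with
  | zero =>
    intro C h
    rw [mul_zero, zero_add, pow_one] at h
    rw [zero_add, pow_one]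
    exact hp.dvd_of_dvd_pow h
  | succ k ih =>
    intro C h
    have h1 : p ∣ C := hp.dvd_of_dvd_pow ((dvd_pow_self p (by omega)).trans h)
    obtain ⟨D, rfl⟩ := h1
    have h2 : p ^ 2 * p ^ (2 * k + 1) ∣ p ^ 2 * D ^ 2 := by
      rw [← pow_add, ← mul_pow]
      have : 2 + (2 * k + 1) = 2 * (k + 1) + 1 := by ring
      rw [this]
      exact h
    have h3 := (mul_dvd_mul_iff_left (pow_ne_zero 2 hp.ne_zero)).1 h2
    have h4 := ih D h3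
    have : p ^ (k + 1 + 1) = p * p ^ (k + 1) := by ring
    rw [this]
    exact mul_dvd_mul_left p h4

/-- no prime other than three divides the root to an odd power -/
theorem odd_val {p Z C S y : ℤ} {k : ℕ} (hp : Prime p) (h3 : IsCoprime p 3)
    (h : Z ^ 4 - 6 * C * Z ^ 2 - S * Z - 3 * C ^ 2 = 0) (hS : ¬ p ∣ S)
    (hZ : Z = p ^ (2 * k + 1) * y) (hy : ¬ p ∣ y) : False := by
  have hZd : p ^ (2 * k + 1) ∣ Z := ⟨y, hZ⟩
  have h1 : p ^ (2 * k + 1) ∣ 3 * C ^ 2 := by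
    have : 3 * C ^ 2 = Z * (Z ^ 3 - 6 * C * Z - S) := by linear_combination -h
    rw [this]
    exact hZd.mul_right _
  have h2 : p ^ (2 * k + 1) ∣ C ^ 2 := (h3.pow_left).dvd_of_dvd_mul_left h1
  have h4 := odd_pow_dvd_sq hp k C h2
  have h5 : p ^ (2 * k + 2) ∣ C ^ 2 := by
    have : p ^ (2 * k + 2) = (p ^ (k + 1)) ^ 2 := by ring
    rw [this]
    exact pow_dvd_pow_of_dvd h4 2
  have h6 : p ^ (2 * k + 2) ∣ Z ^ 2 := by
    have : p ^ (2 * k + 2) ∣ (p ^ (2 * k + 1)) ^ 2 := by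
      rw [← pow_mul]
      exact pow_dvd_pow _ (by omega)
    exact this.trans (pow_dvd_pow_of_dvd hZd 2)
  have h7 : p ^ (2 * k + 2) ∣ S * Z := by
    have : S * Z = Z ^ 2 * (Z ^ 2 - 6 * C) - 3 * C ^ 2 := by linear_combination -h
    rw [this]
    exact dvd_sub (h6.mul_right _) (h5.mul_left _)
  have h8 : p ^ (2 * k + 1) * p ∣ p ^ (2 * k + 1) * (S * y) := by
    have e1 : p ^ (2 * k + 1) * p = p ^ (2 * k + 2) := by ring
    have e2 : p ^ (2 * k + 1) * (S * y) = S * Z := by rw [hZ]; ring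
    rw [e1, e2]
    exact h7
  have h9 := (mul_dvd_mul_iff_left (pow_ne_zero _ hp.ne_zero)).1 h8
  rcases hp.dvd_or_dvd h9 with h | h
  · exact hS h
  · exact hy h

theorem coprime_iff_not {p : ℕ} (hp : p.Prime) (h3 : p ≠ 3) : IsCoprime (p : ℤ) 3 := by
  have : Nat.Coprime p 3 := (Nat.coprime_primes hp Nat.prime_three).2 h3
  exact_mod_cast Nat.isCoprime_iff_coprime.2 this

/-- the invariants are prime to three -/
theorem c4_three (W : WeierstrassCurve ℤ) (hc : IsCoprime W.c₄ W.Δ) {z : ℤ}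
    (hz : z ^ 4 - 6 * W.c₄ * z ^ 2 - 8 * W.c₆ * z - 3 * W.c₄ ^ 2 = 0) : ¬ (3 : ℤ) ∣ W.c₄ := by
  intro h3
  have hD : ¬ (3 : ℤ) ∣ W.Δ := by
    intro h4
    have := hc.isUnit_of_dvd' h3 h4
    rw [Int.isUnit_iff] at this
    omega
  have hb2 : (3 : ℤ) ∣ W.b₂ := by
    have : W.b₂ ^ 2 = W.c₄ + 3 * (8 * W.b₄) := by
      unfold WeierstrassCurve.c₄
      ring
    exact Int.prime_three.dvd_of_dvd_pow (n := 2) (by
      rw [this]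
      exact dvd_add h3 (dvd_mul_right _ _))
  obtain ⟨β, hβ⟩ := hb2
  obtain ⟨s', hs'⟩ : ∃ s' : ℤ, W.c₆ = 27 * s' := by
    refine ⟨-β ^ 3 + 4 * β * W.b₄ - 8 * W.b₆, ?_⟩
    unfold WeierstrassCurve.c₆
    rw [hβ]
    ring
  have hz3 : (3 : ℤ) ∣ z := by
    obtain ⟨c', hc'⟩ := h3
    refine Int.prime_three.dvd_of_dvd_pow (n := 4) ⟨2 * W.c₄ * z ^ 2 + 72 * s' * z + W.c₄ ^ 2, ?_⟩
    rw [hs'] at hz
    linear_combination hz
  obtain ⟨z', rfl⟩ := hz3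
  obtain ⟨c', hc'⟩ := h3
  have hc3 : (3 : ℤ) ∣ c' := by
    refine Int.prime_three.dvd_of_dvd_pow (n := 2) ⟨z' ^ 4 - 2 * c' * z' ^ 2 - 8 * s' * z', ?_⟩
    rw [hs', hc'] at hz
    have : 27 * c' ^ 2 = 27 * (3 * (z' ^ 4 - 2 * c' * z' ^ 2 - 8 * s' * z')) := by
      linear_combination -hz
    omega
  obtain ⟨c'', rfl⟩ := hc3
  apply hD
  have hrel := W.c_relation
  rw [hc', hs'] at hrel
  have h64 : 64 * W.Δ = 27 * (c'' ^ 3 - s' ^ 2) := by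
    have : 27 * (64 * W.Δ) = 27 * (27 * (c'' ^ 3 - s' ^ 2)) := by linear_combination hrel
    omega
  omega

/-- the data at two for an even first invariant -/
theorem even_data (W : WeierstrassCurve ℤ) (hc : IsCoprime W.c₄ W.Δ) (h2 : (2 : ℤ) ∣ W.c₄)
    {t : ℤ} (hz : (4 * t + W.b₂) ^ 4 - 6 * W.c₄ * (4 * t + W.b₂) ^ 2 -
      8 * W.c₆ * (4 * t + W.b₂) - 3 * W.c₄ ^ 2 = 0) :
    ∃ z1 c1 s1 : ℤ, 4 * t + W.b₂ = 4 * z1 ∧ W.c₄ = 16 * c1 ∧ W.c₆ = 8 * s1 ∧ s1 % 4 = 1 ∧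
      z1 ^ 4 - 6 * c1 * z1 ^ 2 - s1 * z1 - 3 * c1 ^ 2 = 0 := by
  have hD : ¬ (2 : ℤ) ∣ W.Δ := by
    intro h3
    have := hc.isUnit_of_dvd' h2 h3
    rw [Int.isUnit_iff] at this
    omega
  -- a₁ is even
  have ha1 : (2 : ℤ) ∣ W.a₁ := by
    have e1 : W.c₄ = W.a₁ ^ 4 + 2 * (4 * W.a₁ ^ 2 * W.a₂ + 8 * W.a₂ ^ 2 - 12 * W.b₄) := by
      unfold WeierstrassCurve.c₄ WeierstrassCurve.b₂
      ring
    rw [e1] at h2
    have h3 : (2 : ℤ) ∣ W.a₁ ^ 4 := (Int.dvd_iff_dvd_of_dvd_add h2).2 (dvd_mul_right _ _)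
    exact Int.prime_two.dvd_of_dvd_pow h3
  obtain ⟨α, hα⟩ := ha1
  have hb2 : W.b₂ = 4 * (α ^ 2 + W.a₂) := by
    unfold WeierstrassCurve.b₂
    rw [hα]
    ring
  have hb4 : W.b₄ = 2 * (α * W.a₃ + W.a₄) := by
    unfold WeierstrassCurve.b₄
    rw [hα]
    ring
  have hb6 : W.b₆ = W.a₃ ^ 2 + 4 * W.a₆ := rfl
  -- a₃ is odd
  have ha3 : ¬ (2 : ℤ) ∣ W.a₃ := by
    rintro ⟨v, hv⟩
    apply hD
    have hd : W.Δ = -W.b₂ ^ 2 * W.b₈ - 8 * W.b₄ ^ 3 - 27 * W.b₆ ^ 2 + 9 * W.b₂ * W.b₄ * W.b₆ := rfl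
    refine ⟨-8 * (α ^ 2 + W.a₂) ^ 2 * W.b₈ - 4 * W.b₄ ^ 3 - 216 * (v ^ 2 + W.a₆) ^ 2 +
      18 * (α ^ 2 + W.a₂) * W.b₄ * W.b₆, ?_⟩
    rw [hd, hb2, hb6, hv]
    ring
  obtain ⟨j, hj⟩ : ∃ j : ℤ, W.b₆ = 4 * j + 1 := by
    obtain ⟨i, hi⟩ : ∃ i : ℤ, W.a₃ = 2 * i + 1 := ⟨W.a₃ / 2, by omega⟩
    exact ⟨i ^ 2 + i + W.a₆, by rw [hb6, hi]; ring⟩
  set β := α ^ 2 + W.a₂ with hβ
  set γ := α * W.a₃ + W.a₄ with hγ
  have hc4 : W.c₄ = 16 * (β ^ 2 - 3 * γ) := by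
    unfold WeierstrassCurve.c₄
    rw [hb2, hb4]
    ring
  have hc6 : W.c₆ = 8 * (-8 * β ^ 3 + 36 * β * γ - 27 * W.b₆) := by
    unfold WeierstrassCurve.c₆
    rw [hb2, hb4]
    ring
  refine ⟨t + β, β ^ 2 - 3 * γ, -8 * β ^ 3 + 36 * β * γ - 27 * W.b₆, by rw [hb2]; ring, hc4, hc6,
    ?_, ?_⟩
  · rw [hj]
    have : -8 * β ^ 3 + 36 * β * γ - 27 * (4 * j + 1) =
        1 + 4 * (-2 * β ^ 3 + 9 * β * γ - 27 * j - 7) := by ring
    rw [this]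
    omega
  · rw [hc4, hc6, hb2] at hz
    have : 256 * ((t + β) ^ 4 - 6 * (β ^ 2 - 3 * γ) * (t + β) ^ 2 -
        (-8 * β ^ 3 + 36 * β * γ - 27 * W.b₆) * (t + β) - 3 * (β ^ 2 - 3 * γ) ^ 2) = 0 := by
      linear_combination hz
    omega

end Pool.Agent.T2h91.TI
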