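import Pool.Agent.T2h91.TI.Alg

/-!
# The invariants of a semistable curve with a rational subgroup of order three, continued
-/

set_option autoImplicit false

namespace Pool.Agent.T2h91.TI

open Finset

theorem exists_pow_form {p a b : ℕ} (hp : p.Prime) (hsq : Squarefree a) (hb : b ≠ 0) (hpa : p ∣ a)
    {z : ℤ} (hab : b ^ 2 * a = z.natAbs) : ∃ (k : ℕ) (y : ℤ), z = (p : ℤ) ^ (2 * k + 1) * y ∧
      ¬ (p : ℤ) ∣ y := by
  obtain ⟨a', rfl⟩ := hpa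
  have ha' : ¬ p ∣ a' := by
    rintro ⟨a'', rfl⟩
    have := hsq p ⟨a'', by ring⟩
    exact hp.one_lt.ne' (Nat.isUnit_iff.1 this)
  obtain ⟨k, b', hb', rfl⟩ := Nat.exists_eq_pow_mul_and_not_dvd hb p hp.one_lt.ne'
  have h1 : (z.natAbs : ℤ) = (p : ℤ) ^ (2 * k + 1) * (a' * b' ^ 2 : ℕ) := by
    rw [← hab]
    push_cast
    ring
  have h2 : ¬ (p : ℤ) ∣ ((a' * b' ^ 2 : ℕ) : ℤ) := by
    rw [Int.natCast_dvd_natCast]
    intro h
    rcases hp.dvd_mul.1 h with h | h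
    · exact ha' h
    · exact hb' (hp.dvd_of_dvd_pow h)
  rcases Int.natAbs_eq z with h | h
  · exact ⟨k, ((a' * b' ^ 2 : ℕ) : ℤ), by rw [h]; exact h1, h2⟩
  · refine ⟨k, -((a' * b' ^ 2 : ℕ) : ℤ), by rw [h, h1]; ring, fun h3 => h2 ((dvd_neg).1 h3)⟩

theorem not_dvd_a (W : WeierstrassCurve ℤ) (hc : IsCoprime W.c₄ W.Δ)
    {t : ℤ} (hz : (4 * t + W.b₂) ^ 4 - 6 * W.c₄ * (4 * t + W.b₂) ^ 2 -
      8 * W.c₆ * (4 * t + W.b₂) - 3 * W.c₄ ^ 2 = 0) {p a b : ℕ} (hp : p.Prime) (h3 : p ≠ 3)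
    (hsq : Squarefree a) (hb : b ≠ 0) (hab : b ^ 2 * a = (4 * t + W.b₂).natAbs) : ¬ p ∣ a := by
  intro hpa
  obtain ⟨k, y, hy1, hy2⟩ := exists_pow_form hp hsq hb hpa hab
  have hpp : Prime (p : ℤ) := Nat.prime_iff_prime_int.1 hp
  have hcop := coprime_iff_not hp h3
  set z := 4 * t + W.b₂ with hzd
  have hpz : (p : ℤ) ∣ z := by
    rw [hy1]
    exact (dvd_pow_self _ (by omega)).mul_right _
  have hpc : (p : ℤ) ∣ W.c₄ := by
    have h1 : (p : ℤ) ∣ 3 * W.c₄ ^ 2 := by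
      have : 3 * W.c₄ ^ 2 = z * (z ^ 3 - 6 * W.c₄ * z - 8 * W.c₆) := by linear_combination -hz
      rw [this]
      exact hpz.mul_right _
    exact hpp.dvd_of_dvd_pow (hcop.dvd_of_dvd_mul_left h1)
  have hpD : ¬ (p : ℤ) ∣ W.Δ := fun h => hpp.not_isUnit (hc.isUnit_of_dvd' hpc h)
  by_cases h2 : p = 2
  · subst h2
    obtain ⟨z1, c1, s1, e1, e2, e3, e4, e5⟩ := even_data W hc (by exact_mod_cast hpc) (t := t) hz
    rw [← hzd] at e1
    -- k ≥ 1
    rcases k with _ | k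
    · rw [mul_zero, zero_add, pow_one] at hy1
      apply hy2
      push_cast at hy1 ⊢
      omega
    · refine odd_val (p := 2) (Z := z1) (C := c1) (S := s1) (y := y) (k := k) Int.prime_two
        (by exact_mod_cast hcop) e5 (by omega) ?_ (by exact_mod_cast hy2)
      have : 4 * z1 = 4 * (2 ^ (2 * k + 1) * y) := by
        rw [← e1, hy1]
        push_cast
        ring
      omega
  · refine odd_val (p := (p : ℤ)) (Z := z) (C := W.c₄) (S := 8 * W.c₆) (y := y) (k := k) hpp hcop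
      hz ?_ hy1 hy2
    intro h8
    have hp2 : ¬ (p : ℤ) ∣ 8 := by
      intro h
      have h5 : p ∣ 2 ^ 3 := by
        have : p ∣ 8 := by exact_mod_cast h
        exact this
      have := (Nat.prime_dvd_prime_iff_eq hp Nat.prime_two).1 (hp.dvd_of_dvd_pow h5)
      exact h2 this
    have hpc6 : (p : ℤ) ∣ W.c₆ := by
      rcases hpp.dvd_or_dvd h8 with h | h
      · exact absurd h hp2
      · exact h
    have h1728 : (p : ℤ) ∣ 1728 * W.Δ := by
      rw [W.c_relation]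
      exact dvd_sub (hpc.trans (dvd_pow_self _ (by norm_num)))
        (hpc6.trans (dvd_pow_self _ (by norm_num)))
    rcases hpp.dvd_or_dvd h1728 with h | h
    · have h5 : p ∣ 2 ^ 6 * 3 ^ 3 := by
        have : p ∣ 1728 := by exact_mod_cast h
        exact this
      rcases hp.dvd_mul.1 h5 with h6 | h6
      · exact h2 ((Nat.prime_dvd_prime_iff_eq hp Nat.prime_two).1 (hp.dvd_of_dvd_pow h6))
      · exact h3 ((Nat.prime_dvd_prime_iff_eq hp Nat.prime_three).1 (hp.dvd_of_dvd_pow h6))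
    · exact hpD h

/-- the root is a square or three times a square, up to the sign -/
theorem exists_sq (W : WeierstrassCurve ℤ) (hc : IsCoprime W.c₄ W.Δ)
    {t : ℤ} (hz : (4 * t + W.b₂) ^ 4 - 6 * W.c₄ * (4 * t + W.b₂) ^ 2 -
      8 * W.c₆ * (4 * t + W.b₂) - 3 * W.c₄ ^ 2 = 0) : ∃ u : ℤ, ¬ (3 : ℤ) ∣ u ∧
      (4 * t + W.b₂ = u ^ 2 ∨ 4 * t + W.b₂ = -u ^ 2 ∨ 4 * t + W.b₂ = 3 * u ^ 2 ∨
        4 * t + W.b₂ = -3 * u ^ 2) := by
  have h3c := c4_three W hc hz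
  set z := 4 * t + W.b₂ with hzd
  have hz0 : z ≠ 0 := by
    intro h
    rw [h] at hz
    apply h3c
    have : W.c₄ ^ 2 = 0 := by linarith
    rw [pow_eq_zero_iff (by norm_num)] at this
    rw [this]
    exact dvd_zero _
  obtain ⟨a, b, hab, hsq⟩ := Nat.sq_mul_squarefree z.natAbs
  have hb : b ≠ 0 := by
    rintro rfl
    rw [zero_pow (by norm_num), zero_mul] at hab
    omega
  have hz3 : ∀ z' : ℤ, z = 3 * z' → ¬ (3 : ℤ) ∣ z' := by
    rintro z' h1 ⟨z'', rfl⟩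
    rw [h1] at hz
    apply h3c
    refine Int.prime_three.dvd_of_dvd_pow (n := 2)
      ⟨3 * (243 * z'' ^ 4 - 18 * W.c₄ * z'' ^ 2) - 8 * W.c₆ * z'', ?_⟩
    have : 3 * W.c₄ ^ 2 = 3 * (3 * (3 * (243 * z'' ^ 4 - 18 * W.c₄ * z'' ^ 2) -
        8 * W.c₆ * z'')) := by linear_combination -hz
    omega
  have ha : a = 1 ∨ a = 3 := by
    have hprime : ∀ p : ℕ, p.Prime → p ∣ a → p = 3 := by
      intro p hp hpa
      by_contra h
      exact not_dvd_a W hc hz hp h hsq hb hab hpa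
    by_cases h1 : a = 1
    · exact Or.inl h1
    · right
      obtain ⟨p, hp, hpa⟩ := Nat.exists_prime_and_dvd h1
      have h2 := hprime p hp hpa
      subst h2
      obtain ⟨a', rfl⟩ := hpa
      by_cases h4 : a' = 1
      · rw [h4]
      · obtain ⟨p, hp', hpa'⟩ := Nat.exists_prime_and_dvd h4
        have h5 := hprime p hp' (hpa'.mul_left 3)
        subst h5
        have := hsq 3 (mul_dvd_mul_left 3 hpa')
        exact absurd (Nat.isUnit_iff.1 this) (by norm_num)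
  have hzab : (z.natAbs : ℤ) = (b : ℤ) ^ 2 * a := by
    rw [← hab]
    push_cast
    ring
  rcases ha with h | h
  · subst h
    refine ⟨b, ?_, ?_⟩
    · rintro ⟨c, hcc⟩
      rcases Int.natAbs_eq z with h5 | h5
      · refine hz3 (3 * c ^ 2) ?_ (dvd_mul_right _ _)
        rw [h5, hzab, hcc]
        push_cast
        ring
      · refine hz3 (-(3 * c ^ 2)) ?_ ((dvd_mul_right _ _).neg_right)
        rw [h5, hzab, hcc]
        push_cast
        ring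
    · rcases Int.natAbs_eq z with h5 | h5
      · left
        rw [h5, hzab]
        push_cast
        ring
      · right; left
        rw [h5, hzab]
        push_cast
        ring
  · subst h
    refine ⟨b, ?_, ?_⟩
    · intro hcc
      rcases Int.natAbs_eq z with h5 | h5
      · refine hz3 ((b : ℤ) ^ 2) ?_ (hcc.trans (dvd_pow_self _ (by norm_num)))
        rw [h5, hzab]
        push_cast
        ring
      · refine hz3 (-(b : ℤ) ^ 2) ?_ ((hcc.trans (dvd_pow_self _ (by norm_num))).neg_right)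
        rw [h5, hzab]
        push_cast
        ring
    · rcases Int.natAbs_eq z with h5 | h5
      · right; right; left
        rw [h5, hzab]
        push_cast
        ring
      · right; right; right
        rw [h5, hzab]
        push_cast
        ring

/-- the cofactor of the first invariant -/
theorem dvd_c {z c s u a : ℤ} (h : z ^ 4 - 6 * c * z ^ 2 - s * z - 3 * c ^ 2 = 0)
    (hz : z = a * u ^ 2) (h3 : ¬ (3 : ℤ) ∣ u) : u ∣ c := by
  have h1 : u ^ 2 ∣ 3 * c ^ 2 := by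
    have : 3 * c ^ 2 = z * (z ^ 3 - 6 * c * z - s) := by linear_combination -h
    rw [this, hz]
    exact ((dvd_refl (u ^ 2)).mul_left a).mul_right _
  have h2 : IsCoprime (u ^ 2) 3 := ((prime_three_cop h3).symm).pow_left
  have h4 := h2.dvd_of_dvd_mul_left h1
  exact (Int.pow_dvd_pow_iff (by norm_num)).1 h4

/-- the sign of the root -/
theorem sign_root (W : WeierstrassCurve ℤ) (hc : IsCoprime W.c₄ W.Δ)
    {t : ℤ} (hz : (4 * t + W.b₂) ^ 4 - 6 * W.c₄ * (4 * t + W.b₂) ^ 2 -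
      8 * W.c₆ * (4 * t + W.b₂) - 3 * W.c₄ ^ 2 = 0) : ∃ u : ℤ, ¬ (3 : ℤ) ∣ u ∧
      (4 * t + W.b₂ = u ^ 2 ∨ 4 * t + W.b₂ = -3 * u ^ 2) := by
  obtain ⟨u, hu3, hor⟩ := exists_sq W hc hz
  refine ⟨u, hu3, ?_⟩
  by_cases h2 : (2 : ℤ) ∣ W.c₄
  · obtain ⟨z1, c1, s1, e1, e2, e3, e4, e5⟩ := even_data W hc h2 (t := t) hz
    rw [e1] at hor
    have hu2 : (2 : ℤ) ∣ u := by
      have : (2 : ℤ) ∣ u ^ 2 := by
        rcases hor with h | h | h | h
        · exact ⟨2 * z1, by linarith⟩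
        · exact ⟨-2 * z1, by linarith⟩
        · have h5 : (2 : ℤ) ∣ 3 * u ^ 2 := ⟨2 * z1, by linarith⟩
          omega
        · have h5 : (2 : ℤ) ∣ 3 * u ^ 2 := ⟨-2 * z1, by linarith⟩
          omega
      exact Int.prime_two.dvd_of_dvd_pow this
    obtain ⟨u1, rfl⟩ := hu2
    have hu1 : ¬ (3 : ℤ) ∣ u1 := fun h => hu3 (h.mul_left 2)
    have hu10 : u1 ≠ 0 := by
      rintro rfl
      exact hu1 (dvd_zero _)
    rw [e1]
    have hsq4 : ∀ x : ℤ, x ^ 2 % 4 = 0 ∨ x ^ 2 % 4 = 1 := by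
      intro x
      rcases Int.even_or_odd x with ⟨i, hi⟩ | ⟨i, hi⟩
      · left
        have : x ^ 2 = 4 * i ^ 2 := by rw [hi]; ring
        rw [this]
        omega
      · right
        have : x ^ 2 = 4 * (i ^ 2 + i) + 1 := by rw [hi]; ring
        rw [this]
        omega
    rcases hor with h | h | h | h
    · left; exact h
    · exfalso
      have hz1 : z1 = (-1) * u1 ^ 2 := by
        have : 4 * z1 = 4 * ((-1) * u1 ^ 2) := by rw [h]; ring
        omega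
      obtain ⟨C1, hC1⟩ := dvd_c e5 hz1 hu1
      have h6 : (u1 ^ 3) ^ 2 - 6 * C1 * u1 ^ 3 + s1 - 3 * C1 ^ 2 = 0 := by
        rw [hz1, hC1] at e5
        have : u1 ^ 2 * ((u1 ^ 3) ^ 2 - 6 * C1 * u1 ^ 3 + s1 - 3 * C1 ^ 2) = 0 := by
          linear_combination e5
        exact (mul_eq_zero.1 this).resolve_left (pow_ne_zero 2 hu10)
      have h7 : (u1 ^ 3 + C1) ^ 2 = -s1 + 4 * (2 * (C1 * u1 ^ 3) + C1 ^ 2) := by
        linear_combination h6
      have h8 := hsq4 (u1 ^ 3 + C1)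
      rw [h7] at h8
      omega
    · exfalso
      have hz1 : z1 = 3 * u1 ^ 2 := by
        have : 4 * z1 = 4 * (3 * u1 ^ 2) := by rw [h]; ring
        omega
      obtain ⟨C1, hC1⟩ := dvd_c e5 hz1 hu1
      have h6 : 27 * (u1 ^ 3) ^ 2 - 18 * C1 * u1 ^ 3 - s1 - C1 ^ 2 = 0 := by
        rw [hz1, hC1] at e5
        have : 3 * u1 ^ 2 * (27 * (u1 ^ 3) ^ 2 - 18 * C1 * u1 ^ 3 - s1 - C1 ^ 2) = 0 := by
          linear_combination e5
        exact (mul_eq_zero.1 this).resolve_left (mul_ne_zero (by norm_num) (pow_ne_zero 2 hu10))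
      have h7 : (u1 ^ 3 + C1) ^ 2 = -s1 + 4 * (7 * (u1 ^ 3) ^ 2 - 4 * (C1 * u1 ^ 3)) := by
        linear_combination -h6
      have h8 := hsq4 (u1 ^ 3 + C1)
      rw [h7] at h8
      omega
    · right; exact h
  · -- a₁ is odd
    have ha1 : ¬ (2 : ℤ) ∣ W.a₁ := by
      rintro ⟨α, hα⟩
      apply h2
      refine ⟨8 * ((α ^ 2 + W.a₂) ^ 2 - 3 * (α * W.a₃ + W.a₄)), ?_⟩
      unfold WeierstrassCurve.c₄ WeierstrassCurve.b₂ WeierstrassCurve.b₄
      rw [hα]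
      ring
    have hb2 : W.b₂ % 4 = 1 := by
      obtain ⟨i, hi⟩ : ∃ i : ℤ, W.a₁ = 2 * i + 1 := ⟨W.a₁ / 2, by omega⟩
      have : W.b₂ = 4 * (i ^ 2 + i + W.a₂) + 1 := by
        unfold WeierstrassCurve.b₂
        rw [hi]
        ring
      rw [this]
      omega
    obtain ⟨j, hj⟩ : ∃ j : ℤ, W.b₂ = 4 * j + 1 := ⟨W.b₂ / 4, by omega⟩
    rw [hj] at hor ⊢
    rcases Int.even_or_odd u with ⟨i, hi⟩ | ⟨i, hi⟩
    · exfalso
      have : u ^ 2 = 4 * i ^ 2 := by rw [hi]; ring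
      rw [this] at hor
      omega
    · have : u ^ 2 = 4 * (i ^ 2 + i) + 1 := by rw [hi]; ring
      rw [this] at hor ⊢
      omega

/-- the first type -/
theorem type1 {c s D u : ℤ} (hu : ¬ (3 : ℤ) ∣ u) (hrel : 1728 * D = c ^ 3 - s ^ 2)
    (h : (u ^ 2) ^ 4 - 6 * c * (u ^ 2) ^ 2 - 8 * s * u ^ 2 - 3 * c ^ 2 = 0) :
    ∃ v : ℤ, c = u * (u ^ 3 - 24 * v) ∧ s = -u ^ 6 + 36 * u ^ 3 * v - 216 * v ^ 2 ∧
      D = v ^ 3 * (u ^ 3 - 27 * v) := by
  have hu0 : u ≠ 0 := by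
    rintro rfl
    exact hu (dvd_zero _)
  obtain ⟨C, hC⟩ := dvd_c h (a := 1) (by ring) hu
  obtain ⟨m, hm⟩ : ∃ m : ℤ, C = u ^ 3 - m := ⟨u ^ 3 - C, by ring⟩
  subst hm
  subst hC
  have h8 : 8 * s = -8 * u ^ 6 + 12 * m * u ^ 3 - 3 * m ^ 2 := by
    have : u ^ 2 * (8 * s - (-8 * u ^ 6 + 12 * m * u ^ 3 - 3 * m ^ 2)) = 0 := by
      linear_combination -h
    have := (mul_eq_zero.1 this).resolve_left (pow_ne_zero 2 hu0)
    linarith
  have hD : 110592 * D = m ^ 3 * (8 * u ^ 3 - 9 * m) := by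
    have e1 : 64 * (1728 * D) = 64 * (u * (u ^ 3 - m)) ^ 3 - (8 * s) ^ 2 := by
      rw [hrel]
      ring
    rw [h8] at e1
    linear_combination e1
  -- m is divisible by four
  obtain ⟨m1, rfl⟩ : (2 : ℤ) ∣ m := by
    refine Int.prime_two.dvd_of_dvd_pow (n := 2) ?_
    have : 3 * m ^ 2 = 2 * (-4 * u ^ 6 + 6 * m * u ^ 3 - 4 * s) := by linarith
    omega
  obtain ⟨m2, rfl⟩ : (2 : ℤ) ∣ m1 := by
    refine Int.prime_two.dvd_of_dvd_pow (n := 2) ?_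
    have : 12 * m1 ^ 2 = 8 * (-u ^ 6 + 3 * (m1 * u ^ 3) - s) := by linear_combination h8
    omega
  have hD2 : 432 * D = m2 ^ 3 * (2 * u ^ 3 - 9 * m2) := by
    have : 256 * (432 * D) = 256 * (m2 ^ 3 * (2 * u ^ 3 - 9 * m2)) := by
      linear_combination hD
    omega
  obtain ⟨m3, rfl⟩ : (2 : ℤ) ∣ m2 := by
    have h5 : (2 : ℤ) ∣ m2 ^ 3 * (2 * u ^ 3 - 9 * m2) := ⟨216 * D, by linarith⟩
    rcases Int.prime_two.dvd_or_dvd h5 with h6 | h6
    · exact Int.prime_two.dvd_of_dvd_pow h6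
    · omega
  have hD3 : 27 * D = m3 ^ 3 * (u ^ 3 - 9 * m3) := by
    have : 16 * (27 * D) = 16 * (m3 ^ 3 * (u ^ 3 - 9 * m3)) := by
      linear_combination hD2
    omega
  obtain ⟨v, rfl⟩ : (3 : ℤ) ∣ m3 := by
    have h5 : (3 : ℤ) ∣ m3 ^ 3 * (u ^ 3 - 9 * m3) := ⟨9 * D, by linarith⟩
    rcases Int.prime_three.dvd_or_dvd h5 with h6 | h6
    · exact Int.prime_three.dvd_of_dvd_pow h6
    · exfalso
      apply hu
      refine Int.prime_three.dvd_of_dvd_pow (n := 3) ?_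
      omega
  refine ⟨v, by ring, ?_, ?_⟩
  · have : 8 * s = 8 * (-u ^ 6 + 36 * u ^ 3 * v - 216 * v ^ 2) := by
      rw [h8]
      ring
    omega
  · have : 27 * D = 27 * (v ^ 3 * (u ^ 3 - 27 * v)) := by
      rw [hD3]
      ring
    omega

/-- the second type -/
theorem type2 {c s D u : ℤ} (hu : ¬ (3 : ℤ) ∣ u) (hc3 : ¬ (3 : ℤ) ∣ c)
    (hrel : 1728 * D = c ^ 3 - s ^ 2)
    (h : (-3 * u ^ 2) ^ 4 - 6 * c * (-3 * u ^ 2) ^ 2 - 8 * s * (-3 * u ^ 2) - 3 * c ^ 2 = 0) :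
    ∃ v : ℤ, c = u * (u ^ 3 + 216 * v) ∧ s = -u ^ 6 + 540 * u ^ 3 * v + 5832 * v ^ 2 ∧
      D = v * (u ^ 3 - 27 * v) ^ 3 := by
  have hu0 : u ≠ 0 := by
    rintro rfl
    exact hu (dvd_zero _)
  obtain ⟨C, hC⟩ := dvd_c h (a := -3) (by ring) hu
  obtain ⟨m, hm⟩ : ∃ m : ℤ, C = u ^ 3 + m := ⟨C - u ^ 3, by ring⟩
  subst hm
  subst hC
  have h8 : 8 * s = -8 * u ^ 6 + 20 * m * u ^ 3 + m ^ 2 := by
    have : 3 * u ^ 2 * (8 * s - (-8 * u ^ 6 + 20 * m * u ^ 3 + m ^ 2)) = 0 := by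
      linear_combination h
    have := (mul_eq_zero.1 this).resolve_left (mul_ne_zero (by norm_num) (pow_ne_zero 2 hu0))
    linarith
  have hD : 110592 * D = m * (8 * u ^ 3 - m) ^ 3 := by
    have e1 : 64 * (1728 * D) = 64 * (u * (u ^ 3 + m)) ^ 3 - (8 * s) ^ 2 := by
      rw [hrel]
      ring
    rw [h8] at e1
    linear_combination e1
  obtain ⟨m1, rfl⟩ : (2 : ℤ) ∣ m := by
    refine Int.prime_two.dvd_of_dvd_pow (n := 2) ?_
    have : m ^ 2 = 2 * (4 * u ^ 6 - 10 * m * u ^ 3 + 4 * s) := by linarith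
    omega
  obtain ⟨m2, rfl⟩ : (2 : ℤ) ∣ m1 := by
    refine Int.prime_two.dvd_of_dvd_pow (n := 2) ?_
    have : 4 * m1 ^ 2 = 8 * (u ^ 6 - 5 * (m1 * u ^ 3) + s) := by linear_combination -h8
    omega
  have hD2 : 432 * D = m2 * (2 * u ^ 3 - m2) ^ 3 := by
    have : 256 * (432 * D) = 256 * (m2 * (2 * u ^ 3 - m2) ^ 3) := by
      linear_combination hD
    omega
  obtain ⟨m3, rfl⟩ : (2 : ℤ) ∣ m2 := by
    have h5 : (2 : ℤ) ∣ m2 * (2 * u ^ 3 - m2) ^ 3 := ⟨216 * D, by linarith⟩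
    rcases Int.prime_two.dvd_or_dvd h5 with h6 | h6
    · exact h6
    · have := Int.prime_two.dvd_of_dvd_pow h6
      omega
  have hD3 : 27 * D = m3 * (u ^ 3 - m3) ^ 3 := by
    have : 16 * (27 * D) = 16 * (m3 * (u ^ 3 - m3) ^ 3) := by
      linear_combination hD2
    omega
  have hcop : IsCoprime (27 : ℤ) ((u ^ 3 - m3) ^ 3) := by
    refine (cop27 ?_).pow_right
    intro h5
    apply hc3
    have e : u * (u ^ 3 + 2 * (2 * (2 * m3))) = u * (9 * u ^ 3 - 8 * (u ^ 3 - m3)) := by ring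
    rw [e]
    refine Dvd.dvd.mul_left ?_ _
    obtain ⟨j, hj⟩ := h5
    exact ⟨3 * u ^ 3 - 8 * j, by rw [hj]; ring⟩
  obtain ⟨v, rfl⟩ : (27 : ℤ) ∣ m3 := hcop.dvd_of_dvd_mul_right ⟨D, hD3.symm⟩
  refine ⟨v, by ring, ?_, ?_⟩
  · have : 8 * s = 8 * (-u ^ 6 + 540 * u ^ 3 * v + 5832 * v ^ 2) := by
      rw [h8]
      ring
    omega
  · have : 27 * D = 27 * (v * (u ^ 3 - 27 * v) ^ 3) := by
      rw [hD3]
      ring
    omega

/-- the pair attached to a curve, two types -/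
theorem exists_pair (W : WeierstrassCurve ℤ) (hΔ : W.Δ ≠ 0) (hc : IsCoprime W.c₄ W.Δ)
    (h : Three W) : ∃ q : ℤ × ℤ, ¬ (3 : ℤ) ∣ q.1 ∧ q.2 ≠ 0 ∧ gg q ≠ 0 ∧ IsCoprime q.1 q.2 ∧
      ((W.c₄ = q.1 * (q.1 ^ 3 - 24 * q.2) ∧
        W.c₆ = -q.1 ^ 6 + 36 * q.1 ^ 3 * q.2 - 216 * q.2 ^ 2 ∧ W.Δ = q.2 ^ 3 * gg q) ∨
      (W.c₄ = q.1 * (q.1 ^ 3 + 216 * q.2) ∧
        W.c₆ = -q.1 ^ 6 + 540 * q.1 ^ 3 * q.2 + 5832 * q.2 ^ 2 ∧ W.Δ = q.2 * gg q ^ 3)) := by
  obtain ⟨t, ht⟩ := exists_t W h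
  have h3c := c4_three W hc ht
  obtain ⟨u, hu, hor⟩ := sign_root W hc ht
  rcases hor with hz | hz
  · rw [hz] at ht
    obtain ⟨v, e4, e6, eD⟩ := type1 hu W.c_relation ht
    refine ⟨(u, v), hu, ?_, ?_, ?_, Or.inl ⟨e4, e6, by unfold gg; exact eD⟩⟩
    · simp only
      rintro rfl
      exact hΔ (by rw [eD]; ring)
    · unfold gg
      simp only
      intro h0
      exact hΔ (by rw [eD, h0, mul_zero])
    · simp only
      obtain ⟨x, y, hxy⟩ := hc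
      rw [e4, eD] at hxy
      exact ⟨x * (u ^ 3 - 24 * v), y * (v ^ 2 * (u ^ 3 - 27 * v)), by linear_combination hxy⟩
  · rw [hz] at ht
    obtain ⟨v, e4, e6, eD⟩ := type2 hu h3c W.c_relation ht
    refine ⟨(u, v), hu, ?_, ?_, ?_, Or.inr ⟨e4, e6, by unfold gg; exact eD⟩⟩
    · simp only
      rintro rfl
      exact hΔ (by rw [eD]; ring)
    · unfold gg
      simp only
      intro h0
      exact hΔ (by rw [eD, h0]; ring)
    · simp only
      obtain ⟨x, y, hxy⟩ := hc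
      rw [e4, eD] at hxy
      exact ⟨x * (u ^ 3 + 216 * v), y * (u ^ 3 - 27 * v) ^ 3, by linear_combination hxy⟩

end Pool.Agent.T2h91.TI
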