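import Pool.Agent.T2h91.TI.Pairs

/-!
# The counts of pairs in terms of the height
-/

set_option autoImplicit false

namespace Pool.Agent.T2h91.TI

open Finset
open Pool.Agent.H328R2.ABC (rad rad_pos)
open Pool.Agent.T2h82 (card_split)

/-- the pairs considered: conductor at most `X`, height at most about `X ^ (4 * τ)` -/
def Bd (τ X : ℝ) (q : ℤ × ℤ) : Prop :=
  Ad X q ∧ (q.2.natAbs : ℝ) ≤ 33 * X ^ τ ∧ ((gg q).natAbs : ℝ) ≤ 33 * X ^ τ

theorem HH_le_real {q : ℤ × ℤ} {Y : ℝ} (h1 : (q.2.natAbs : ℝ) ≤ Y) (h2 : ((gg q).natAbs : ℝ) ≤ Y) :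
    ((HH q : ℤ) : ℝ) ≤ 28 * Y := by
  have e2 := HH_le_max q
  have := max_le h1 h2
  linarith

/-- bounded `X` -/
theorem bd_small (τ X X₁ : ℝ) (hτ : τ ≤ 1) (hX : 1 ≤ X) (h : X ≤ X₁) (S : Finset (ℤ × ℤ))
    (hS : ∀ q ∈ S, Bd τ X q) : (S.card : ℝ) ≤ 18 * (924 * X₁) ^ (4 / 3 : ℝ) := by
  refine triv S (924 * X₁) (by linarith) (fun q hq => ?_)
  obtain ⟨-, h1, h2⟩ := hS q hq
  have h3 : X ^ τ ≤ X₁ := by
    calc X ^ τ ≤ X ^ (1 : ℝ) := Real.rpow_le_rpow_of_exponent_le hX hτ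
      _ = X := Real.rpow_one X
      _ ≤ X₁ := h
  have := HH_le_real h1 h2
  linarith

theorem pairs_total (τ : ℝ) (hτ : τ < 2 / 3) : ∃ C : ℝ, 0 < C ∧ ∀ X : ℝ, 1 ≤ X →
    ∀ S : Finset (ℤ × ℤ), (∀ q ∈ S, Bd τ X q) → (S.card : ℝ) ≤ C * X ^ (2 / 3 : ℝ) := by
  set δ : ℝ := (2 / 3 - τ) / 3 with hδ
  have hδ0 : 0 < δ := by rw [hδ]; linarith
  obtain ⟨C, hC, h⟩ := total δ hδ0
  set X₁ : ℝ := 33 ^ (1 / δ) with hX₁
  have hX11 : 1 < X₁ := Real.one_lt_rpow (by norm_num) (by positivity)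
  refine ⟨C + 18 * (924 * X₁) ^ (4 / 3 : ℝ), by positivity, ?_⟩
  intro X hX S hS
  have hX0 : 0 < X := by linarith
  have hX34 : 1 ≤ X ^ (2 / 3 : ℝ) := Real.one_le_rpow hX (by norm_num)
  have hp : 0 ≤ 18 * (924 * X₁) ^ (4 / 3 : ℝ) := by positivity
  rcases le_total X X₁ with hle | hle
  · have h1 := bd_small τ X X₁ (by linarith) hX hle S hS
    nlinarith [mul_nonneg hC.le (by linarith : 0 ≤ X ^ (2 / 3 : ℝ))]
  · have hX1 : 1 < X := by linarith
    have h11 : 33 * X ^ τ ≤ X ^ (2 / 3 - 2 * δ) := by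
      have e1 : (33 : ℝ) = X₁ ^ δ := by
        rw [hX₁, ← Real.rpow_mul (by norm_num), one_div, inv_mul_cancel₀ hδ0.ne', Real.rpow_one]
      calc 33 * X ^ τ = X₁ ^ δ * X ^ τ := by rw [← e1]
        _ ≤ X ^ δ * X ^ τ := by gcongr
        _ = X ^ (2 / 3 - 2 * δ) := by
            rw [← Real.rpow_add hX0]
            congr 1
            rw [hδ]
            ring
    have h2 := h X hX1 S (fun q hq => by
      obtain ⟨a1, a2, a3⟩ := hS q hq
      exact ⟨a1, by linarith, by linarith⟩)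
    nlinarith [mul_nonneg hp (by linarith : 0 ≤ X ^ (2 / 3 : ℝ))]

theorem pairs_tail (τ θ : ℝ) (hτ : τ < 2 / 3) (hθ0 : 0 < θ) (hθ1 : θ < 2 / 3) : ∃ η C : ℝ,
    0 < η ∧ 0 < C ∧ ∀ X K : ℝ, 1 ≤ X → 1 ≤ K → ∀ S : Finset (ℤ × ℤ), (∀ q ∈ S, Bd τ X q ∧
      K * X ^ (1 / 2 : ℝ) < HH q) →
      (S.card : ℝ) ≤ C * (K ^ (-θ) * X ^ (2 / 3 : ℝ) + X ^ (2 / 3 - η)) := by
  set δ : ℝ := (2 / 3 - τ) / 3 with hδ
  have hδ0 : 0 < δ := by rw [hδ]; linarith
  obtain ⟨η1, C, hη1, hC, h⟩ := tail (2 / 3 + θ / 2) δ (by linarith) (by linarith) hδ0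
  set X₁ : ℝ := 33 ^ (1 / δ) with hX₁
  have hX11 : 1 < X₁ := Real.one_lt_rpow (by norm_num) (by positivity)
  set η : ℝ := min η1 (2 / 3) with hη
  have hη0 : 0 < η := lt_min hη1 (by norm_num)
  refine ⟨η, C + 18 * (924 * X₁) ^ (4 / 3 : ℝ), hη0, by positivity, ?_⟩
  intro X K hX hK S hS
  have hX0 : 0 < X := by linarith
  have hX34 : 1 ≤ X ^ (2 / 3 - η) :=
    Real.one_le_rpow hX (by linarith [min_le_right η1 (2 / 3)])
  have hp : 0 ≤ 18 * (924 * X₁) ^ (4 / 3 : ℝ) := by positivity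
  have hm : 0 ≤ K ^ (-θ) * X ^ (2 / 3 : ℝ) := by positivity
  rcases le_total X X₁ with hle | hle
  · have h1 := bd_small τ X X₁ (by linarith) hX hle S (fun q hq => (hS q hq).1)
    nlinarith [mul_nonneg hC.le hm, mul_nonneg hC.le (by linarith : 0 ≤ X ^ (2 / 3 - η)),
      mul_nonneg hp hm]
  · have hX1 : 1 < X := by linarith
    have h11 : 33 * X ^ τ ≤ X ^ (2 / 3 - 2 * δ) := by
      have e1 : (33 : ℝ) = X₁ ^ δ := by
        rw [hX₁, ← Real.rpow_mul (by norm_num), one_div, inv_mul_cancel₀ hδ0.ne', Real.rpow_one]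
      calc 33 * X ^ τ = X₁ ^ δ * X ^ τ := by rw [← e1]
        _ ≤ X ^ δ * X ^ τ := by gcongr
        _ = X ^ (2 / 3 - 2 * δ) := by
            rw [← Real.rpow_add hX0]
            congr 1
            rw [hδ]
            ring
    have h2 := h X K hX1 hK S (fun q hq => by
      obtain ⟨⟨a1, a2, a3⟩, a4⟩ := hS q hq
      exact ⟨a1, a4, by linarith, by linarith⟩)
    have e2 : (4 / 3 - 2 * (2 / 3 + θ / 2)) = -θ := by ring
    rw [e2] at h2
    have e3 : X ^ (2 / 3 - η1) ≤ X ^ (2 / 3 - η) :=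
      Real.rpow_le_rpow_of_exponent_le hX (by linarith [min_le_left η1 (2 / 3)])
    have e4 : C * (K ^ (-θ) * X ^ (2 / 3 : ℝ) + X ^ (2 / 3 - η1)) ≤
        C * (K ^ (-θ) * X ^ (2 / 3 : ℝ) + X ^ (2 / 3 - η)) := by gcongr
    nlinarith [mul_nonneg hp (by linarith : 0 ≤ K ^ (-θ) * X ^ (2 / 3 : ℝ) + X ^ (2 / 3 - η))]

/-- the pairs of conductor `N ≤ X` with an entry smaller than `N ^ (1 / 2 - δ)` or of size larger
than `N ^ (1 / 2 + δ)` -/
theorem pairs_exc (τ δ : ℝ) (hτ0 : 0 < τ) (hτ : τ < 2 / 3) (hδ : 0 < δ) : ∃ η C : ℝ, 0 < η ∧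
    0 < C ∧ ∀ X : ℝ, 1 ≤ X → ∀ S : Finset (ℤ × ℤ),
      (∀ q ∈ S, Bd τ X q ∧ ∃ N : ℝ, 1 ≤ N ∧ N ≤ X ∧ Ad N q ∧
        ((q.2.natAbs : ℝ) < N ^ (1 / 2 - δ) ∨ ((gg q).natAbs : ℝ) < N ^ (1 / 2 - δ) ∨
          N ^ (1 / 2 + δ) < 80 * HH q)) →
      (S.card : ℝ) ≤ C * X ^ (2 / 3 - η) := by
  classical
  set d : ℝ := min δ (1 / 4) with hd
  have hd0 : 0 < d := lt_min hδ (by norm_num)
  have hd4 : d ≤ 1 / 4 := min_le_right _ _
  have hdδ : d ≤ δ := min_le_left _ _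
  set μ : ℝ := min (d / 2) ((2 / 3 - τ) / 2) with hμ
  have hμ0 : 0 < μ := lt_min (by linarith) (by linarith)
  have hμd : μ ≤ d / 2 := min_le_left _ _
  have hμτ : μ ≤ (2 / 3 - τ) / 2 := min_le_right _ _
  have hμ1 : 0 < 1 - μ := by linarith
  set τ' : ℝ := τ / (1 - μ) with hτ'
  have hτ'1 : τ' < 2 / 3 := by
    rw [hτ', div_lt_iff₀ hμ1]
    linarith
  obtain ⟨C1, hC1, h1⟩ := pairs_total τ' hτ'1
  obtain ⟨η2, C2, hη2, hC2, h2⟩ := pairs_tail τ (1 / 4) hτ (by norm_num) (by norm_num)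
  set X₁ : ℝ := 80 ^ (4 / d) with hX₁
  have hX11 : 1 < X₁ := Real.one_lt_rpow (by norm_num) (by positivity)
  set η : ℝ := min (min (2 / 3 * μ) η2) (d / 16) with hη
  have hη0 : 0 < η := lt_min (lt_min (by positivity) hη2) (by positivity)
  have hηa : η ≤ 2 / 3 * μ := (min_le_left _ _).trans (min_le_left _ _)
  have hηb : η ≤ η2 := (min_le_left _ _).trans (min_le_right _ _)
  have hηc : η ≤ d / 16 := min_le_right _ _
  refine ⟨η, 18 * (924 * X₁) ^ (4 / 3 : ℝ) + C1 + 18 + 2 * C2, hη0, by positivity, ?_⟩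
  intro X hX S hS
  have hX0 : 0 < X := by linarith
  have hX34 : 1 ≤ X ^ (2 / 3 - η) := Real.one_le_rpow hX (by linarith)
  have hp : 0 ≤ 18 * (924 * X₁) ^ (4 / 3 : ℝ) := by positivity
  rcases le_total X X₁ with hle | hle
  · have h3 := bd_small τ X X₁ (by linarith) hX hle S (fun q hq => (hS q hq).1)
    nlinarith
  set p1 : ℤ × ℤ → Prop := fun q => Ad (X ^ (1 - μ)) q with hp1
  set p2 : ℤ × ℤ → Prop := fun q => ((HH q : ℤ) : ℝ) ≤ X ^ (1 / 2 + d / 4) with hp2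
  have s1 := card_split S p1
  have s2 := card_split (S.filter (fun q => ¬ p1 q)) p2
  -- first part
  have c1 : ((S.filter p1).card : ℝ) ≤ C1 * X ^ (2 / 3 - η) := by
    have e1 := h1 (X ^ (1 - μ)) (Real.one_le_rpow hX hμ1.le) (S.filter p1) (fun q hq => by
      rw [mem_filter] at hq
      obtain ⟨⟨a1, a2, a3⟩, -⟩ := hS q hq.1
      have e : (X ^ (1 - μ)) ^ τ' = X ^ τ := by
        rw [← Real.rpow_mul hX0.le, hτ', mul_div_cancel₀ _ hμ1.ne']
      exact ⟨hq.2, by rw [e]; exact a2, by rw [e]; exact a3⟩)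
    rw [← Real.rpow_mul hX0.le] at e1
    have e2 : X ^ ((1 - μ) * (2 / 3)) ≤ X ^ (2 / 3 - η) :=
      Real.rpow_le_rpow_of_exponent_le hX (by linarith)
    exact e1.trans (by gcongr)
  -- the conductor of the others is large
  have big : ∀ q ∈ S.filter (fun q => ¬ p1 q), Bd τ X q ∧
      ((q.2.natAbs : ℝ) ≤ X ^ (1 / 2 - d) ∨ ((gg q).natAbs : ℝ) ≤ X ^ (1 / 2 - d) ∨
        X ^ (1 / 2 + d / 4) < HH q) := by
    intro q hq
    rw [mem_filter] at hq
    obtain ⟨hb, N, hN1, hNX, haN, hor⟩ := hS q hq.1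
    have hN0 : 0 < N := by linarith
    have hNb : X ^ (1 - μ) < N := by
      by_contra hcon
      push Not at hcon
      exact hq.2 ⟨haN.n3, haN.n0, haN.g0, haN.cop, haN.rad_le.trans hcon⟩
    refine ⟨hb, ?_⟩
    have g1 : N ^ (1 / 2 - δ) ≤ X ^ (1 / 2 - d) := by
      calc N ^ (1 / 2 - δ) ≤ N ^ (1 / 2 - d) :=
            Real.rpow_le_rpow_of_exponent_le hN1 (by linarith)
        _ ≤ X ^ (1 / 2 - d) := Real.rpow_le_rpow hN0.le hNX (by linarith)
    rcases hor with h | h | h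
    · left; linarith
    · right; left; linarith
    · right; right
      have g2 : X ^ (1 / 2 + d / 2) ≤ N ^ (1 / 2 + δ) := by
        calc X ^ (1 / 2 + d / 2) ≤ X ^ ((1 - μ) * (1 / 2 + d)) := by
              refine Real.rpow_le_rpow_of_exponent_le hX ?_
              nlinarith
          _ = (X ^ (1 - μ)) ^ (1 / 2 + d) := by rw [Real.rpow_mul hX0.le]
          _ ≤ N ^ (1 / 2 + d) := Real.rpow_le_rpow (by positivity) hNb.le (by linarith)
          _ ≤ N ^ (1 / 2 + δ) := Real.rpow_le_rpow_of_exponent_le hN1 (by linarith)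
      have g3 : 80 * X ^ (1 / 2 + d / 4) ≤ X ^ (1 / 2 + d / 2) := by
        have e1 : (80 : ℝ) = X₁ ^ (d / 4) := by
          rw [hX₁, ← Real.rpow_mul (by norm_num)]
          have : 4 / d * (d / 4) = 1 := by field_simp
          rw [this, Real.rpow_one]
        calc 80 * X ^ (1 / 2 + d / 4) = X₁ ^ (d / 4) * X ^ (1 / 2 + d / 4) := by rw [← e1]
          _ ≤ X ^ (d / 4) * X ^ (1 / 2 + d / 4) := by gcongr
          _ = X ^ (1 / 2 + d / 2) := by
              rw [← Real.rpow_add hX0]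
              congr 1
              ring
      linarith
  -- small size
  have c2 : (((S.filter (fun q => ¬ p1 q)).filter p2).card : ℝ) ≤ 18 * X ^ (2 / 3 - η) := by
    have e1 := small ((S.filter (fun q => ¬ p1 q)).filter p2) (X ^ (1 / 2 + d / 4))
      (X ^ (1 / 2 - d)) (Real.one_le_rpow hX (by linarith)) (by positivity) (fun q hq => by
        rw [mem_filter] at hq
        obtain ⟨-, hor⟩ := big q hq.1
        refine ⟨hq.2, ?_⟩
        rcases hor with h | h | h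
        · exact Or.inl h
        · exact Or.inr h
        · exact absurd h (not_lt.2 hq.2))
    have e2 : (X ^ (1 / 2 + d / 4)) ^ (1 / 3 : ℝ) = X ^ (1 / 6 + d / 12) := by
      rw [← Real.rpow_mul hX0.le]
      congr 1
      ring
    have e3 : 1 ≤ X ^ (1 / 2 - d) := Real.one_le_rpow hX (by linarith)
    rw [e2] at e1
    calc (((S.filter (fun q => ¬ p1 q)).filter p2).card : ℝ)
        ≤ 3 * X ^ (1 / 6 + d / 12) * (4 * X ^ (1 / 2 - d) + 2) := e1
      _ ≤ 3 * X ^ (1 / 6 + d / 12) * (6 * X ^ (1 / 2 - d)) := by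
          gcongr
          linarith
      _ = 18 * (X ^ (1 / 6 + d / 12) * X ^ (1 / 2 - d)) := by ring
      _ = 18 * X ^ ((1 / 6 + d / 12) + (1 / 2 - d)) := by rw [← Real.rpow_add hX0]
      _ ≤ 18 * X ^ (2 / 3 - η) := by
          have : X ^ ((1 / 6 + d / 12) + (1 / 2 - d)) ≤ X ^ (2 / 3 - η) :=
            Real.rpow_le_rpow_of_exponent_le hX (by linarith)
          linarith
  have c3 : (((S.filter (fun q => ¬ p1 q)).filter (fun q => ¬ p2 q)).card : ℝ) ≤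
      2 * C2 * X ^ (2 / 3 - η) := by
    have e1 := h2 X (X ^ (d / 4)) hX (Real.one_le_rpow hX (by positivity))
      ((S.filter (fun q => ¬ p1 q)).filter (fun q => ¬ p2 q)) (fun q hq => by
        rw [mem_filter] at hq
        refine ⟨(big q hq.1).1, ?_⟩
        have := not_le.1 hq.2
        rw [← Real.rpow_add hX0]
        have e : d / 4 + 1 / 2 = 1 / 2 + d / 4 := by ring
        rw [e]
        exact this)
    have e2 : (X ^ (d / 4)) ^ (-(1 / 4) : ℝ) * X ^ (2 / 3 : ℝ) ≤ X ^ (2 / 3 - η) := by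
      rw [← Real.rpow_mul hX0.le, ← Real.rpow_add hX0]
      refine Real.rpow_le_rpow_of_exponent_le hX ?_
      linarith
    have e3 : X ^ (2 / 3 - η2) ≤ X ^ (2 / 3 - η) :=
      Real.rpow_le_rpow_of_exponent_le hX (by linarith)
    calc (((S.filter (fun q => ¬ p1 q)).filter (fun q => ¬ p2 q)).card : ℝ)
        ≤ C2 * ((X ^ (d / 4)) ^ (-(1 / 4) : ℝ) * X ^ (2 / 3 : ℝ) + X ^ (2 / 3 - η2)) := e1
      _ ≤ C2 * (X ^ (2 / 3 - η) + X ^ (2 / 3 - η)) := by gcongr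
      _ = _ := by ring
  have hX34' : 0 ≤ X ^ (2 / 3 - η) := by linarith
  rw [s1, s2]
  nlinarith [mul_nonneg hp hX34']

end Pool.Agent.T2h91.TI
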