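import Pool.Agent.T2h91.TI.Alg2
import Pool.Agent.T2h91.TI.Pairs2
import Pool.Agent.T2h82.Curve

/-!
# From curves to pairs
-/

set_option autoImplicit false

namespace Pool.Agent.T2h91.TI

open Finset
open Pool.Agent.H328R2.ABC (rad rad_pos)
open Pool.Agent.T2h82 (cond ht rad_mul_pow)

/-- the invariants of the first kind -/
def g1 (q : ℤ × ℤ) : ℤ × ℤ :=
  (q.1 * (q.1 ^ 3 - 24 * q.2), -q.1 ^ 6 + 36 * q.1 ^ 3 * q.2 - 216 * q.2 ^ 2)

/-- the invariants of the second kind -/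
def g2 (q : ℤ × ℤ) : ℤ × ℤ :=
  (q.1 * (q.1 ^ 3 + 216 * q.2), -q.1 ^ 6 + 540 * q.1 ^ 3 * q.2 + 5832 * q.2 ^ 2)

theorem root_bound {z c4 c6 W : ℝ} (hW : 0 ≤ W) (h4 : |c4| ≤ W ^ 2) (h6 : |c6| ≤ W ^ 3)
    (h : z ^ 4 - 6 * c4 * z ^ 2 - 8 * c6 * z - 3 * c4 ^ 2 = 0) : |z| ≤ 3 * W := by
  by_contra hcon
  push Not at hcon
  set B := |z| with hB
  have hB0 : 0 ≤ B := abs_nonneg z
  have h1 : B ^ 4 ≤ 6 * W ^ 2 * B ^ 2 + 8 * W ^ 3 * B + 3 * (W ^ 2) ^ 2 := by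
    have e1 : z ^ 4 = 6 * c4 * z ^ 2 + 8 * c6 * z + 3 * c4 ^ 2 := by linarith
    calc B ^ 4 = |z ^ 4| := by rw [abs_pow]
      _ = |6 * c4 * z ^ 2 + 8 * c6 * z + 3 * c4 ^ 2| := by rw [e1]
      _ ≤ |6 * c4 * z ^ 2 + 8 * c6 * z| + |3 * c4 ^ 2| := abs_add_le _ _
      _ ≤ |6 * c4 * z ^ 2| + |8 * c6 * z| + |3 * c4 ^ 2| := by
          have := abs_add_le (6 * c4 * z ^ 2) (8 * c6 * z)
          linarith
      _ = 6 * |c4| * B ^ 2 + 8 * |c6| * B + 3 * |c4| ^ 2 := by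
          rw [abs_mul, abs_mul, abs_mul, abs_mul, abs_mul, abs_pow, abs_pow,
            abs_of_pos (by norm_num : (0 : ℝ) < 6), abs_of_pos (by norm_num : (0 : ℝ) < 8),
            abs_of_pos (by norm_num : (0 : ℝ) < 3)]
      _ ≤ _ := by gcongr
  have h2 : 0 < (B - 3 * W) * (B + W) ^ 3 := by
    have : 0 < B - 3 * W := by linarith
    have : 0 < B + W := by linarith
    positivity
  nlinarith

/-- all the facts on a curve -/
theorem curve (W : WeierstrassCurve ℤ) (hΔ : W.Δ ≠ 0) (hc : IsCoprime W.c₄ W.Δ)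
    (h : Three W) : ∃ q : ℤ × ℤ, ((W.c₄, W.c₆) = g1 q ∨ (W.c₄, W.c₆) = g2 q) ∧
      Ad (cond W) q ∧
      (∀ Y : ℝ, 0 ≤ Y → ((ht W : ℤ) : ℝ) ≤ Y ^ 12 →
        (q.2.natAbs : ℝ) ≤ 33 * Y ^ 3 ∧ ((gg q).natAbs : ℝ) ≤ 33 * Y ^ 3) ∧
      ((ht W : ℤ) : ℝ) ≤ (80 * HH q) ^ 4 ∧
      (∀ Y : ℝ, 0 ≤ Y → |(W.Δ : ℝ)| < Y ^ 4 →
        (q.2.natAbs : ℝ) < Y ∨ ((gg q).natAbs : ℝ) < Y) := by
  obtain ⟨q, h3, hn0, hf0, hcop, hor⟩ := exists_pair W hΔ hc h
  have hadm0 : Ad ((rad q.2.natAbs : ℝ) * rad (gg q).natAbs) q := ⟨h3, hn0, hf0, hcop, le_rfl⟩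
  have hcopn : Nat.Coprime q.2.natAbs (gg q).natAbs := Int.isCoprime_iff_gcd_eq_one.1 hadm0.cop_ng
  have hnn : (1 : ℝ) ≤ (q.2.natAbs : ℝ) := by
    exact_mod_cast (by omega : 1 ≤ q.2.natAbs)
  have hb4 : ∀ Y : ℝ, 0 ≤ Y → ((ht W : ℤ) : ℝ) ≤ Y ^ 12 →
      |(W.c₄ : ℝ)| ≤ (Y ^ 2) ^ 2 ∧ |(W.c₆ : ℝ)| ≤ (Y ^ 2) ^ 3 := by
    intro Y hY hht
    have e1 : |W.c₄| ^ 3 ≤ ht W := le_max_left _ _
    have e2 : W.c₆ ^ 2 ≤ ht W := le_max_right _ _
    have e1' : ((|W.c₄| ^ 3 : ℤ) : ℝ) ≤ ((ht W : ℤ) : ℝ) := by exact_mod_cast e1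
    have e2' : ((W.c₆ ^ 2 : ℤ) : ℝ) ≤ ((ht W : ℤ) : ℝ) := by exact_mod_cast e2
    push_cast at e1' e2'
    constructor
    · refine le_of_pow_le_pow_left₀ (n := 3) (by norm_num) (by positivity) ?_
      calc |(W.c₄ : ℝ)| ^ 3 ≤ Y ^ 12 := e1'.trans hht
        _ = _ := by ring
    · refine le_of_pow_le_pow_left₀ (n := 2) (by norm_num) (by positivity) ?_
      rw [sq_abs]
      calc (W.c₆ : ℝ) ^ 2 ≤ Y ^ 12 := e2'.trans hht
        _ = _ := by ring
  have hgg : ((gg q : ℤ) : ℝ) = (q.1 : ℝ) ^ 3 - 27 * q.2 := by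
    unfold gg
    push_cast
    ring
  have hnabs : (q.2.natAbs : ℝ) = |(q.2 : ℝ)| := by
    rw [Nat.cast_natAbs]
    push_cast
    rfl
  have hfabs : ((gg q).natAbs : ℝ) = |(q.1 : ℝ) ^ 3 - 27 * q.2| := by
    rw [Nat.cast_natAbs]
    push_cast
    rw [hgg]
  have hH1' : |(q.1 : ℝ) ^ 3| ≤ HH q := by
    rw [abs_pow]
    exact cube_le_HH q
  have hH2' : |(q.2 : ℝ)| ≤ HH q := by
    have := n_le_HH q
    rwa [hnabs] at this
  have hH0' : (1 : ℝ) ≤ HH q := by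
    have := n_le_HH q
    linarith
  set H : ℝ := ((HH q : ℤ) : ℝ) with hH
  set a : ℝ := (q.1 : ℝ) with ha
  set n : ℝ := (q.2 : ℝ) with hn
  have hna := abs_le.1 hH2'
  have hAa := abs_le.1 hH1'
  -- from the bounds for the square of the first coordinate
  have hfinal : ∀ Y : ℝ, 0 ≤ Y → (a ^ 3) ^ 2 ≤ 36 * Y ^ 6 → n ^ 2 ≤ Y ^ 6 →
      (q.2.natAbs : ℝ) ≤ 33 * Y ^ 3 ∧ ((gg q).natAbs : ℝ) ≤ 33 * Y ^ 3 := by
    intro Y hY k1 k2
    have hY3 : 0 ≤ Y ^ 3 := by positivity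
    have k3 : |n| ≤ Y ^ 3 := by
      refine abs_le_of_sq_le_sq ?_ hY3
      calc n ^ 2 ≤ Y ^ 6 := k2
        _ = _ := by ring
    have k4 : |a ^ 3| ≤ 6 * Y ^ 3 := by
      refine abs_le_of_sq_le_sq ?_ (by positivity)
      calc (a ^ 3) ^ 2 ≤ 36 * Y ^ 6 := k1
        _ = _ := by ring
    rw [hnabs, hfabs]
    have k5 := abs_le.1 k3
    have k6 := abs_le.1 k4
    constructor
    · linarith
    · rw [abs_le]
      constructor <;> linarith
  have hcube : ∀ x : ℝ, |x| ≤ 217 * H → |a * x| ^ 3 ≤ (80 * H) ^ 4 := by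
    intro x hx
    rw [abs_mul, mul_pow]
    have e1 : |a| ^ 3 ≤ H := by rw [← abs_pow]; exact hH1'
    calc |a| ^ 3 * |x| ^ 3 ≤ H * (217 * H) ^ 3 := by gcongr
      _ = 10218313 * H ^ 4 := by ring
      _ ≤ 40960000 * H ^ 4 := by
          have : 0 ≤ H ^ 4 := by positivity
          linarith
      _ = _ := by ring
  have hsq : ∀ x : ℝ, |x| ≤ 6373 * H ^ 2 → x ^ 2 ≤ (80 * H) ^ 4 := by
    intro x hx
    rw [← sq_abs]
    calc |x| ^ 2 ≤ (6373 * H ^ 2) ^ 2 := by gcongr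
      _ = 40615129 * H ^ 4 := by ring
      _ ≤ 40960000 * H ^ 4 := by
          have : 0 ≤ H ^ 4 := by positivity
          linarith
      _ = _ := by ring
  have hAn : |a ^ 3 * n| ≤ H ^ 2 := by
    rw [abs_mul, sq]
    gcongr
  have hAA : (a ^ 3) ^ 2 ≤ H ^ 2 := sq_le_sq' hAa.1 hAa.2
  have hNN : n ^ 2 ≤ H ^ 2 := sq_le_sq' hna.1 hna.2
  have hAn' := abs_le.1 hAn
  have hAA0 : 0 ≤ (a ^ 3) ^ 2 := sq_nonneg _
  have hNN0 : 0 ≤ n ^ 2 := sq_nonneg _
  rcases hor with ⟨e4, e6, eD⟩ | ⟨e4, e6, eD⟩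
  · have e4' : (W.c₄ : ℝ) = a * (a ^ 3 - 24 * n) := by rw [e4]; push_cast; ring
    have e6' : (W.c₆ : ℝ) = -(a ^ 3) ^ 2 + 36 * (a ^ 3 * n) - 216 * n ^ 2 := by
      rw [e6]; push_cast; ring
    have hcond : (cond W : ℝ) = (rad q.2.natAbs : ℝ) * rad (gg q).natAbs := by
      unfold Pool.Agent.T2h82.cond
      rw [eD, Int.natAbs_mul, Int.natAbs_pow]
      have := rad_mul_pow (m := q.2.natAbs) (n := (gg q).natAbs) (by omega) (by omega) 3 1
        (by norm_num) (by norm_num) hcopn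
      rw [pow_one] at this
      rw [this]
      push_cast
      rfl
    refine ⟨q, Or.inl (by rw [e4, e6]; rfl), by rw [hcond]; exact hadm0, ?_, ?_, ?_⟩
    · intro Y hY hht
      obtain ⟨k4, k6⟩ := hb4 Y hY hht
      have hz := root_bound (z := a ^ 2) (by positivity) k4 k6 (by rw [e4', e6']; ring)
      rw [abs_of_nonneg (sq_nonneg a)] at hz
      have hA : (a ^ 3) ^ 2 ≤ 27 * Y ^ 6 := by
        calc (a ^ 3) ^ 2 = (a ^ 2) ^ 3 := by ring
          _ ≤ (3 * Y ^ 2) ^ 3 := pow_le_pow_left₀ (sq_nonneg a) hz 3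
          _ = _ := by ring
      have hY6 : (Y ^ 2) ^ 3 = Y ^ 6 := by ring
      rw [hY6, e6'] at k6
      have hY60 : 0 ≤ Y ^ 6 := by positivity
      refine hfinal Y hY (by linarith) ?_
      have k7 := (abs_le.1 k6).1
      nlinarith [sq_nonneg (n - a ^ 3 / 6)]
    · unfold ht
      push_cast
      refine max_le ?_ ?_
      · rw [e4']
        refine hcube _ ?_
        rw [abs_le]
        constructor <;> linarith
      · refine hsq _ ?_
        rw [e6', abs_le]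
        constructor <;> linarith
    · intro Y hY hD
      by_contra hcon
      push Not at hcon
      have h1 : |(W.Δ : ℝ)| = (q.2.natAbs : ℝ) ^ 3 * ((gg q).natAbs : ℝ) := by
        rw [eD, hnabs, Nat.cast_natAbs]
        push_cast
        rw [abs_mul, abs_pow]
      rw [h1] at hD
      have h2 : Y ^ 4 ≤ (q.2.natAbs : ℝ) ^ 3 * ((gg q).natAbs : ℝ) := by
        calc Y ^ 4 = Y ^ 3 * Y := by ring
          _ ≤ _ := by
            apply mul_le_mul
            · exact pow_le_pow_left₀ hY hcon.1 3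
            · exact hcon.2
            · exact hY
            · positivity
      linarith
  · have e4' : (W.c₄ : ℝ) = a * (a ^ 3 + 216 * n) := by rw [e4]; push_cast; ring
    have e6' : (W.c₆ : ℝ) = -(a ^ 3) ^ 2 + 540 * (a ^ 3 * n) + 5832 * n ^ 2 := by
      rw [e6]; push_cast; ring
    have hcond : (cond W : ℝ) = (rad q.2.natAbs : ℝ) * rad (gg q).natAbs := by
      unfold Pool.Agent.T2h82.cond
      rw [eD, Int.natAbs_mul, Int.natAbs_pow]
      have := rad_mul_pow (m := q.2.natAbs) (n := (gg q).natAbs) (by omega) (by omega) 1 3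
        (by norm_num) (by norm_num) hcopn
      rw [pow_one] at this
      rw [this]
      push_cast
      rfl
    refine ⟨q, Or.inr (by rw [e4, e6]; rfl), by rw [hcond]; exact hadm0, ?_, ?_, ?_⟩
    · intro Y hY hht
      obtain ⟨k4, k6⟩ := hb4 Y hY hht
      have hz := root_bound (z := -3 * a ^ 2) (by positivity) k4 k6 (by rw [e4', e6']; ring)
      have hz' : a ^ 2 ≤ Y ^ 2 := by
        have := (abs_le.1 hz).1
        linarith
      have hA : (a ^ 3) ^ 2 ≤ Y ^ 6 := by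
        calc (a ^ 3) ^ 2 = (a ^ 2) ^ 3 := by ring
          _ ≤ (Y ^ 2) ^ 3 := pow_le_pow_left₀ (sq_nonneg a) hz' 3
          _ = _ := by ring
      have hY6 : (Y ^ 2) ^ 3 = Y ^ 6 := by ring
      rw [hY6, e6'] at k6
      have hY60 : 0 ≤ Y ^ 6 := by positivity
      refine hfinal Y hY (by linarith) ?_
      have k7 := (abs_le.1 k6).2
      nlinarith [sq_nonneg (54 * n + 5 * a ^ 3)]
    · unfold ht
      push_cast
      refine max_le ?_ ?_
      · rw [e4']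
        refine hcube _ ?_
        rw [abs_le]
        constructor <;> linarith
      · refine hsq _ ?_
        rw [e6', abs_le]
        constructor <;> linarith
    · intro Y hY hD
      by_contra hcon
      push Not at hcon
      have h1 : |(W.Δ : ℝ)| = (q.2.natAbs : ℝ) * ((gg q).natAbs : ℝ) ^ 3 := by
        rw [eD, hnabs, Nat.cast_natAbs]
        push_cast
        rw [abs_mul, abs_pow]
      rw [h1] at hD
      have h2 : Y ^ 4 ≤ (q.2.natAbs : ℝ) * ((gg q).natAbs : ℝ) ^ 3 := by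
        calc Y ^ 4 = Y * Y ^ 3 := by ring
          _ ≤ _ := by
            apply mul_le_mul
            · exact hcon.1
            · exact pow_le_pow_left₀ hY hcon.2 3
            · positivity
            · positivity
      linarith

end Pool.Agent.T2h91.TI
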