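import Pool.Agent.T2h82.Rankin

/-!
# Counting the solutions of `a ^ 3 = μ u + ν v` by the powerful part of `u` and by `v`
-/

set_option autoImplicit false

namespace Pool.Agent.T2h91.TI

open Finset
open Pool.Agent.H328R2.ABC (rad rad_pos roots)
open Pool.Agent.T2h82 (pw pw_pos pw_dvd card_rad_le count_two unit_of_cop radSet mem_radSet
  card_radSet card_le_mul_card_image_real card_class)

theorem exists_cbrt (c : ℝ) : ∃ c0 : ℝ, c0 ^ 3 = c := by
  rcases le_total 0 c with h | h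
  · refine ⟨c ^ (1 / 3 : ℝ), ?_⟩
    rw [← Real.rpow_natCast, ← Real.rpow_mul h]
    norm_num
  · refine ⟨-((-c) ^ (1 / 3 : ℝ)), ?_⟩
    have h1 : ((-c) ^ (1 / 3 : ℝ)) ^ 3 = -c := by
      rw [← Real.rpow_natCast, ← Real.rpow_mul (by linarith)]
      norm_num
    linear_combination -h1

/-- the interval containing `x` if `x ^ 3` is near `c` -/
theorem cube_window (c M A : ℝ) (hM : 0 < M) (hA : 0 < A) (h : A ^ 3 ≤ max |c| M) :
    ∃ x0 : ℝ, ∀ x : ℝ, |x ^ 3 - c| ≤ M → x0 ≤ x ∧ x ≤ x0 + 4 * M / A ^ 2 := by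
  have hL : 4 * M / A ^ 2 = 2 * M / A ^ 2 + 2 * M / A ^ 2 := by ring
  rcases le_total M |c| with h1 | h1
  · rw [max_eq_left h1] at h
    obtain ⟨c0, hc0⟩ := exists_cbrt c
    have h2 : A ≤ |c0| := by
      refine le_of_pow_le_pow_left₀ (n := 3) (by norm_num) (abs_nonneg _) ?_
      rw [← abs_pow, hc0]
      exact h
    refine ⟨c0 - 2 * M / A ^ 2, fun x hx => ?_⟩
    have h3 : |x - c0| * (3 / 4 * A ^ 2) ≤ M := by
      have e1 : (x - c0) * (x ^ 2 + x * c0 + c0 ^ 2) = x ^ 3 - c := by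
        rw [← hc0]
        ring
      have e2 : 3 / 4 * A ^ 2 ≤ x ^ 2 + x * c0 + c0 ^ 2 := by
        have e3 : A ^ 2 ≤ c0 ^ 2 := by
          rw [← sq_abs c0]
          exact pow_le_pow_left₀ hA.le h2 2
        nlinarith [sq_nonneg (x + c0 / 2)]
      calc |x - c0| * (3 / 4 * A ^ 2) ≤ |x - c0| * (x ^ 2 + x * c0 + c0 ^ 2) := by gcongr
        _ = |x - c0| * |x ^ 2 + x * c0 + c0 ^ 2| := by
            rw [abs_of_nonneg (a := x ^ 2 + x * c0 + c0 ^ 2)]
            have : 0 < A ^ 2 := by positivity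
            linarith
        _ = |x ^ 3 - c| := by rw [← abs_mul, e1]
        _ ≤ M := hx
    have h4 : |x - c0| ≤ 2 * M / A ^ 2 := by
      rw [le_div_iff₀ (by positivity)]
      have : 0 ≤ |x - c0| * A ^ 2 := by positivity
      linarith
    rw [abs_le] at h4
    rw [hL]
    constructor
    · linarith [h4.1]
    · linarith [h4.2]
  · rw [max_eq_right h1] at h
    refine ⟨-(2 * M / A ^ 2), fun x hx => ?_⟩
    have h2 : |x| ^ 3 ≤ 2 * M := by
      rw [← abs_pow]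
      have := abs_sub_abs_le_abs_sub (x ^ 3) c
      linarith
    have h3 : |x| ≤ 2 * M / A ^ 2 := by
      refine le_of_pow_le_pow_left₀ (n := 3) (by norm_num) (by positivity) (h2.trans ?_)
      have e1 : (2 * M / A ^ 2) ^ 3 = 8 * M ^ 3 / (A ^ 3) ^ 2 := by
        rw [div_pow]
        ring
      rw [e1, le_div_iff₀ (by positivity)]
      have e2 : (A ^ 3) ^ 2 ≤ M ^ 2 := pow_le_pow_left₀ (by positivity) h 2
      calc 2 * M * (A ^ 3) ^ 2 ≤ 2 * M * M ^ 2 := by gcongr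
        _ ≤ 8 * M ^ 3 := by
            have : 0 < M ^ 3 := by positivity
            linarith
    rw [abs_le] at h3
    rw [hL]
    constructor
    · linarith [h3.1]
    · linarith [h3.2]

/-- the equation, with the coprimality used -/
def Sol3 (μ ν : ℤ) (M : ℕ) (t : ℤ × ℤ × ℤ) : Prop :=
  t.1 ^ 3 = μ * t.2.1 + ν * t.2.2 ∧ t.2.1 ≠ 0 ∧ t.2.2 ≠ 0 ∧
    IsCoprime (ν * t.2.2) (pw t.2.1.natAbs : ℤ) ∧ t.2.1.natAbs ≤ M ∧ t.2.2.natAbs ≤ M

theorem modEq_cube_unit {w : ℕ} {c a : ℤ} (h : ((w : ℤ)) ∣ a ^ 3 - c) :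
    ((a : ZMod w)) ^ 3 = (c : ZMod w) := by
  have h1 : ((a ^ 3 - c : ℤ) : ZMod w) = 0 := (ZMod.intCast_zmod_eq_zero_iff_dvd _ _).2 h
  push_cast at h1
  exact sub_eq_zero.1 h1

/-- the number of values of a map into the cube roots of a unit -/
theorem card_image_roots3 {τ : Type} (ε : ℝ) (hε : 0 < ε) : ∃ C : ℝ, 0 < C ∧ ∀ (M w : ℕ), 1 ≤ w →
    w ≤ M → ∀ u : ZMod w, IsUnit u → ∀ (F : Finset τ) (f : τ → ZMod w) [DecidableEq (ZMod w)],
      (∀ t ∈ F, f t ^ 3 = u) → ((F.image f).card : ℝ) ≤ C * (M : ℝ) ^ ε := by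
  obtain ⟨C, hC, h⟩ := roots 3 (by norm_num) ε hε
  refine ⟨C, hC, fun M w hw hM u hu F f _ hF => ?_⟩
  have : NeZero w := ⟨by omega⟩
  refine le_trans ?_ ((h w hw u hu).trans ?_)
  · have h1 : ((F.image f : Finset (ZMod w)) : Set (ZMod w)) ⊆ {t : ZMod w | t ^ 3 = u} := by
      intro x hx
      rw [coe_image] at hx
      obtain ⟨t, ht, rfl⟩ := hx
      exact hF t ht
    have h2 := Set.ncard_le_ncard h1 (Set.toFinite _)
    rw [Set.ncard_coe_finset] at h2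
    exact_mod_cast h2
  · have : (w : ℝ) ≤ M := by exact_mod_cast hM
    gcongr

theorem count3 (ε : ℝ) (hε : 0 < ε) : ∃ C : ℝ, 0 < C ∧ ∀ M : ℕ, 1 ≤ M → ∀ μ ν : ℤ,
    0 < μ → μ ≤ 64 → 0 < ν → ∀ R P ub wl A : ℝ, 0 ≤ R → 0 ≤ P → 0 < ub → 0 < wl →
    0 < A → ∀ T : Finset (ℤ × ℤ × ℤ), (∀ t ∈ T, Sol3 μ ν M t ∧ (rad t.2.2.natAbs : ℝ) ≤ R ∧
      (rad (pw t.2.1.natAbs) : ℝ) ≤ P ∧ (t.2.1.natAbs : ℝ) ≤ ub ∧ wl ≤ pw t.2.1.natAbs ∧
      A ^ 3 ≤ max (t.2.1.natAbs : ℝ) t.2.2.natAbs) →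
    (T.card : ℝ) ≤ C * (M : ℝ) ^ ε * (R * P) * (ub / (A ^ 2 * wl) + 1) := by
  classical
  obtain ⟨C1, hC1, hrad⟩ := card_rad_le (ε / 3) (by positivity)
  obtain ⟨C2, hC2, hroots⟩ := card_image_roots3 (τ := ℤ × ℤ × ℤ) (ε / 3) (by positivity)
  refine ⟨2 * C1 * C1 * C2 * 256, by positivity, ?_⟩
  intro M hM μ ν hμ hμ64 hν R P ub wl A hR hP hub hwl hA T hT
  have hM0 : (0 : ℝ) < M := by exact_mod_cast hM
  have hμR : (0 : ℝ) < μ := by exact_mod_cast hμ
  have hμR64 : (μ : ℝ) ≤ 64 := by exact_mod_cast hμ64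
  set Lb := radSet M R with hLb
  set Wb := (Icc 1 M).filter (fun m => (rad m : ℝ) ≤ P) with hWb
  set B : ℝ := 4 * (64 * ub) / A ^ 2 / wl + 1 with hB
  have hB0 : 0 ≤ B := by positivity
  have main := count_two T (fun t => t.2.2) (fun t => pw t.2.1.natAbs) Lb Wb
    (C2 * (M : ℝ) ^ (ε / 3) * B) (fun t ht => ?_) (fun t ht => ?_) (fun l hl w0 hw0 => ?_)
  · refine main.trans ?_
    have c1 : (Lb.card : ℝ) ≤ 2 * (C1 * R * (M : ℝ) ^ (ε / 3)) := by
      have := card_radSet M R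
      have h2 := hrad M hM R hR
      have h3 : (Lb.card : ℝ) ≤ 2 * (((Icc 1 M).filter (fun m => (rad m : ℝ) ≤ R)).card : ℝ) := by
        exact_mod_cast this
      linarith
    have c2 : (Wb.card : ℝ) ≤ C1 * P * (M : ℝ) ^ (ε / 3) := hrad M hM P hP
    have hε3 : (M : ℝ) ^ (ε / 3) * (M : ℝ) ^ (ε / 3) * (M : ℝ) ^ (ε / 3) = (M : ℝ) ^ ε := by
      rw [← Real.rpow_add hM0, ← Real.rpow_add hM0]
      congr 1
      ring
    calc (Lb.card : ℝ) * Wb.card * (C2 * (M : ℝ) ^ (ε / 3) * B)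
        ≤ (2 * (C1 * R * (M : ℝ) ^ (ε / 3))) * (C1 * P * (M : ℝ) ^ (ε / 3)) *
          (C2 * (M : ℝ) ^ (ε / 3) * B) := by gcongr
      _ = 2 * C1 * C1 * C2 * ((M : ℝ) ^ (ε / 3) * (M : ℝ) ^ (ε / 3) * (M : ℝ) ^ (ε / 3)) *
          (R * P) * B := by ring
      _ = 2 * C1 * C1 * C2 * (M : ℝ) ^ ε * (R * P) * B := by rw [hε3]
      _ ≤ 2 * C1 * C1 * C2 * (M : ℝ) ^ ε * (R * P) * (256 * (ub / (A ^ 2 * wl) + 1)) := by
          gcongr
          rw [hB]
          have : 4 * (64 * ub) / A ^ 2 / wl = 256 * (ub / (A ^ 2 * wl)) := by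
            rw [div_div]; ring
          rw [this]
          have h0 : 0 ≤ ub / (A ^ 2 * wl) := by positivity
          linarith
      _ = _ := by ring
  · obtain ⟨⟨-, -, h3, -, -, h6⟩, h7, -⟩ := hT t ht
    exact mem_radSet h3 h6 h7
  · obtain ⟨⟨-, h2, h3, -, h5, h6⟩, -, h8, -⟩ := hT t ht
    rw [hWb, mem_filter, mem_Icc]
    have hn0 : t.2.1.natAbs ≠ 0 := Int.natAbs_ne_zero.2 h2
    exact ⟨⟨pw_pos _, (Nat.le_of_dvd (by omega) (pw_dvd hn0)).trans h5⟩, h8⟩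
  · set F := T.filter (fun t => t.2.2 = l ∧ pw t.2.1.natAbs = w0) with hF
    rw [hWb, mem_filter, mem_Icc] at hw0
    by_cases hne : F = ∅
    · rw [hne, card_empty, Nat.cast_zero]
      positivity
    obtain ⟨t0, ht0⟩ := nonempty_iff_ne_empty.2 hne
    rw [hF, mem_filter] at ht0
    have hFm : ∀ t ∈ F, t ∈ T ∧ t.2.2 = l ∧ pw t.2.1.natAbs = w0 := fun t ht => by
      rwa [hF, mem_filter] at ht
    have hdvd : ∀ t ∈ F, (w0 : ℤ) ∣ t.1 ^ 3 - ν * l := by
      intro t ht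
      obtain ⟨h1, h2, h3⟩ := hFm t ht
      obtain ⟨⟨e1, e2, -⟩, -⟩ := hT t h1
      have h4 : (w0 : ℤ) ∣ t.2.1 := by
        rw [← h3, Int.natCast_dvd]
        exact pw_dvd (Int.natAbs_ne_zero.2 e2)
      rw [e1, h2]
      have : μ * t.2.1 + ν * l - ν * l = μ * t.2.1 := by ring
      rw [this]
      exact h4.mul_left _
    have hunit : IsUnit ((ν * l : ℤ) : ZMod w0) := by
      refine unit_of_cop ?_
      obtain ⟨⟨-, -, -, e4, -⟩, -⟩ := hT t0 ht0.1
      rw [← ht0.2.1, ← ht0.2.2]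
      exact e4
    have himg := hroots M w0 hw0.1.1 hw0.1.2 _ hunit F (fun t => (t.1 : ZMod w0))
      (fun t ht => modEq_cube_unit (hdvd t ht))
    have hwl0 : wl ≤ w0 := by
      obtain ⟨-, -, -, -, h, -⟩ := hT t0 ht0.1
      rwa [ht0.2.2] at h
    have hmub : 0 < (μ : ℝ) * ub := by positivity
    have hA2 : A ^ 3 ≤ max |(ν : ℝ) * l| (μ * ub) := by
      obtain ⟨-, -, -, h8, -, h10⟩ := hT t0 ht0.1
      have hν1 : (1 : ℝ) ≤ ν := by exact_mod_cast hν
      have hμ1 : (1 : ℝ) ≤ μ := by exact_mod_cast hμ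
      refine h10.trans (max_le ?_ ?_)
      · refine le_max_of_le_right (h8.trans ?_)
        nlinarith
      · refine le_max_of_le_left ?_
        rw [ht0.2.1, Nat.cast_natAbs, Int.cast_abs, abs_mul, abs_of_pos (by linarith : (0 : ℝ) < ν)]
        nlinarith [abs_nonneg (l : ℝ)]
    obtain ⟨x0, hx0⟩ := cube_window _ _ A hmub hA hA2
    have hfib : ∀ ρ ∈ F.image (fun t => (t.1 : ZMod w0)),
        ((F.filter (fun t => (t.1 : ZMod w0) = ρ)).card : ℝ) ≤ B := by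
      intro ρ _
      set G := F.filter (fun t => (t.1 : ZMod w0) = ρ) with hG
      have hinj : Set.InjOn (fun t : ℤ × ℤ × ℤ => t.1) G := by
        intro t ht t' ht' h
        rw [mem_coe, hG, mem_filter] at ht ht'
        obtain ⟨g1, g2, g3⟩ := hFm t ht.1
        obtain ⟨g1', g2', g3'⟩ := hFm t' ht'.1
        obtain ⟨⟨e1, -⟩, -⟩ := hT t g1
        obtain ⟨⟨e1', -⟩, -⟩ := hT t' g1'
        have hu : t.2.1 = t'.2.1 := by
          have : μ * t.2.1 = μ * t'.2.1 := by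
            have h9 : t.1 ^ 3 = t'.1 ^ 3 := by
              simp only at h
              rw [h]
            rw [e1, e1', g2, g2'] at h9
            linarith
          exact mul_left_cancel₀ hμ.ne' this
        exact Prod.ext h (Prod.ext hu (g2.trans g2'.symm))
      have hcard : (G.card : ℝ) = ((G.image (fun t => t.1)).card : ℝ) := by
        rw [card_image_of_injOn hinj]
      rw [hcard]
      refine (card_class (G.image (fun t => t.1)) w0 (by omega) x0 (4 * (μ * ub) / A ^ 2)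
        (by positivity) ?_ ?_).trans ?_
      · intro y hy
        obtain ⟨t, ht, rfl⟩ := mem_image.1 hy
        rw [hG, mem_filter] at ht
        obtain ⟨g1, g2, g3⟩ := hFm t ht.1
        obtain ⟨⟨e1, e2, -⟩, -, -, e8, -⟩ := hT t g1
        apply hx0
        have : ((t.1 : ℝ)) ^ 3 - (ν : ℝ) * l = μ * t.2.1 := by
          have h9 : ((t.1 : ℝ)) ^ 3 = μ * t.2.1 + ν * t.2.2 := by exact_mod_cast e1
          rw [h9, g2]
          ring
        rw [this, abs_mul, abs_of_pos hμR]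
        have h10 : |(t.2.1 : ℝ)| ≤ ub := by
          rwa [Nat.cast_natAbs, Int.cast_abs] at e8
        gcongr
      · intro y hy z hz
        obtain ⟨t, ht, rfl⟩ := mem_image.1 hy
        obtain ⟨t', ht', rfl⟩ := mem_image.1 hz
        rw [hG, mem_filter] at ht ht'
        rw [← ZMod.intCast_zmod_eq_zero_iff_dvd]
        push_cast
        rw [ht.2, ht'.2, sub_self]
      · rw [hB]
        gcongr
    have h7 := card_le_mul_card_image_real F (fun t => (t.1 : ZMod w0)) B hfib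
    calc (F.card : ℝ) ≤ B * ((F.image (fun t => (t.1 : ZMod w0))).card : ℝ) := h7
      _ ≤ B * (C2 * (M : ℝ) ^ (ε / 3)) := by gcongr
      _ = _ := by ring

end Pool.Agent.T2h91.TI
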