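import Pool.Agent.T2h91.TI.Triv
import Pool.Agent.T2h82.Pairs

/-!
# The counts of pairs
-/

set_option autoImplicit false

namespace Pool.Agent.T2h91.TI

open Finset
open Pool.Agent.H328R2.ABC (rad rad_pos)
open Pool.Agent.T2h82 (pw pw_pos pw_dvd card_split)

/-- the pairs of size larger than `K * X ^ (1 / 2)` -/
theorem tail (s δ : ℝ) (hs0 : 2 / 3 < s) (hs1 : s < 1) (hδ : 0 < δ) : ∃ η C : ℝ, 0 < η ∧ 0 < C ∧
    ∀ X K : ℝ, 1 < X → 1 ≤ K → ∀ S : Finset (ℤ × ℤ), (∀ q ∈ S, Ad X q ∧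
      K * X ^ (1 / 2 : ℝ) < HH q ∧
      (q.2.natAbs : ℝ) ≤ X ^ (2 / 3 - 2 * δ) ∧ ((gg q).natAbs : ℝ) ≤ X ^ (2 / 3 - 2 * δ)) →
    (S.card : ℝ) ≤ C * (K ^ (4 / 3 - 2 * s) * X ^ (2 / 3 : ℝ) + X ^ (2 / 3 - η)) := by
  classical
  obtain ⟨η1, C1, hη1, hC1, hp⟩ := power (1 / 100) δ (by norm_num) hδ
  obtain ⟨C2, hC2, hr⟩ := rankin s hs0 hs1
  set η : ℝ := min η1 (1 / 100) with hη
  have hη0 : 0 < η := lt_min hη1 (by norm_num)
  refine ⟨η, C1 + 4 * C2 + 672 * 28 ^ (4 / 3 : ℝ), hη0, by positivity, ?_⟩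
  intro X K hX hK S hS
  have hX0 : 0 < X := by linarith
  have hXh : 1 ≤ X ^ (1 / 2 : ℝ) := Real.one_le_rpow hX.le (by norm_num)
  have hT0 : 1 ≤ K * X ^ (1 / 2 : ℝ) := by nlinarith
  set T0 : ℝ := K * X ^ (1 / 2 : ℝ) with hT0d
  set T1 : ℝ := 28 * X ^ (1 / 2 + 2 * (1 / 100) : ℝ) with hT1d
  set W : ℝ := X ^ (12 / 100 : ℝ) with hW
  set D : ℝ := X ^ (4 / 100 : ℝ) with hD
  have hW1 : 1 ≤ W := Real.one_le_rpow hX.le (by norm_num)
  have hDW : D ^ 3 = W := by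
    rw [hD, hW, ← Real.rpow_natCast, ← Real.rpow_mul hX0.le]
    norm_num
  have hT11 : 1 ≤ T1 := by
    have : 1 ≤ X ^ (1 / 2 + 2 * (1 / 100) : ℝ) := Real.one_le_rpow hX.le (by norm_num)
    linarith
  -- the three parts
  set A := S.filter (fun q => X ^ (1 / 2 + 2 * (1 / 100) : ℝ) ≤
    max (q.2.natAbs : ℝ) (gg q).natAbs) with hA
  set B := S.filter (fun q => ¬ X ^ (1 / 2 + 2 * (1 / 100) : ℝ) ≤
    max (q.2.natAbs : ℝ) (gg q).natAbs) with hB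
  set B1 := B.filter (fun q => (pw q.2.natAbs : ℝ) ≤ W ∧ (pw (gg q).natAbs : ℝ) ≤ W) with hB1
  set B2 := B.filter (fun q => ¬ ((pw q.2.natAbs : ℝ) ≤ W ∧ (pw (gg q).natAbs : ℝ) ≤ W)) with hB2
  have hBT : ∀ q ∈ B, ((HH q : ℤ) : ℝ) ≤ T1 := by
    intro q hq
    rw [hB, mem_filter, not_le] at hq
    have e2 := HH_le_max q
    rw [hT1d]
    linarith [hq.2]
  have cA : (A.card : ℝ) ≤ C1 * X ^ (2 / 3 - η1) := by
    refine hp X hX A (fun q hq => ?_)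
    rw [hA, mem_filter] at hq
    obtain ⟨h1, -, h3, h4⟩ := hS q hq.1
    exact ⟨h1, hq.2, h3, h4⟩
  have cB1 : (B1.card : ℝ) ≤ C2 * (X ^ s * T0 ^ (4 / 3 - 2 * s) + T1 ^ (1 / 3 : ℝ) * W ^ 2) := by
    rcases le_total T0 T1 with hle | hle
    · refine hr X T0 T1 W hX0 hT0 hle hW1 B1 (fun q hq => ?_)
      rw [hB1, mem_filter] at hq
      have hqB := hq.1
      rw [hB, mem_filter] at hqB
      obtain ⟨h1, h2, -, -⟩ := hS q hqB.1
      exact ⟨h1, h2, hBT q hq.1, hq.2.1, hq.2.2⟩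
    · have h0 : B1 = ∅ := by
        rw [eq_empty_iff_forall_notMem]
        intro q hq
        rw [hB1, mem_filter] at hq
        have h5 := hBT q hq.1
        have hqB := hq.1
        rw [hB, mem_filter] at hqB
        obtain ⟨h1, h2, -, -⟩ := hS q hqB.1
        linarith
      rw [h0, card_empty]
      push_cast
      positivity
  have cB2 : (B2.card : ℝ) ≤ 672 * T1 ^ (4 / 3 : ℝ) / D := by
    refine bigpw B2 T1 D W hT11 (by positivity) hDW.le (fun q hq => ?_)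
    rw [hB2, mem_filter] at hq
    have hqB := hq.1
    rw [hB, mem_filter] at hqB
    obtain ⟨h1, h2, -, -⟩ := hS q hqB.1
    refine ⟨h1.n0, h1.g0, hBT q hq.1, ?_⟩
    by_contra hcon
    push Not at hcon
    exact hq.2 hcon
  have e1 : (S.card : ℝ) = (A.card : ℝ) + (B.card : ℝ) := card_split S _
  have e2 : (B.card : ℝ) = (B1.card : ℝ) + (B2.card : ℝ) := card_split B _
  have f1 : X ^ (2 / 3 - η1) ≤ X ^ (2 / 3 - η) :=
    Real.rpow_le_rpow_of_exponent_le hX.le (by linarith [min_le_left η1 (1 / 100)])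
  have f2 : X ^ s * T0 ^ (4 / 3 - 2 * s) = K ^ (4 / 3 - 2 * s) * X ^ (2 / 3 : ℝ) := by
    rw [hT0d, Real.mul_rpow (by linarith) (by positivity), ← Real.rpow_mul hX0.le,
      mul_left_comm, ← Real.rpow_add hX0]
    congr 2
    ring
  have hη100 : η ≤ 1 / 100 := min_le_right _ _
  have f3 : T1 ^ (1 / 3 : ℝ) * W ^ 2 ≤ 4 * X ^ (2 / 3 - η) := by
    have g1 : T1 ^ (1 / 3 : ℝ) ≤ 4 * X ^ (18 / 100 : ℝ) := by
      rw [hT1d, Real.mul_rpow (by norm_num) (by positivity), ← Real.rpow_mul hX0.le]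
      have g2 : (28 : ℝ) ^ (1 / 3 : ℝ) ≤ 4 := by
        refine le_of_pow_le_pow_left₀ (n := 3) (by norm_num) (by norm_num) ?_
        rw [← Real.rpow_natCast, ← Real.rpow_mul (by norm_num)]
        norm_num
      have g3 : X ^ ((1 / 2 + 2 * (1 / 100)) * (1 / 3) : ℝ) ≤ X ^ (18 / 100 : ℝ) :=
        Real.rpow_le_rpow_of_exponent_le hX.le (by norm_num)
      gcongr
    have g4 : W ^ 2 = X ^ (24 / 100 : ℝ) := by
      rw [hW, ← Real.rpow_natCast, ← Real.rpow_mul hX0.le]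
      norm_num
    calc T1 ^ (1 / 3 : ℝ) * W ^ 2 ≤ 4 * X ^ (18 / 100 : ℝ) * X ^ (24 / 100 : ℝ) := by
          rw [g4]
          gcongr
      _ = 4 * X ^ (42 / 100 : ℝ) := by
          rw [mul_assoc, ← Real.rpow_add hX0]
          norm_num
      _ ≤ _ := by
          have : X ^ (42 / 100 : ℝ) ≤ X ^ (2 / 3 - η) :=
            Real.rpow_le_rpow_of_exponent_le hX.le (by linarith)
          linarith
  have f4 : T1 ^ (4 / 3 : ℝ) / D ≤ 28 ^ (4 / 3 : ℝ) * X ^ (2 / 3 - η) := by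
    rw [hT1d, Real.mul_rpow (by norm_num) (by positivity), ← Real.rpow_mul hX0.le,
      mul_div_assoc, hD, ← Real.rpow_sub hX0]
    apply mul_le_mul_of_nonneg_left _ (by positivity)
    refine Real.rpow_le_rpow_of_exponent_le hX.le ?_
    linarith
  have p1 : 0 ≤ K ^ (4 / 3 - 2 * s) * X ^ (2 / 3 : ℝ) := by positivity
  have p2 : 0 ≤ X ^ (2 / 3 - η) := by positivity
  rw [e1, e2]
  rw [f2] at cB1
  have k1 : C1 * X ^ (2 / 3 - η1) ≤ C1 * X ^ (2 / 3 - η) := by gcongr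
  have k2 : C2 * (K ^ (4 / 3 - 2 * s) * X ^ (2 / 3 : ℝ) + T1 ^ (1 / 3 : ℝ) * W ^ 2) ≤
      4 * C2 * (K ^ (4 / 3 - 2 * s) * X ^ (2 / 3 : ℝ) + X ^ (2 / 3 - η)) := by
    nlinarith
  have k3 : 672 * T1 ^ (4 / 3 : ℝ) / D ≤ 672 * 28 ^ (4 / 3 : ℝ) * X ^ (2 / 3 - η) := by
    calc 672 * T1 ^ (4 / 3 : ℝ) / D = 672 * (T1 ^ (4 / 3 : ℝ) / D) := by ring
      _ ≤ 672 * (28 ^ (4 / 3 : ℝ) * X ^ (2 / 3 - η)) := by gcongr
      _ = _ := by ring
  have p3 : (0 : ℝ) ≤ 672 * 28 ^ (4 / 3 : ℝ) := by positivity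
  nlinarith [mul_nonneg hC1.le p1, mul_nonneg p3 p1]

/-- all pairs -/
theorem total (δ : ℝ) (hδ : 0 < δ) : ∃ C : ℝ, 0 < C ∧
    ∀ X : ℝ, 1 < X → ∀ S : Finset (ℤ × ℤ), (∀ q ∈ S, Ad X q ∧
      (q.2.natAbs : ℝ) ≤ X ^ (2 / 3 - 2 * δ) ∧ ((gg q).natAbs : ℝ) ≤ X ^ (2 / 3 - 2 * δ)) →
    (S.card : ℝ) ≤ C * X ^ (2 / 3 : ℝ) := by
  classical
  obtain ⟨η, C, hη, hC, h⟩ := tail (7 / 8) δ (by norm_num) (by norm_num) hδ
  refine ⟨2 * C + 18, by positivity, ?_⟩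
  intro X hX S hS
  have hX0 : 0 < X := by linarith
  have h1 := h X 1 hX le_rfl (S.filter (fun q => X ^ (1 / 2 : ℝ) < HH q)) (fun q hq => by
    rw [mem_filter] at hq
    obtain ⟨a1, a2, a3⟩ := hS q hq.1
    refine ⟨a1, ?_, a2, a3⟩
    rw [one_mul]
    exact hq.2)
  have h2 := triv (S.filter (fun q => ¬ X ^ (1 / 2 : ℝ) < HH q)) (X ^ (1 / 2 : ℝ))
    (Real.one_le_rpow hX.le (by norm_num)) (fun q hq => by
    rw [mem_filter, not_lt] at hq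
    exact hq.2)
  have e1 := card_split S (fun q => X ^ (1 / 2 : ℝ) < HH q)
  have e2 : (X ^ (1 / 2 : ℝ)) ^ (4 / 3 : ℝ) = X ^ (2 / 3 : ℝ) := by
    rw [← Real.rpow_mul hX0.le]
    norm_num
  rw [e2] at h2
  rw [Real.one_rpow, one_mul] at h1
  have e3 : X ^ (2 / 3 - η) ≤ X ^ (2 / 3 : ℝ) :=
    Real.rpow_le_rpow_of_exponent_le hX.le (by linarith)
  rw [e1]
  nlinarith

end Pool.Agent.T2h91.TI
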