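import Pool.Agent.T2h91.TI.Key
import Pool.Agent.T2h82.Power2

/-!
# Large heights: a power saving
-/

set_option autoImplicit false

namespace Pool.Agent.T2h91.TI

open Finset
open Pool.Agent.H328R2.ABC (rad rad_pos)
open Pool.Agent.T2h82 (pw pw_pos pw_dvd s1 s1_pos s1_mul_pw s1_mul_rad_pw s1_le_ker ker_le_rad
  rad_le' gi gi_spec gi_mono gi_le exp_le add_one_le_two cast_pw_dvd card_le_mul_card_image_real)

/-- the other parameter -/
def gg (q : ℤ × ℤ) : ℤ := q.1 ^ 3 - 27 * q.2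

/-- the pairs counted -/
structure Ad (X : ℝ) (q : ℤ × ℤ) : Prop where
  n3 : ¬ (3 : ℤ) ∣ q.1
  n0 : q.2 ≠ 0
  g0 : gg q ≠ 0
  cop : IsCoprime q.1 q.2
  rad_le : (rad q.2.natAbs : ℝ) * rad (gg q).natAbs ≤ X

/-- one of the two bounds is good -/
theorem lp3 {η η0 δ b1 rb hb d1 rd hd : ℝ} (hη : 0 < η) (h20 : 20 * η ≤ η0)
    (h20' : 20 * η ≤ δ) (hn : rb + rd ≤ 1) (hb3 : 2 * rb ≤ hb + b1 + 2 * η)
    (hd3 : 2 * rd ≤ hd + d1 + 2 * η)
    (hbδ : hb ≤ 2 / 3 - 2 * δ) (hdδ : hd ≤ 2 / 3 - 2 * δ) (hm : 1 / 2 + 2 * η0 ≤ max hb hd + η) :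
    (rd + rb - b1 + 3 * η + max 0 (b1 - 2 / 3 * max hb hd + 2 * η) ≤ 2 / 3 - η) ∨
    (rb + rd - d1 + 3 * η + max 0 (d1 - 2 / 3 * max hb hd + 2 * η) ≤ 2 / 3 - η) := by
  by_contra hcon
  push Not at hcon
  obtain ⟨c1, c2⟩ := hcon
  set m := max hb hd with hmd
  have e1 : b1 < rb + rd - 2 / 3 + 4 * η := by
    rcases max_cases 0 (b1 - 2 / 3 * m + 2 * η) with ⟨h, -⟩ | ⟨h, -⟩ <;> rw [h] at c1 <;> linarith
  have e2 : d1 < rb + rd - 2 / 3 + 4 * η := by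
    rcases max_cases 0 (d1 - 2 / 3 * m + 2 * η) with ⟨h, -⟩ | ⟨h, -⟩ <;> rw [h] at c2 <;> linarith
  linarith

/-- the sizes of the parts of `N` -/
structure Par (η X b r h : ℝ) (N : ℕ) : Prop where
  s1l : X ^ b ≤ s1 N
  s1u : (s1 N : ℝ) ≤ X ^ (b + η)
  rl : X ^ r ≤ rad N
  ru : (rad N : ℝ) ≤ X ^ (r + η)
  hl : X ^ h ≤ N
  hu : (N : ℝ) ≤ X ^ (h + η)

theorem Par.of {η X : ℝ} (hη : 0 < η) (hX : 1 < X) {N : ℕ} (hN : N ≠ 0) :
    Par η X (gi η X (s1 N) * η) (gi η X (rad N) * η) (gi η X N * η) N := by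
  have h1 : (1 : ℝ) ≤ s1 N := by exact_mod_cast s1_pos N
  have h3 : (1 : ℝ) ≤ rad N := by exact_mod_cast rad_pos N
  have h4 : (1 : ℝ) ≤ N := by exact_mod_cast Nat.pos_of_ne_zero hN
  exact ⟨(gi_spec hη hX h1).1, (gi_spec hη hX h1).2,
    (gi_spec hη hX h3).1, (gi_spec hη hX h3).2, (gi_spec hη hX h4).1, (gi_spec hη hX h4).2⟩

theorem rad_sq_le {n : ℕ} (hn : n ≠ 0) : rad n ^ 2 ≤ n * s1 n := by
  have h1 : (rad (pw n)) ^ 2 ≤ pw n := by
    have h2 := Pool.Agent.T2h82.pful_pw hn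
    unfold rad
    conv_rhs => rw [← Pool.Agent.H328R2.ABC.prod_pow_fact (pw_pos n).ne']
    rw [← prod_pow]
    refine prod_le_prod' (fun p hp => ?_)
    have hp0 := (Nat.prime_of_mem_primeFactors hp).pos
    refine Nat.pow_le_pow_right hp0 ?_
    have h3 := Pool.Agent.H328R2.ABC.fact_pos hp
    have h4 := h2 p
    omega
  calc rad n ^ 2 = (s1 n * rad (pw n)) ^ 2 := by rw [s1_mul_rad_pw]
    _ = s1 n * s1 n * rad (pw n) ^ 2 := by ring
    _ ≤ s1 n * s1 n * pw n := Nat.mul_le_mul_left _ h1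
    _ = (s1 n * pw n) * s1 n := by ring
    _ = n * s1 n := by rw [s1_mul_pw hn]

section
variable {η X b r h : ℝ} {N : ℕ}

theorem Par.pw_ge (hX : 1 < X) (hN : N ≠ 0) (p : Par η X b r h N) :
    X ^ (h - b - η) ≤ pw N := by
  have hX0 : 0 < X := by linarith
  have h1 : (s1 N : ℝ) * pw N = N := by exact_mod_cast s1_mul_pw hN
  have h2 : (0 : ℝ) < pw N := by exact_mod_cast pw_pos N
  have h3 : X ^ h ≤ X ^ (b + η) * pw N := by
    refine p.hl.trans ?_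
    rw [← h1]
    exact mul_le_mul_of_nonneg_right p.s1u h2.le
  have h4 : X ^ (h - b - η) = X ^ h / X ^ (b + η) := by
    rw [← Real.rpow_sub hX0]
    congr 1
    ring
  rw [h4, div_le_iff₀ (by positivity)]
  linarith

theorem Par.radpw_le (hX : 1 < X) (p : Par η X b r h N) :
    (rad (pw N) : ℝ) ≤ X ^ (r + η - b) := by
  have hX0 : 0 < X := by linarith
  have h1 : (s1 N : ℝ) * rad (pw N) = rad N := by exact_mod_cast s1_mul_rad_pw N
  have h2 : (0 : ℝ) < rad (pw N) := by exact_mod_cast rad_pos _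
  have h3 : X ^ b * rad (pw N) ≤ X ^ (r + η) := by
    refine le_trans ?_ p.ru
    rw [← h1]
    exact mul_le_mul_of_nonneg_right p.s1l h2.le
  rw [Real.rpow_sub hX0, le_div_iff₀ (by positivity)]
  linarith

theorem Par.two (hX : 1 < X) (hN : N ≠ 0) (p : Par η X b r h N) :
    2 * r ≤ h + b + 2 * η := by
  have hX0 : 0 < X := by linarith
  refine exp_le hX ?_
  have h1 : (rad N : ℝ) ^ 2 ≤ N * (s1 N : ℝ) := by exact_mod_cast rad_sq_le hN
  calc X ^ (2 * r) = (X ^ r) ^ 2 := by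
        rw [← Real.rpow_natCast, ← Real.rpow_mul hX0.le]
        congr 1
        push_cast
        ring
    _ ≤ (rad N : ℝ) ^ 2 := by
        have := p.rl
        gcongr
    _ ≤ N * (s1 N : ℝ) := h1
    _ ≤ X ^ (h + η) * (X ^ (b + η)) := by
        have := p.hu
        have := p.s1u
        gcongr
    _ = X ^ (h + b + 2 * η) := by
        rw [← Real.rpow_add hX0]
        congr 1
        ring

end

/-- the bound in terms of exponents -/
theorem bound3 (η : ℝ) (hη : 0 < η) : ∃ C : ℝ, 0 < C ∧ ∀ X : ℝ, 1 < X → ∀ μ ν : ℤ,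
    0 < μ → μ ≤ 64 → 0 < ν → ∀ b1 rb hb d1 rd hd : ℝ, ∀ T : Finset (ℤ × ℤ × ℤ),
    (∀ t ∈ T, Sol3 μ ν ⌊X⌋₊ t ∧ Par η X b1 rb hb t.2.1.natAbs ∧
      Par η X d1 rd hd t.2.2.natAbs) →
    (T.card : ℝ) ≤ C * X ^ (rd + rb - b1 + 3 * η + max 0 (b1 - 2 / 3 * max hb hd + 2 * η)) := by
  obtain ⟨C, hC, h⟩ := count3 η hη
  refine ⟨2 * C, by positivity, ?_⟩
  intro X hX μ ν hμ hμ64 hν b1 rb hb d1 rd hd T hT
  have hX0 : 0 < X := by linarith
  have hM : 1 ≤ ⌊X⌋₊ := Nat.le_floor (by exact_mod_cast hX.le)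
  have key := h ⌊X⌋₊ hM μ ν hμ hμ64 hν (X ^ (rd + η)) (X ^ (rb + η - b1)) (X ^ (hb + η))
    (X ^ (hb - b1 - η)) (X ^ (1 / 3 * max hb hd)) (by positivity) (by positivity) (by positivity)
    (by positivity) (by positivity) T (fun t ht => ?_)
  · refine key.trans ?_
    have h1 : X ^ (hb + η) / ((X ^ (1 / 3 * max hb hd)) ^ 2 * X ^ (hb - b1 - η)) =
        X ^ (b1 - 2 / 3 * max hb hd + 2 * η) := by
      rw [← Real.rpow_natCast, ← Real.rpow_mul hX0.le, ← Real.rpow_add hX0, ← Real.rpow_sub hX0]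
      congr 1
      push_cast
      ring
    rw [h1]
    have h2 := add_one_le_two (x := b1 - 2 / 3 * max hb hd + 2 * η) hX
    have h3 : ((⌊X⌋₊ : ℝ)) ^ η ≤ X ^ η :=
      Real.rpow_le_rpow (by positivity) (Nat.floor_le hX0.le) hη.le
    calc C * (⌊X⌋₊ : ℝ) ^ η * (X ^ (rd + η) * X ^ (rb + η - b1)) *
          (X ^ (b1 - 2 / 3 * max hb hd + 2 * η) + 1)
        ≤ C * X ^ η * (X ^ (rd + η) * X ^ (rb + η - b1)) *
          (2 * X ^ (max 0 (b1 - 2 / 3 * max hb hd + 2 * η))) := by gcongr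
      _ = 2 * C * (X ^ η * X ^ (rd + η) * X ^ (rb + η - b1) *
          X ^ (max 0 (b1 - 2 / 3 * max hb hd + 2 * η))) := by ring
      _ = _ := by
        rw [← Real.rpow_add hX0, ← Real.rpow_add hX0, ← Real.rpow_add hX0]
        congr 2
        ring
  · obtain ⟨h1, h2, h3⟩ := hT t ht
    have hu0 : t.2.1.natAbs ≠ 0 := Int.natAbs_ne_zero.2 h1.2.1
    refine ⟨h1, h3.ru, h2.radpw_le hX, h2.hu, h2.pw_ge hX hu0, ?_⟩
    have e1 : (X ^ (1 / 3 * max hb hd)) ^ 3 = X ^ (max hb hd) := by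
      rw [← Real.rpow_natCast, ← Real.rpow_mul hX0.le]
      congr 1
      push_cast
      ring
    rw [e1]
    rcases max_cases hb hd with ⟨h, -⟩ | ⟨h, -⟩ <;> rw [h]
    · exact le_max_of_le_left h2.hl
    · exact le_max_of_le_right h3.hl

theorem prime_three_cop {a : ℤ} (h : ¬ (3 : ℤ) ∣ a) : IsCoprime (3 : ℤ) a :=
  (Int.prime_three.coprime_iff_not_dvd).2 h

theorem cop27 {a : ℤ} (h : ¬ (3 : ℤ) ∣ a) : IsCoprime (27 : ℤ) a := by
  have h1 : IsCoprime ((3 : ℤ) ^ 3) a := (prime_three_cop h).pow_left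
  have : (27 : ℤ) = 3 ^ 3 := by norm_num
  rw [this]
  exact h1

theorem Ad.n3g {X : ℝ} {q : ℤ × ℤ} (h : Ad X q) : ¬ (3 : ℤ) ∣ gg q := by
  intro hd
  unfold gg at hd
  have h1 : (3 : ℤ) ∣ q.1 ^ 3 := by
    have : q.1 ^ 3 = (q.1 ^ 3 - 27 * q.2) + 3 * (9 * q.2) := by ring
    rw [this]
    exact dvd_add hd (dvd_mul_right _ _)
  exact h.n3 (Int.prime_three.dvd_of_dvd_pow h1)

theorem Ad.cop_ng {X : ℝ} {q : ℤ × ℤ} (h : Ad X q) : IsCoprime q.2 (gg q) := by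
  unfold gg
  have h1 : IsCoprime q.2 (q.1 ^ 3) := (h.cop.symm).pow_right
  have : q.1 ^ 3 - 27 * q.2 = q.1 ^ 3 + q.2 * (-27) := by ring
  rw [this]
  exact h1.add_mul_left_right _

theorem Ad.sol1 {X Y : ℝ} {q : ℤ × ℤ} (h : Ad X q) (h1 : (q.2.natAbs : ℝ) ≤ Y)
    (h2 : ((gg q).natAbs : ℝ) ≤ Y) : Sol3 27 1 ⌊Y⌋₊ (q.1, q.2, gg q) := by
  refine ⟨?_, h.n0, h.g0, ?_, Nat.le_floor h1, Nat.le_floor h2⟩
  · change q.1 ^ 3 = 27 * q.2 + 1 * gg q
    unfold gg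
    ring
  · change IsCoprime (1 * gg q) ((pw q.2.natAbs : ℕ) : ℤ)
    rw [one_mul]
    exact (h.cop_ng.symm).of_isCoprime_of_dvd_right (cast_pw_dvd h.n0)

theorem Ad.sol2 {X Y : ℝ} {q : ℤ × ℤ} (h : Ad X q) (h1 : (q.2.natAbs : ℝ) ≤ Y)
    (h2 : ((gg q).natAbs : ℝ) ≤ Y) : Sol3 1 27 ⌊Y⌋₊ (q.1, gg q, q.2) := by
  refine ⟨?_, h.g0, h.n0, ?_, Nat.le_floor h2, Nat.le_floor h1⟩
  · change q.1 ^ 3 = 1 * gg q + 27 * q.2
    unfold gg
    ring
  · change IsCoprime (27 * q.2) ((pw (gg q).natAbs : ℕ) : ℤ)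
    exact (IsCoprime.mul_left (cop27 h.n3g) h.cop_ng).of_isCoprime_of_dvd_right
      (cast_pw_dvd h.g0)

/-- the class of a pair -/
noncomputable def cls (η X : ℝ) (q : ℤ × ℤ) : Fin 6 → ℕ :=
  ![gi η X (s1 q.2.natAbs), gi η X (rad q.2.natAbs), gi η X q.2.natAbs,
    gi η X (s1 (gg q).natAbs), gi η X (rad (gg q).natAbs), gi η X (gg q).natAbs]

theorem gi_small {η X : ℝ} (hη : 0 < η) (hX : 1 < X) {N : ℕ} (hN : N ≠ 0) (hNX : (N : ℝ) ≤ X) :
    gi η X (s1 N) < ⌊1 / η⌋₊ + 1 ∧ gi η X (rad N) < ⌊1 / η⌋₊ + 1 ∧ gi η X N < ⌊1 / η⌋₊ + 1 := by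
  have h := Pool.Agent.T2h82.gi_small hη hX hN hNX
  exact ⟨h.1, h.2.2⟩

theorem power (η0 δ : ℝ) (h0 : 0 < η0) (hδ : 0 < δ) : ∃ η C : ℝ, 0 < η ∧ 0 < C ∧ ∀ X : ℝ,
    1 < X → ∀ S : Finset (ℤ × ℤ), (∀ q ∈ S, Ad X q ∧
      X ^ (1 / 2 + 2 * η0) ≤ max (q.2.natAbs : ℝ) (gg q).natAbs ∧
      (q.2.natAbs : ℝ) ≤ X ^ (2 / 3 - 2 * δ) ∧ ((gg q).natAbs : ℝ) ≤ X ^ (2 / 3 - 2 * δ)) →
    (S.card : ℝ) ≤ C * X ^ (2 / 3 - η) := by
  classical
  set η := min η0 δ / 20 with hηd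
  have hη : 0 < η := by
    have : 0 < min η0 δ := lt_min h0 hδ
    positivity
  have h20 : 20 * η ≤ η0 := by
    have := min_le_left η0 δ
    rw [hηd]; linarith
  have h20' : 20 * η ≤ δ := by
    have := min_le_right η0 δ
    rw [hηd]; linarith
  obtain ⟨C1, hC1, hA⟩ := bound3 η hη
  refine ⟨η, C1 * ((⌊1 / η⌋₊ + 1 : ℕ) : ℝ) ^ 6, hη, by positivity, ?_⟩
  intro X hX S hS
  have hX0 : 0 < X := by linarith
  have hle : X ^ (2 / 3 - 2 * δ) ≤ X := by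
    calc X ^ (2 / 3 - 2 * δ) ≤ X ^ (1 : ℝ) :=
          Real.rpow_le_rpow_of_exponent_le hX.le (by linarith)
      _ = X := Real.rpow_one X
  have hfib : ∀ ρ ∈ S.image (cls η X), ((S.filter (fun q => cls η X q = ρ)).card : ℝ) ≤
      C1 * X ^ (2 / 3 - η) := by
    intro ρ hρ
    obtain ⟨q0, hq0, rfl⟩ := mem_image.1 hρ
    set G := S.filter (fun q => cls η X q = cls η X q0) with hG
    have hGm : ∀ q ∈ G, q ∈ S ∧ cls η X q = cls η X q0 := fun q hq => by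
      rwa [hG, mem_filter] at hq
    set b1 := (gi η X (s1 q0.2.natAbs) : ℝ) * η with hb1
    set rb := (gi η X (rad q0.2.natAbs) : ℝ) * η with hrb
    set hb := (gi η X q0.2.natAbs : ℝ) * η with hhb
    set d1 := (gi η X (s1 (gg q0).natAbs) : ℝ) * η with hd1
    set rd := (gi η X (rad (gg q0).natAbs) : ℝ) * η with hrd
    set hd := (gi η X (gg q0).natAbs : ℝ) * η with hhd
    have hpar : ∀ q ∈ G, Par η X b1 rb hb q.2.natAbs ∧ Par η X d1 rd hd (gg q).natAbs := by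
      intro q hq
      obtain ⟨h1, h2⟩ := hGm q hq
      obtain ⟨adm, -, -, -⟩ := hS q h1
      have e := fun i => congrFun h2 i
      have e0 := e 0
      have e1 := e 1
      have e2 := e 2
      have e3 := e 3
      have e4 := e 4
      have e5 := e 5
      simp only [cls, Matrix.cons_val] at e0 e1 e2 e3 e4 e5
      have p1 := Par.of hη hX (Int.natAbs_ne_zero.2 adm.n0)
      have p2 := Par.of hη hX (Int.natAbs_ne_zero.2 adm.g0)
      rw [e0, e1, e2] at p1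
      rw [e3, e4, e5] at p2
      exact ⟨p1, p2⟩
    obtain ⟨a0, m0, n0, f0⟩ := hS q0 hq0
    have hq0G : q0 ∈ G := by rw [hG, mem_filter]; exact ⟨hq0, rfl⟩
    obtain ⟨p1, p2⟩ := hpar q0 hq0G
    have hN0 : q0.2.natAbs ≠ 0 := Int.natAbs_ne_zero.2 a0.n0
    have hF0 : (gg q0).natAbs ≠ 0 := Int.natAbs_ne_zero.2 a0.g0
    have l1 : rb + rd ≤ 1 := by
      refine exp_le hX ?_
      rw [Real.rpow_add hX0, Real.rpow_one]
      refine le_trans ?_ a0.rad_le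
      have := p1.rl
      have := p2.rl
      gcongr
    have l6 : hb ≤ 2 / 3 - 2 * δ := exp_le hX (p1.hl.trans n0)
    have l7 : hd ≤ 2 / 3 - 2 * δ := exp_le hX (p2.hl.trans f0)
    have l8 : 1 / 2 + 2 * η0 ≤ max hb hd + η := by
      refine exp_le hX (m0.trans ?_)
      refine max_le (p1.hu.trans ?_) (p2.hu.trans ?_)
      · exact Real.rpow_le_rpow_of_exponent_le hX.le (by linarith [le_max_left hb hd])
      · exact Real.rpow_le_rpow_of_exponent_le hX.le (by linarith [le_max_right hb hd])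
    have hc0 : 0 ≤ X ^ (2 / 3 - η) := by positivity
    have inj1 : Set.InjOn (fun q : ℤ × ℤ => ((q.1, q.2, gg q) : ℤ × ℤ × ℤ)) G := by
      intro x _ y _ h
      simp only [Prod.mk.injEq] at h
      exact Prod.ext h.1 h.2.1
    have inj2 : Set.InjOn (fun q : ℤ × ℤ => ((q.1, gg q, q.2) : ℤ × ℤ × ℤ)) G := by
      intro x _ y _ h
      simp only [Prod.mk.injEq] at h
      exact Prod.ext h.1 h.2.2
    have hfin : ∀ {e : ℝ} {T : Finset (ℤ × ℤ × ℤ)}, T.card = G.card →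
        e ≤ 2 / 3 - η → (T.card : ℝ) ≤ C1 * X ^ e → (G.card : ℝ) ≤ C1 * X ^ (2 / 3 - η) := by
      intro e T hT he hb
      rw [hT] at hb
      refine hb.trans ?_
      have := Real.rpow_le_rpow_of_exponent_le hX.le he
      gcongr
    rcases lp3 hη h20 h20' l1 (p1.two hX hN0) (p2.two hX hF0) l6 l7 l8 with h | h
    · refine hfin (card_image_of_injOn inj1) h (hA X hX 27 1 (by norm_num) (by norm_num)
        (by norm_num) b1 rb hb d1 rd hd _ (fun t ht => ?_))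
      obtain ⟨q, hq, rfl⟩ := mem_image.1 ht
      obtain ⟨a, -, n1, f1⟩ := hS q (hGm q hq).1
      exact ⟨a.sol1 (n1.trans hle) (f1.trans hle), (hpar q hq).1, (hpar q hq).2⟩
    · refine hfin (card_image_of_injOn inj2) ?_ (hA X hX 1 27 (by norm_num) (by norm_num)
        (by norm_num) d1 rd hd b1 rb hb _ (fun t ht => ?_))
      · rw [max_comm hd hb]
        exact h
      · obtain ⟨q, hq, rfl⟩ := mem_image.1 ht
        obtain ⟨a, -, n1, f1⟩ := hS q (hGm q hq).1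
        exact ⟨a.sol2 (n1.trans hle) (f1.trans hle), (hpar q hq).2, (hpar q hq).1⟩
  have himg : (S.image (cls η X)).card ≤ (⌊1 / η⌋₊ + 1) ^ 6 := by
    have h1 : S.image (cls η X) ⊆ Fintype.piFinset (fun _ : Fin 6 => range (⌊1 / η⌋₊ + 1)) := by
      intro c hc
      obtain ⟨q, hq, rfl⟩ := mem_image.1 hc
      obtain ⟨a, -, n1, f1⟩ := hS q hq
      obtain ⟨g1, g2, g3⟩ := gi_small hη hX (Int.natAbs_ne_zero.2 a.n0) (n1.trans hle)
      obtain ⟨g5, g6, g7⟩ := gi_small hη hX (Int.natAbs_ne_zero.2 a.g0) (f1.trans hle)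
      rw [Fintype.mem_piFinset]
      intro i
      rw [mem_range]
      fin_cases i
      · exact g1
      · exact g2
      · exact g3
      · exact g5
      · exact g6
      · exact g7
    refine (card_le_card h1).trans ?_
    rw [Fintype.card_piFinset]
    simp
  have h9 := card_le_mul_card_image_real S (cls η X) _ hfib
  refine h9.trans ?_
  have h10 : ((S.image (cls η X)).card : ℝ) ≤ ((⌊1 / η⌋₊ + 1 : ℕ) : ℝ) ^ 6 := by
    exact_mod_cast himg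
  calc C1 * X ^ (2 / 3 - η) * ((S.image (cls η X)).card : ℝ)
      ≤ C1 * X ^ (2 / 3 - η) * ((⌊1 / η⌋₊ + 1 : ℕ) : ℝ) ^ 6 := by gcongr
    _ = _ := by ring

end Pool.Agent.T2h91.TI
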