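import Pool.Agent.T2h91.TI.Power
import Pool.Agent.T2h82.Rankin2

/-!
# Counting the pairs with small powerful parts
-/

set_option autoImplicit false

namespace Pool.Agent.T2h91.TI

open Finset
open Pool.Agent.H328R2.ABC (rad rad_pos)
open Pool.Agent.T2h82 (pw pw_pos pw_dvd s1 s1_pos s1_mul_pw s1_mul_rad_pw gp gp_nonneg sum_gp Pful
  pful_pw card_class mul_rad_eq)

/-- the size of a pair -/
def HH (q : ℤ × ℤ) : ℤ := max (|q.1| ^ 3) |q.2|

/-- the number of integers with cube at most `T` -/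
theorem card_cube_le (F : Finset ℤ) (T : ℝ) (hT : 1 ≤ T) (h : ∀ a ∈ F, |(a : ℝ)| ^ 3 ≤ T) :
    (F.card : ℝ) ≤ 3 * T ^ (1 / 3 : ℝ) := by
  have hT0 : 0 < T := by linarith
  set y : ℝ := T ^ (1 / 3 : ℝ) with hy
  have hy0 : 0 ≤ y := by positivity
  have hy3 : y ^ 3 = T := by
    rw [hy, ← Real.rpow_natCast, ← Real.rpow_mul hT0.le]
    norm_num
  have h1 : 1 ≤ y := Real.one_le_rpow hT (by norm_num)
  have h2 := card_class F 1 one_pos (-y) (2 * y) (by positivity) (fun a ha => by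
    have h3 : |(a : ℝ)| ≤ y := by
      refine le_of_pow_le_pow_left₀ (n := 3) (by norm_num) hy0 ?_
      rw [hy3]
      exact h a ha
    rw [abs_le] at h3
    constructor
    · exact h3.1
    · linarith [h3.2]) (fun y _ z _ => by simp)
  push_cast at h2
  linarith

/-- one row -/
theorem row (a : ℤ) (w z : ℕ) (hw : 0 < w) (hz : 0 < z) (hc : Nat.Coprime w z) (hz3 : ¬ 3 ∣ z)
    (Y : ℝ) (hY : 0 ≤ Y) (S : Finset ℤ)
    (h : ∀ n ∈ S, (w : ℤ) ∣ n ∧ (z : ℤ) ∣ gg (a, n) ∧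
      ((n.natAbs : ℝ) ≤ Y ∨ ((gg (a, n)).natAbs : ℝ) ≤ Y)) :
    (S.card : ℝ) ≤ 4 * (Y / ((w : ℝ) * z)) + 2 := by
  classical
  have hcl : ∀ y ∈ S, ∀ y' ∈ S, (((w * z : ℕ) : ℤ)) ∣ y - y' := by
    intro y hy y' hy'
    obtain ⟨h1, h2, -⟩ := h y hy
    obtain ⟨h1', h2', -⟩ := h y' hy'
    have h3 : (z : ℤ) ∣ 27 * (y - y') := by
      have : 27 * (y - y') = gg (a, y') - gg (a, y) := by
        unfold gg
        ring
      rw [this]
      exact dvd_sub h2' h2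
    have h4 : IsCoprime (z : ℤ) 27 := by
      refine (cop27 ?_).symm
      exact_mod_cast hz3
    have h5 : (z : ℤ) ∣ y - y' := h4.dvd_of_dvd_mul_left h3
    push_cast
    refine IsCoprime.mul_dvd ?_ (dvd_sub h1 h1') h5
    exact Nat.isCoprime_iff_coprime.2 hc
  have e1 := card_class (S.filter (fun n => ((n.natAbs : ℕ) : ℝ) ≤ Y)) (w * z)
    (Nat.mul_pos hw hz) (-Y) (2 * Y) (by positivity) (fun y hy => by
      have h6 := (mem_filter.1 hy).2
      rw [Nat.cast_natAbs] at h6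
      push_cast at h6
      rw [abs_le] at h6
      constructor <;> linarith [h6.1, h6.2])
    (fun y hy y' hy' => hcl y (mem_filter.1 hy).1 y' (mem_filter.1 hy').1)
  have e2 := card_class (S.filter (fun n => ¬ ((n.natAbs : ℕ) : ℝ) ≤ Y)) (w * z)
    (Nat.mul_pos hw hz) (((a : ℝ) ^ 3 - Y) / 27) (2 * Y) (by positivity) (fun y hy => by
      have h6 := (mem_filter.1 hy)
      have h7 := (h y h6.1).2.2
      rcases h7 with h7 | h7
      · exact absurd h7 h6.2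
      · rw [Nat.cast_natAbs] at h7
        unfold gg at h7
        push_cast at h7
        rw [abs_le] at h7
        constructor
        · linarith [h7.1, h7.2]
        · linarith [h7.1, h7.2])
    (fun y hy y' hy' => hcl y (mem_filter.1 hy).1 y' (mem_filter.1 hy').1)
  have e3 : (S.card : ℝ) = ((S.filter (fun n => ((n.natAbs : ℕ) : ℝ) ≤ Y)).card : ℝ) +
      ((S.filter (fun n => ¬ ((n.natAbs : ℕ) : ℝ) ≤ Y)).card : ℝ) := by
    exact_mod_cast (card_filter_add_card_filter_not (s := S)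
      (fun n : ℤ => ((n.natAbs : ℕ) : ℝ) ≤ Y)).symm
  push_cast at e1 e2
  rw [e3]
  have : 2 * Y / ((w : ℝ) * z) = 2 * (Y / ((w : ℝ) * z)) := by ring
  rw [this] at e1 e2
  linarith

theorem HH_le {q : ℤ × ℤ} : HH q ≤ 28 * max |q.2| |gg q| := by
  have h1 : q.1 ^ 3 = gg q + 27 * q.2 := by
    unfold gg
    ring
  have h2 := le_max_left |q.2| |gg q|
  have h3 := le_max_right |q.2| |gg q|
  have h6 := abs_nonneg q.2
  unfold HH
  refine max_le ?_ ?_
  · rw [← abs_pow, h1]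
    have h7 := abs_add_le (gg q) (27 * q.2)
    rw [abs_mul, abs_of_pos (by norm_num : (0 : ℤ) < 27)] at h7
    linarith
  · linarith

theorem cube_le_HH (q : ℤ × ℤ) : |(q.1 : ℝ)| ^ 3 ≤ ((HH q : ℤ) : ℝ) := by
  have e2 : |q.1| ^ 3 ≤ HH q := le_max_left _ _
  have e2' : ((|q.1| ^ 3 : ℤ) : ℝ) ≤ ((HH q : ℤ) : ℝ) := by exact_mod_cast e2
  push_cast at e2'
  exact e2'

theorem n_le_HH (q : ℤ × ℤ) : (q.2.natAbs : ℝ) ≤ ((HH q : ℤ) : ℝ) := by
  have e2 : |q.2| ≤ HH q := le_max_right _ _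
  have e2' : ((|q.2| : ℤ) : ℝ) ≤ ((HH q : ℤ) : ℝ) := by exact_mod_cast e2
  rw [Nat.cast_natAbs]
  exact e2'

theorem HH_le_max (q : ℤ × ℤ) :
    ((HH q : ℤ) : ℝ) ≤ 28 * max (q.2.natAbs : ℝ) ((gg q).natAbs : ℝ) := by
  have e2 : ((HH q : ℤ) : ℝ) ≤ ((28 * max |q.2| |gg q| : ℤ) : ℝ) := by
    exact_mod_cast HH_le
  push_cast at e2
  rw [Nat.cast_natAbs, Nat.cast_natAbs]
  push_cast
  exact e2

theorem g_le_HH (q : ℤ × ℤ) : ((gg q).natAbs : ℝ) ≤ 28 * ((HH q : ℤ) : ℝ) := by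
  have h1 := cube_le_HH q
  have h2 := n_le_HH q
  rw [Nat.cast_natAbs] at h2 ⊢
  push_cast at h2 ⊢
  unfold gg
  push_cast
  have h3 := abs_sub (((q.1 : ℝ)) ^ 3) (27 * (q.2 : ℝ))
  rw [abs_pow, abs_mul, abs_of_pos (by norm_num : (0 : ℝ) < 27)] at h3
  linarith

/-- one block with given powerful parts -/
theorem blk (T Q : ℝ) (hT : 1 ≤ T) (s : ℝ) (hs0 : 0 ≤ s) (hs1 : s ≤ 1) (hQ : 0 < Q) (w z : ℕ)
    (hw : 0 < w) (hz : 0 < z)
    (S : Finset (ℤ × ℤ)) (h : ∀ q ∈ S, q.2 ≠ 0 ∧ ¬ (3 : ℤ) ∣ gg q ∧ IsCoprime q.2 (gg q) ∧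
      pw q.2.natAbs = w ∧ pw (gg q).natAbs = z ∧ T < HH q ∧ ((HH q : ℤ) : ℝ) ≤ 2 * T ∧
      (q.2.natAbs : ℝ) * (gg q).natAbs ≤ Q) :
    (S.card : ℝ) ≤ 3 * (2 * T) ^ (1 / 3 : ℝ) *
      (112 * (T ^ (1 - 2 * s) * Q ^ s / ((w : ℝ) * z)) + 2) := by
  classical
  have hT0 : 0 < T := by linarith
  rcases S.eq_empty_or_nonempty with h0 | ⟨q0, hq0⟩
  · rw [h0, card_empty]
    push_cast
    positivity
  obtain ⟨g1, g2, g3, g4, g5, -, -, -⟩ := h q0 hq0
  have gf : gg q0 ≠ 0 := by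
    intro h1
    rw [h1] at g2
    exact g2 (dvd_zero _)
  have hdw : w ∣ q0.2.natAbs := by
    rw [← g4]
    exact pw_dvd (by omega)
  have hdz : z ∣ (gg q0).natAbs := by
    rw [← g5]
    exact pw_dvd (by omega)
  have hcop : Nat.Coprime w z := by
    have : Nat.Coprime q0.2.natAbs (gg q0).natAbs := Int.isCoprime_iff_gcd_eq_one.1 g3
    exact Nat.Coprime.of_dvd hdw hdz this
  have hzo : ¬ 3 ∣ z := by
    intro h3
    apply g2
    have : (3 : ℕ) ∣ (gg q0).natAbs := h3.trans hdz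
    exact Int.natCast_dvd.2 this
  set Y : ℝ := 28 * (T ^ (1 - 2 * s) * Q ^ s) with hY
  have hY0 : 0 < Y := by positivity
  have hmin : ∀ q ∈ S, (q.2.natAbs : ℝ) ≤ Y ∨ ((gg q).natAbs : ℝ) ≤ Y := by
    intro q hq
    obtain ⟨h1, h2, h3, -, -, h6, h7, h8⟩ := h q hq
    have hf0 : gg q ≠ 0 := by
      intro h1
      rw [h1] at h2
      exact h2 (dvd_zero _)
    have e1 : (T : ℝ) < 28 * max (q.2.natAbs : ℝ) ((gg q).natAbs : ℝ) := by
      have := HH_le_max q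
      linarith
    have e3 : ((q.2.natAbs : ℕ) : ℝ) ≤ 2 * T := (n_le_HH q).trans h7
    have hn1 : (0 : ℝ) < q.2.natAbs := by exact_mod_cast (by omega : 0 < q.2.natAbs)
    have hf1 : (0 : ℝ) < (gg q).natAbs := by exact_mod_cast (by omega : 0 < (gg q).natAbs)
    set u : ℝ := (q.2.natAbs : ℝ) with hu
    set v : ℝ := ((gg q).natAbs : ℝ) with hv
    have hmm : min u v * max u v ≤ Q := by
      rw [min_mul_max]
      exact h8
    have hmn : 0 < min u v := lt_min hn1 hf1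
    have b1 : min u v ≤ 28 * (Q / T) := by
      rw [← mul_div_assoc, le_div_iff₀ hT0]
      have : min u v * T ≤ min u v * (28 * max u v) := by
        gcongr
      linarith
    have b2 : min u v ≤ 28 * T := by
      have := min_le_left u v
      linarith
    have b3 : min u v ≤ Y := by
      have c1 : min u v / 28 ≤ T := by
        rw [div_le_iff₀ (by norm_num)]
        linarith
      have c2 : min u v / 28 ≤ Q / T := by
        rw [div_le_iff₀ (by norm_num)]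
        linarith
      have c0 : 0 < min u v / 28 := by positivity
      have c3 : min u v / 28 ≤ T ^ (1 - s) * (Q / T) ^ s := by
        calc min u v / 28 = (min u v / 28) ^ (1 - s) * (min u v / 28) ^ s := by
              rw [← Real.rpow_add c0]
              simp
          _ ≤ T ^ (1 - s) * (Q / T) ^ s := by
              apply mul_le_mul
              · exact Real.rpow_le_rpow c0.le c1 (by linarith)
              · exact Real.rpow_le_rpow c0.le c2 hs0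
              · positivity
              · positivity
      have c4 : T ^ (1 - s) * (Q / T) ^ s = T ^ (1 - 2 * s) * Q ^ s := by
        rw [Real.div_rpow hQ.le hT0.le, mul_div_assoc', div_eq_iff (by positivity)]
        have : T ^ (1 - s) = T ^ (1 - 2 * s) * T ^ s := by
          rw [← Real.rpow_add hT0]
          congr 1
          ring
        rw [this]
        ring
      rw [c4] at c3
      rw [hY]
      rw [div_le_iff₀ (by norm_num)] at c3
      linarith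
    rcases min_choice u v with hm | hm
    · left
      rw [← hm]
      exact b3
    · right
      rw [← hm]
      exact b3
  -- fibres over a
  have hfib : ∀ a ∈ S.image Prod.fst, ((S.filter (fun q => q.1 = a)).card : ℝ) ≤
      4 * (Y / ((w : ℝ) * z)) + 2 := by
    intro a _
    have e1 : (S.filter (fun q => q.1 = a)).card =
        ((S.filter (fun q => q.1 = a)).image Prod.snd).card := by
      rw [card_image_of_injOn]
      intro q hq q' hq' hqq
      rw [mem_coe, mem_filter] at hq hq'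
      exact Prod.ext (hq.2.trans hq'.2.symm) hqq
    rw [e1]
    refine row a w z hw hz hcop hzo Y hY0.le _ ?_
    intro n hn
    rw [mem_image] at hn
    obtain ⟨q, hq, rfl⟩ := hn
    rw [mem_filter] at hq
    obtain ⟨h1, h2, h3, h4, h5, h6, h7, h8⟩ := h q hq.1
    have hf0 : gg q ≠ 0 := by
      intro h1
      rw [h1] at h2
      exact h2 (dvd_zero _)
    have eq : (a, q.2) = q := Prod.ext hq.2.symm rfl
    refine ⟨?_, ?_, ?_⟩
    · have := pw_dvd (n := q.2.natAbs) (by omega)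
      rw [h4] at this
      exact Int.natCast_dvd.2 this
    · rw [eq]
      have := pw_dvd (n := (gg q).natAbs) (by omega)
      rw [h5] at this
      exact Int.natCast_dvd.2 this
    · rw [eq]
      exact hmin q hq.1
  have himg : ((S.image Prod.fst).card : ℝ) ≤ 3 * (2 * T) ^ (1 / 3 : ℝ) := by
    refine card_cube_le _ (2 * T) (by linarith) ?_
    intro a ha
    rw [mem_image] at ha
    obtain ⟨q, hq, rfl⟩ := ha
    obtain ⟨-, -, -, -, -, -, h7, -⟩ := h q hq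
    exact (cube_le_HH q).trans h7
  have hcard : (S.card : ℝ) = ∑ a ∈ S.image Prod.fst, ((S.filter (fun q => q.1 = a)).card : ℝ) := by
    rw [card_eq_sum_card_image Prod.fst S]
    push_cast
    rfl
  rw [hcard]
  calc ∑ a ∈ S.image Prod.fst, ((S.filter (fun q => q.1 = a)).card : ℝ)
      ≤ ∑ a ∈ S.image Prod.fst, (4 * (Y / ((w : ℝ) * z)) + 2) := sum_le_sum hfib
    _ = ((S.image Prod.fst).card : ℝ) * (4 * (Y / ((w : ℝ) * z)) + 2) := by
        rw [sum_const, nsmul_eq_mul]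
    _ ≤ 3 * (2 * T) ^ (1 / 3 : ℝ) * (4 * (Y / ((w : ℝ) * z)) + 2) := by
        apply mul_le_mul_of_nonneg_right himg
        positivity
    _ = _ := by
        rw [hY]
        ring

theorem dyad (s : ℝ) (hs0 : 0 ≤ s) (hs1 : s < 1) : ∃ C : ℝ, 0 < C ∧ ∀ X T W : ℝ, 0 < X → 1 ≤ T →
    1 ≤ W → ∀ S : Finset (ℤ × ℤ), (∀ q ∈ S, Ad X q ∧ T < HH q ∧ ((HH q : ℤ) : ℝ) ≤ 2 * T ∧
      (pw q.2.natAbs : ℝ) ≤ W ∧ (pw (gg q).natAbs : ℝ) ≤ W) →
    (S.card : ℝ) ≤ C * (X ^ s * T ^ (4 / 3 - 2 * s) + T ^ (1 / 3 : ℝ) * W ^ 2) := by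
  classical
  obtain ⟨C, hC, hsum⟩ := sum_gp s hs1
  refine ⟨3 * 2 ^ (1 / 3 : ℝ) * (112 * C ^ 2 + 2), by positivity, ?_⟩
  intro X T W hX hT hW S hS
  have hT0 : 0 < T := by linarith
  set P : Finset ℕ := Icc 1 ⌊W⌋₊ with hP
  have hfib : ∀ p ∈ P ×ˢ P, ((S.filter (fun q => (pw q.2.natAbs, pw (gg q).natAbs) = p)).card : ℝ) ≤
      3 * (2 * T) ^ (1 / 3 : ℝ) *
        (112 * (T ^ (1 - 2 * s) * X ^ s * (gp s p.1 * gp s p.2)) + 2) := by
    rintro ⟨w, z⟩ hp
    rw [mem_product, hP, mem_Icc, mem_Icc] at hp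
    obtain ⟨⟨hw, -⟩, ⟨hz, -⟩⟩ := hp
    rcases (S.filter (fun q => (pw q.2.natAbs, pw (gg q).natAbs) = (w, z))).eq_empty_or_nonempty
      with h0 | ⟨q0, hq0⟩
    · rw [h0, card_empty]
      have := gp_nonneg s w
      have := gp_nonneg s z
      push_cast
      positivity
    have hw0 : (0 : ℝ) < w := by exact_mod_cast hw
    have hz0 : (0 : ℝ) < z := by exact_mod_cast hz
    have hrw : (0 : ℝ) < rad w := by exact_mod_cast rad_pos w
    have hrz : (0 : ℝ) < rad z := by exact_mod_cast rad_pos z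
    set Q : ℝ := X * (w / rad w) * (z / rad z) with hQ
    have hQ0 : 0 < Q := by positivity
    have hb := blk T Q hT s hs0 hs1.le hQ0 w z hw hz
      (S.filter (fun q => (pw q.2.natAbs, pw (gg q).natAbs) = (w, z))) (by
        intro q hq
        rw [mem_filter, Prod.mk.injEq] at hq
        obtain ⟨hq1, hq2, hq3⟩ := hq
        obtain ⟨ha, h2, h3, -, -⟩ := hS q hq1
        refine ⟨ha.n0, ha.n3g, ha.cop_ng, hq2, hq3, h2, h3, ?_⟩
        have e1 := mul_rad_eq (n := q.2.natAbs) (by have := ha.n0; omega)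
        have e2 := mul_rad_eq (n := (gg q).natAbs) (by have := ha.g0; omega)
        rw [hq2] at e1
        rw [hq3] at e2
        have e1' : (q.2.natAbs : ℝ) * rad w = rad q.2.natAbs * w := by exact_mod_cast e1
        have e2' : ((gg q).natAbs : ℝ) * rad z = rad (gg q).natAbs * z := by exact_mod_cast e2
        have e3 : (q.2.natAbs : ℝ) = rad q.2.natAbs * (w / rad w) := by
          rw [mul_div_assoc', eq_div_iff hrw.ne']
          exact e1'
        have e4 : ((gg q).natAbs : ℝ) = rad (gg q).natAbs * (z / rad z) := by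
          rw [mul_div_assoc', eq_div_iff hrz.ne']
          exact e2'
        calc (q.2.natAbs : ℝ) * (gg q).natAbs
            = (rad q.2.natAbs * rad (gg q).natAbs) * ((w / rad w) * (z / rad z)) := by
              rw [e4]
              conv_lhs => rw [e3]
              ring
          _ ≤ X * ((w / rad w) * (z / rad z)) := by
              apply mul_le_mul_of_nonneg_right ha.rad_le
              positivity
          _ = Q := by
              rw [hQ]
              ring)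
    refine hb.trans (le_of_eq ?_)
    rw [mem_filter, Prod.mk.injEq] at hq0
    obtain ⟨hq1, hq2, hq3⟩ := hq0
    obtain ⟨ha, -⟩ := hS q0 hq1
    have pfw : Pful w := by
      rw [← hq2]
      exact pful_pw (by have := ha.n0; omega)
    have pfz : Pful z := by
      rw [← hq3]
      exact pful_pw (by have := ha.g0; omega)
    have e5 : Q ^ s / ((w : ℝ) * z) = X ^ s * (gp s w * gp s z) := by
      unfold gp
      rw [if_pos pfw, if_pos pfz, hQ, Real.mul_rpow (by positivity) (by positivity),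
        Real.mul_rpow (by positivity) (by positivity), Real.div_rpow hw0.le hrw.le,
        Real.div_rpow hz0.le hrz.le, Real.rpow_sub_one hw0.ne', Real.rpow_sub_one hz0.ne',
        Real.rpow_neg hrw.le, Real.rpow_neg hrz.le]
      field_simp
    congr 1
    congr 1
    congr 1
    calc T ^ (1 - 2 * s) * Q ^ s / ((w : ℝ) * z) = T ^ (1 - 2 * s) * (Q ^ s / ((w : ℝ) * z)) := by
          ring
      _ = _ := by
          rw [e5]
          ring
  have hmap : ∀ q ∈ S, (pw q.2.natAbs, pw (gg q).natAbs) ∈ P ×ˢ P := by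
    intro q hq
    obtain ⟨-, -, -, h4, h5⟩ := hS q hq
    rw [mem_product, hP, mem_Icc, mem_Icc]
    exact ⟨⟨pw_pos _, Nat.le_floor h4⟩, ⟨pw_pos _, Nat.le_floor h5⟩⟩
  have hcard : (S.card : ℝ) =
      ∑ p ∈ P ×ˢ P, ((S.filter (fun q => (pw q.2.natAbs, pw (gg q).natAbs) = p)).card : ℝ) := by
    exact_mod_cast card_eq_sum_card_fiberwise hmap
  have hPW : (P.card : ℝ) ≤ W := by
    rw [hP, Nat.card_Icc]
    have := Nat.floor_le (by linarith : 0 ≤ W)
    simpa using this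
  have hPs := hsum P (by
    intro n hn
    rw [hP, mem_Icc] at hn
    omega)
  have hP0 : 0 ≤ ∑ n ∈ P, gp s n := sum_nonneg (fun n _ => gp_nonneg s n)
  have h2T : (2 * T) ^ (1 / 3 : ℝ) = 2 ^ (1 / 3 : ℝ) * T ^ (1 / 3 : ℝ) :=
    Real.mul_rpow (by norm_num) hT0.le
  have hTs : (2 * T) ^ (1 / 3 : ℝ) * T ^ (1 - 2 * s) = 2 ^ (1 / 3 : ℝ) * T ^ (4 / 3 - 2 * s) := by
    rw [h2T, mul_assoc, ← Real.rpow_add hT0]
    congr 2
    ring
  rw [hcard]
  calc ∑ p ∈ P ×ˢ P, ((S.filter (fun q => (pw q.2.natAbs, pw (gg q).natAbs) = p)).card : ℝ)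
      ≤ ∑ p ∈ P ×ˢ P,
        3 * (2 * T) ^ (1 / 3 : ℝ) * (112 * (T ^ (1 - 2 * s) * X ^ s * (gp s p.1 * gp s p.2)) + 2) :=
        sum_le_sum hfib
    _ = 3 * (2 * T) ^ (1 / 3 : ℝ) *
          (112 * (T ^ (1 - 2 * s) * X ^ s * ((∑ n ∈ P, gp s n) * ∑ n ∈ P, gp s n)) +
          2 * ((P.card : ℝ) * P.card)) := by
        rw [← mul_sum, sum_add_distrib, ← mul_sum, ← mul_sum, sum_mul_sum, ← sum_product',
          sum_const, card_product, nsmul_eq_mul]
        push_cast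
        ring
    _ ≤ 3 * (2 * T) ^ (1 / 3 : ℝ) * (112 * (T ^ (1 - 2 * s) * X ^ s * (C * C)) + 2 * (W * W)) := by
        gcongr
    _ = 336 * C ^ 2 * X ^ s * ((2 * T) ^ (1 / 3 : ℝ) * T ^ (1 - 2 * s)) +
          6 * (2 * T) ^ (1 / 3 : ℝ) * W ^ 2 := by ring
    _ = 3 * 2 ^ (1 / 3 : ℝ) * (112 * C ^ 2 * (X ^ s * T ^ (4 / 3 - 2 * s)) +
          2 * (T ^ (1 / 3 : ℝ) * W ^ 2)) := by
        rw [hTs, h2T]
        ring
    _ ≤ _ := by
        have h1 : 0 ≤ X ^ s * T ^ (4 / 3 - 2 * s) := by positivity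
        have h2 : 0 ≤ T ^ (1 / 3 : ℝ) * W ^ 2 := by positivity
        have h3 : 112 * C ^ 2 * (X ^ s * T ^ (4 / 3 - 2 * s)) + 2 * (T ^ (1 / 3 : ℝ) * W ^ 2) ≤
            (112 * C ^ 2 + 2) * (X ^ s * T ^ (4 / 3 - 2 * s) + T ^ (1 / 3 : ℝ) * W ^ 2) := by
          nlinarith [sq_nonneg C, mul_nonneg (sq_nonneg C) h2]
        calc 3 * 2 ^ (1 / 3 : ℝ) * (112 * C ^ 2 * (X ^ s * T ^ (4 / 3 - 2 * s)) +
              2 * (T ^ (1 / 3 : ℝ) * W ^ 2))
            ≤ 3 * 2 ^ (1 / 3 : ℝ) *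
              ((112 * C ^ 2 + 2) * (X ^ s * T ^ (4 / 3 - 2 * s) + T ^ (1 / 3 : ℝ) * W ^ 2)) := by
              gcongr
          _ = _ := by ring

/-- the pairs with small powerful parts and `T0 < H ≤ T1` -/
theorem rankin (s : ℝ) (hs0 : 2 / 3 < s) (hs1 : s < 1) : ∃ C : ℝ, 0 < C ∧
    ∀ X T0 T1 W : ℝ, 0 < X → 1 ≤ T0 → T0 ≤ T1 →
    1 ≤ W → ∀ S : Finset (ℤ × ℤ), (∀ q ∈ S, Ad X q ∧ T0 < HH q ∧ ((HH q : ℤ) : ℝ) ≤ T1 ∧
      (pw q.2.natAbs : ℝ) ≤ W ∧ (pw (gg q).natAbs : ℝ) ≤ W) →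
    (S.card : ℝ) ≤ C * (X ^ s * T0 ^ (4 / 3 - 2 * s) + T1 ^ (1 / 3 : ℝ) * W ^ 2) := by
  classical
  obtain ⟨C, hC, hd⟩ := dyad s (by linarith) hs1
  set r : ℝ := 2 ^ (4 / 3 - 2 * s) with hr
  have hr0 : 0 < r := by positivity
  have hr1 : r < 1 := Real.rpow_lt_one_of_one_lt_of_neg (by norm_num) (by linarith)
  have hr2 : 0 < 1 - r := by linarith
  set t : ℝ := 2 ^ (1 / 3 : ℝ) with ht
  have ht1 : 1 < t := Real.one_lt_rpow (by norm_num) (by norm_num)
  have ht2 : 0 < t - 1 := by linarith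
  have htJ : ∀ (J : ℕ) (T : ℝ), 0 < T → (2 ^ J * T) ^ (1 / 3 : ℝ) = t ^ J * T ^ (1 / 3 : ℝ) := by
    intro J T hT
    rw [Real.mul_rpow (by positivity) hT.le, ht, ← Real.rpow_natCast (2 : ℝ) J,
      ← Real.rpow_natCast ((2 : ℝ) ^ (1 / 3 : ℝ)) J, ← Real.rpow_mul (by norm_num),
      ← Real.rpow_mul (by norm_num), mul_comm (J : ℝ)]
  refine ⟨C * ((1 - r)⁻¹ + t * (t - 1)⁻¹), by positivity, ?_⟩
  intro X T0 T1 W hX hT0 hT1 hW
  have hT00 : 0 < T0 := by linarith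
  have key : ∀ J : ℕ, ∀ S : Finset (ℤ × ℤ), (∀ q ∈ S, Ad X q ∧ T0 < HH q ∧
      ((HH q : ℤ) : ℝ) ≤ 2 ^ J * T0 ∧
      (pw q.2.natAbs : ℝ) ≤ W ∧ (pw (gg q).natAbs : ℝ) ≤ W) →
      (S.card : ℝ) ≤ C * (X ^ s * T0 ^ (4 / 3 - 2 * s) * ((1 - r ^ J) * (1 - r)⁻¹) +
        T0 ^ (1 / 3 : ℝ) * W ^ 2 * ((t ^ J - 1) * (t - 1)⁻¹)) := by
    intro J
    induction J with
    | zero =>
      intro S hS
      have h0 : S = ∅ := by
        rw [eq_empty_iff_forall_notMem]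
        intro q hq
        obtain ⟨-, h1, h2, -⟩ := hS q hq
        rw [pow_zero, one_mul] at h2
        linarith
      rw [h0, card_empty]
      simp
    | succ J ih =>
      intro S hS
      have e1 := ih (S.filter (fun q => ((HH q : ℤ) : ℝ) ≤ 2 ^ J * T0)) (by
        intro q hq
        rw [mem_filter] at hq
        obtain ⟨h1, h2, -, h4, h5⟩ := hS q hq.1
        exact ⟨h1, h2, hq.2, h4, h5⟩)
      have e2 := hd X (2 ^ J * T0) W hX (by
        have : (1 : ℝ) ≤ 2 ^ J := one_le_pow₀ (by norm_num)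
        nlinarith) hW (S.filter (fun q => ¬ ((HH q : ℤ) : ℝ) ≤ 2 ^ J * T0)) (by
        intro q hq
        rw [mem_filter, not_le] at hq
        obtain ⟨h1, h2, h3, h4, h5⟩ := hS q hq.1
        refine ⟨h1, hq.2, ?_, h4, h5⟩
        rw [pow_succ] at h3
        linarith)
      have e3 : (S.card : ℝ) = ((S.filter (fun q => ((HH q : ℤ) : ℝ) ≤ 2 ^ J * T0)).card : ℝ) +
          ((S.filter (fun q => ¬ ((HH q : ℤ) : ℝ) ≤ 2 ^ J * T0)).card : ℝ) := by
        exact_mod_cast (card_filter_add_card_filter_not (s := S)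
          (fun q : ℤ × ℤ => ((HH q : ℤ) : ℝ) ≤ 2 ^ J * T0)).symm
      have e4 : ((2 : ℝ) ^ J * T0) ^ (4 / 3 - 2 * s) = r ^ J * T0 ^ (4 / 3 - 2 * s) := by
        rw [Real.mul_rpow (by positivity) hT00.le, hr, ← Real.rpow_natCast (2 : ℝ) J,
          ← Real.rpow_natCast ((2 : ℝ) ^ (4 / 3 - 2 * s)) J, ← Real.rpow_mul (by norm_num),
          ← Real.rpow_mul (by norm_num), mul_comm (J : ℝ)]
      rw [e4, htJ J T0 hT00] at e2
      rw [e3]
      refine (add_le_add e1 e2).trans (le_of_eq ?_)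
      have f1 : (1 - r ^ (J + 1)) * (1 - r)⁻¹ = (1 - r ^ J) * (1 - r)⁻¹ + r ^ J := by
        field_simp
        ring
      have f2 : (t ^ (J + 1) - 1) * (t - 1)⁻¹ = (t ^ J - 1) * (t - 1)⁻¹ + t ^ J := by
        field_simp
        ring
      rw [f1, f2]
      ring
  intro S hS
  -- choose J
  have hex : ∃ J : ℕ, T1 ≤ 2 ^ J * T0 := by
    obtain ⟨J, hJ⟩ := pow_unbounded_of_one_lt (T1 / T0) (by norm_num : (1 : ℝ) < 2)
    refine ⟨J, ?_⟩
    rw [div_lt_iff₀ hT00] at hJ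
    exact hJ.le
  obtain ⟨J, hJ, hJm⟩ : ∃ J : ℕ, T1 ≤ 2 ^ J * T0 ∧ 2 ^ J * T0 ≤ 2 * T1 := by
    classical
    refine ⟨Nat.find hex, Nat.find_spec hex, ?_⟩
    rcases Nat.eq_zero_or_pos (Nat.find hex) with h0 | h0
    · rw [h0, pow_zero, one_mul]
      linarith
    · have := Nat.find_min hex (m := Nat.find hex - 1) (by omega)
      push Not at this
      have h1 : Nat.find hex = (Nat.find hex - 1) + 1 := by omega
      rw [h1, pow_succ]
      linarith
  have hk := key J S (fun q hq => by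
    obtain ⟨h1, h2, h3, h4, h5⟩ := hS q hq
    exact ⟨h1, h2, h3.trans hJ, h4, h5⟩)
  refine hk.trans ?_
  have hT10 : 0 < T1 := by linarith
  have g1 : (1 - r ^ J) * (1 - r)⁻¹ ≤ (1 - r)⁻¹ := by
    have : 0 ≤ (1 - r)⁻¹ := by positivity
    have h2 : 0 < r ^ J := by positivity
    nlinarith
  have g2 : T0 ^ (1 / 3 : ℝ) * ((t ^ J - 1) * (t - 1)⁻¹) ≤ T1 ^ (1 / 3 : ℝ) * (t * (t - 1)⁻¹) := by
    have h1 : T0 ^ (1 / 3 : ℝ) * t ^ J ≤ t * T1 ^ (1 / 3 : ℝ) := by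
      have e1 : T0 ^ (1 / 3 : ℝ) * t ^ J = (2 ^ J * T0) ^ (1 / 3 : ℝ) := by
        rw [htJ J T0 hT00, mul_comm]
      have e2 : t * T1 ^ (1 / 3 : ℝ) = (2 * T1) ^ (1 / 3 : ℝ) := by
        rw [Real.mul_rpow (by norm_num) hT10.le]
      rw [e1, e2]
      exact Real.rpow_le_rpow (by positivity) hJm (by norm_num)
    have h2 : 0 ≤ T0 ^ (1 / 3 : ℝ) := by positivity
    have h3 : 0 < (t - 1)⁻¹ := by positivity
    calc T0 ^ (1 / 3 : ℝ) * ((t ^ J - 1) * (t - 1)⁻¹) =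
          (T0 ^ (1 / 3 : ℝ) * t ^ J - T0 ^ (1 / 3 : ℝ)) * (t - 1)⁻¹ := by ring
      _ ≤ (t * T1 ^ (1 / 3 : ℝ)) * (t - 1)⁻¹ := by
          apply mul_le_mul_of_nonneg_right _ h3.le
          linarith
      _ = _ := by ring
  have p1 : 0 ≤ X ^ s * T0 ^ (4 / 3 - 2 * s) := by positivity
  have p2 : 0 ≤ T1 ^ (1 / 3 : ℝ) * W ^ 2 := by positivity
  have p3 : 0 ≤ (1 - r)⁻¹ := by positivity
  have p4 : 0 ≤ t * (t - 1)⁻¹ := by positivity
  calc C * (X ^ s * T0 ^ (4 / 3 - 2 * s) * ((1 - r ^ J) * (1 - r)⁻¹) +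
        T0 ^ (1 / 3 : ℝ) * W ^ 2 * ((t ^ J - 1) * (t - 1)⁻¹))
      = C * (X ^ s * T0 ^ (4 / 3 - 2 * s) * ((1 - r ^ J) * (1 - r)⁻¹) +
        (T0 ^ (1 / 3 : ℝ) * ((t ^ J - 1) * (t - 1)⁻¹)) * W ^ 2) := by ring
    _ ≤ C * (X ^ s * T0 ^ (4 / 3 - 2 * s) * (1 - r)⁻¹ +
          (T1 ^ (1 / 3 : ℝ) * (t * (t - 1)⁻¹)) * W ^ 2) := by
        gcongr
    _ = C * ((X ^ s * T0 ^ (4 / 3 - 2 * s)) * (1 - r)⁻¹ +
          (T1 ^ (1 / 3 : ℝ) * W ^ 2) * (t * (t - 1)⁻¹)) := by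
        ring
    _ ≤ C * ((X ^ s * T0 ^ (4 / 3 - 2 * s)) * ((1 - r)⁻¹ + t * (t - 1)⁻¹) +
          (T1 ^ (1 / 3 : ℝ) * W ^ 2) * ((1 - r)⁻¹ + t * (t - 1)⁻¹)) := by
        gcongr
        · linarith
        · linarith
    _ = _ := by ring

end Pool.Agent.T2h91.TI
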