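import Pool.Agent.T2h91.TI.Rankin
import Pool.Agent.T2h82.Triv

/-!
# The elementary counts of pairs
-/

set_option autoImplicit false

namespace Pool.Agent.T2h91.TI

open Finset
open Pool.Agent.H328R2.ABC (rad rad_pos)
open Pool.Agent.T2h82 (pw pw_pos pw_dvd sr sr_pos sr_sq_dvd pw_le_sr card_sr card_natAbs card_class)

theorem card_rows (S : Finset (ℤ × ℤ)) (T B : ℝ) (hT : 1 ≤ T) (hB : 0 ≤ B)
    (h : ∀ q ∈ S, ((HH q : ℤ) : ℝ) ≤ T)
    (hr : ∀ a : ℤ, (((S.filter (fun q => q.1 = a)).image Prod.snd).card : ℝ) ≤ B) :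
    (S.card : ℝ) ≤ 3 * T ^ (1 / 3 : ℝ) * B := by
  classical
  have himg : ((S.image Prod.fst).card : ℝ) ≤ 3 * T ^ (1 / 3 : ℝ) := by
    refine card_cube_le _ T hT ?_
    intro a ha
    rw [mem_image] at ha
    obtain ⟨q, hq, rfl⟩ := ha
    exact (cube_le_HH q).trans (h q hq)
  have hcard : (S.card : ℝ) = ∑ a ∈ S.image Prod.fst, ((S.filter (fun q => q.1 = a)).card : ℝ) := by
    rw [card_eq_sum_card_image Prod.fst S]
    push_cast
    rfl
  rw [hcard]
  calc ∑ a ∈ S.image Prod.fst, ((S.filter (fun q => q.1 = a)).card : ℝ)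
      ≤ ∑ a ∈ S.image Prod.fst, B := by
        refine sum_le_sum (fun a _ => ?_)
        refine le_trans (le_of_eq ?_) (hr a)
        rw [card_image_of_injOn]
        intro q hq q' hq' hqq
        rw [mem_coe, mem_filter] at hq hq'
        exact Prod.ext (hq.2.trans hq'.2.symm) hqq
    _ = ((S.image Prod.fst).card : ℝ) * B := by
        rw [sum_const, nsmul_eq_mul]
    _ ≤ _ := mul_le_mul_of_nonneg_right himg hB

/-- pairs with a small entry -/
theorem small (S : Finset (ℤ × ℤ)) (T Y : ℝ) (hT : 1 ≤ T) (hY : 0 ≤ Y)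
    (h : ∀ q ∈ S, ((HH q : ℤ) : ℝ) ≤ T ∧ ((q.2.natAbs : ℝ) ≤ Y ∨ ((gg q).natAbs : ℝ) ≤ Y)) :
    (S.card : ℝ) ≤ 3 * T ^ (1 / 3 : ℝ) * (4 * Y + 2) := by
  classical
  refine card_rows S T _ hT (by positivity) (fun q hq => (h q hq).1) (fun a => ?_)
  have := row a 1 1 one_pos one_pos (by simp) (by norm_num) Y hY
    ((S.filter (fun q => q.1 = a)).image Prod.snd) (by
      intro n hn
      rw [mem_image] at hn
      obtain ⟨q, hq, rfl⟩ := hn
      rw [mem_filter] at hq
      have eq : (a, q.2) = q := Prod.ext hq.2.symm rfl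
      refine ⟨by simp, by simp, ?_⟩
      rw [eq]
      exact (h q hq.1).2)
  simpa using this

theorem third_mul (T : ℝ) (hT : 0 < T) : T ^ (4 / 3 : ℝ) = T ^ (1 / 3 : ℝ) * T := by
  rw [← Real.rpow_add_one hT.ne']
  norm_num

/-- pairs of small size -/
theorem triv (S : Finset (ℤ × ℤ)) (T : ℝ) (hT : 1 ≤ T)
    (h : ∀ q ∈ S, ((HH q : ℤ) : ℝ) ≤ T) : (S.card : ℝ) ≤ 18 * T ^ (4 / 3 : ℝ) := by
  have hT0 : 0 < T := by linarith
  have h1 := small S T T hT (by linarith) (fun q hq => ⟨h q hq, Or.inl ((n_le_HH q).trans (h q hq))⟩)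
  rw [third_mul T hT0]
  refine h1.trans ?_
  have : 0 ≤ T ^ (1 / 3 : ℝ) := by positivity
  nlinarith

/-- pairs with a large powerful part -/
theorem bigpw (S : Finset (ℤ × ℤ)) (T D W : ℝ) (hT : 1 ≤ T) (hD : 0 < D) (hW : D ^ 3 ≤ W)
    (h : ∀ q ∈ S, q.2 ≠ 0 ∧ gg q ≠ 0 ∧ ((HH q : ℤ) : ℝ) ≤ T ∧
      (W < (pw q.2.natAbs : ℝ) ∨ W < (pw (gg q).natAbs : ℝ))) :
    (S.card : ℝ) ≤ 672 * T ^ (4 / 3 : ℝ) / D := by
  classical
  have hT0 : 0 < T := by linarith
  set M : ℕ := ⌊28 * T⌋₊ with hM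
  have hsr : ∀ n : ℕ, W < (pw n : ℝ) → D < (sr n : ℝ) := by
    intro n hn
    have h1 : ((pw n : ℕ) : ℝ) ≤ (sr n : ℝ) ^ 3 := by exact_mod_cast pw_le_sr n
    have h2 : D ^ 3 < (sr n : ℝ) ^ 3 := by linarith
    exact lt_of_pow_lt_pow_left₀ 3 (by positivity) h2
  have hB := card_sr M D hD
  set Bs := (Icc 1 M).filter (fun v => D < (sr v : ℝ)) with hBs
  have hMT : (M : ℝ) ≤ 28 * T := Nat.floor_le (by positivity)
  have hB2 : (Bs.card : ℝ) ≤ 56 * T / D := by
    exact hB.trans (div_le_div_of_nonneg_right (by linarith) hD.le)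
  have hrow := card_rows S T (4 * (56 * T / D)) hT (by positivity) (fun q hq => (h q hq).2.2.1)
    (fun a => by
      set R := (S.filter (fun q => q.1 = a)).image Prod.snd with hR
      have hmem : ∀ n ∈ R, n ≠ 0 ∧ gg (a, n) ≠ 0 ∧ (n.natAbs : ℝ) ≤ 28 * T ∧
          ((gg (a, n)).natAbs : ℝ) ≤ 28 * T ∧
          (W < (pw n.natAbs : ℝ) ∨ W < (pw (gg (a, n)).natAbs : ℝ)) := by
        intro n hn
        rw [hR, mem_image] at hn
        obtain ⟨q, hq, rfl⟩ := hn
        rw [mem_filter] at hq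
        have eq : (a, q.2) = q := Prod.ext hq.2.symm rfl
        obtain ⟨h1, h2, h3, h4⟩ := h q hq.1
        rw [eq]
        have e1 := n_le_HH q
        have e2 := g_le_HH q
        exact ⟨h1, h2, by linarith, by linarith, h4⟩
      have e1 : ((R.filter (fun n => W < (pw n.natAbs : ℝ))).card : ℝ) ≤ 2 * (56 * T / D) := by
        have g1 := card_natAbs (R.filter (fun n => W < (pw n.natAbs : ℝ)))
        have g2 : (R.filter (fun n => W < (pw n.natAbs : ℝ))).image Int.natAbs ⊆ Bs := by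
          intro v hv
          rw [mem_image] at hv
          obtain ⟨n, hn, rfl⟩ := hv
          rw [mem_filter] at hn
          obtain ⟨h1, h2, h3, h4, h5⟩ := hmem n hn.1
          rw [hBs, mem_filter, mem_Icc]
          exact ⟨⟨by omega, Nat.le_floor h3⟩, hsr _ hn.2⟩
        have g3 := card_le_card g2
        have g4 : ((R.filter (fun n => W < (pw n.natAbs : ℝ))).card : ℝ) ≤ 2 * (Bs.card : ℝ) := by
          exact_mod_cast g1.trans (by omega)
        linarith
      have e2 : ((R.filter (fun n => ¬ W < (pw n.natAbs : ℝ))).card : ℝ) ≤ 2 * (56 * T / D) := by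
        have g0 : (R.filter (fun n => ¬ W < (pw n.natAbs : ℝ))).card =
            ((R.filter (fun n => ¬ W < (pw n.natAbs : ℝ))).image (fun n => gg (a, n))).card := by
          rw [card_image_of_injective]
          intro n n' hnn
          unfold gg at hnn
          simp only at hnn
          omega
        have g1 := card_natAbs
          ((R.filter (fun n => ¬ W < (pw n.natAbs : ℝ))).image (fun n => gg (a, n)))
        have g2 : ((R.filter (fun n => ¬ W < (pw n.natAbs : ℝ))).image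
            (fun n => gg (a, n))).image Int.natAbs ⊆ Bs := by
          intro v hv
          rw [mem_image] at hv
          obtain ⟨m, hm, rfl⟩ := hv
          rw [mem_image] at hm
          obtain ⟨n, hn, rfl⟩ := hm
          rw [mem_filter] at hn
          obtain ⟨h1, h2, h3, h4, h5⟩ := hmem n hn.1
          rw [hBs, mem_filter, mem_Icc]
          refine ⟨⟨by omega, Nat.le_floor h4⟩, hsr _ ?_⟩
          rcases h5 with h5 | h5
          · exact absurd h5 hn.2
          · exact h5
        have g3 := card_le_card g2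
        have g4 : ((R.filter (fun n => ¬ W < (pw n.natAbs : ℝ))).card : ℝ) ≤
            2 * (Bs.card : ℝ) := by
          rw [g0]
          exact_mod_cast g1.trans (by omega)
        linarith
      have e3 : (R.card : ℝ) = ((R.filter (fun n => W < (pw n.natAbs : ℝ))).card : ℝ) +
          ((R.filter (fun n => ¬ W < (pw n.natAbs : ℝ))).card : ℝ) := by
        exact_mod_cast (card_filter_add_card_filter_not (s := R)
          (fun n : ℤ => W < (pw n.natAbs : ℝ))).symm
      rw [e3]
      linarith)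
  refine hrow.trans (le_of_eq ?_)
  rw [third_mul T hT0]
  ring

end Pool.Agent.T2h91.TI
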